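import Mathlib

/-!
# Minimal connected dominating sets: basic definitions

`CDS G D`: the vertex set `D` is a connected dominating set of `G` (nonempty, dominating, and any
two vertices of `D` are joined by a path inside `D`).  `KK G X` = number of connected components
of `G[X]` plus the number of vertices which are not dominated by `X`.
-/

set_option autoImplicit false

namespace Pool.Agent.CDom

open Finset

variable {V : Type*} [Fintype V] [LinearOrder V]

/-- `b` can be reached from `a` by steps along edges which end in `X` -/
def Conn (G : SimpleGraph V) (X : Finset V) : V → V → Prop :=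
  Relation.ReflTransGen (fun x y => G.Adj x y ∧ y ∈ X)

/-- `v` is in `X` or has a neighbour in `X` -/
def Dom (G : SimpleGraph V) (X : Finset V) (v : V) : Prop := v ∈ X ∨ ∃ u ∈ X, G.Adj u v

/-- connected dominating sets -/
def CDS (G : SimpleGraph V) (D : Finset V) : Prop :=
  D.Nonempty ∧ (∀ v, Dom G D v) ∧ ∀ a ∈ D, ∀ b ∈ D, Conn G D a b

/-- minimal connected dominating sets -/
def MinCDS (G : SimpleGraph V) (D : Finset V) : Prop :=
  CDS G D ∧ ∀ D', D' ⊂ D → ¬ CDS G D'

open Classical in
/-- the vertices which are not dominated by `X`, and the smallest vertex of each component of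
`G[X]` -/
noncomputable def items (G : SimpleGraph V) (X : Finset V) : Finset V :=
  univ.filter fun v => ¬ Dom G X v ∨ (v ∈ X ∧ ∀ w, Conn G X v w → v ≤ w)

/-- number of components of `G[X]` plus number of vertices not dominated by `X` -/
noncomputable def KK (G : SimpleGraph V) (X : Finset V) : ℕ := (items G X).card

open Classical in
/-- the members of `L` which avoid `Y` -/
noncomputable def LY (L : Finset (Finset V)) (Y : Finset V) : Finset (Finset V) :=
  L.filter fun T => Disjoint T Y

/-- parameters -/
def tau (lam : ℕ) : ℕ := lam + 3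
def ell (lam : ℕ) : ℕ := 3 * lam + 3
def mm (lam : ℕ) : ℕ := 36 * ell lam ^ 2
def dd (lam : ℕ) : ℕ := (2 * tau lam + mm lam) * (lam + 1)

/-- `u` is free and putting it into `X` decreases `KK` by a factor -/
def Big (G : SimpleGraph V) (lam : ℕ) (X Y : Finset V) (u : V) : Prop :=
  u ∉ X ∧ u ∉ Y ∧ KK G (insert u X) * (2 * tau lam) ≤ KK G X * (2 * tau lam - 1)

open Classical in
/-- `u` is free and lies in at least one `mm`-th of the members of `L` avoiding `Y` -/
def Heavy (L : Finset (Finset V)) (lam : ℕ) (X Y : Finset V) (u : V) : Prop :=
  u ∉ X ∧ u ∉ Y ∧ (LY L Y).card ≤ mm lam * ((LY L Y).filter fun T => u ∈ T).card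

end Pool.Agent.CDom
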