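import Mathlib
import Pool.Agent.CDom.Defs

/-!
# MODULE CDom/Basic  (MP_6e88d0_lc)

Basic facts on `Conn`, `CDS`.

Proofs.  `Conn G X` is the reflexive transitive closure of `G.Adj x y ∧ y ∈ X`.
* `conn_mem`, `conn_mono`, `conn_single`: immediate (head / tail induction).
* `conn_symm`: for `a ∈ X`: induction on the path; a step `x -> y` with `x ∈ X` (by `conn_mem`)
  can be reversed.
* `CDS.mono`: every vertex `d` of `D'` is in `D` or adjacent to some `u ∈ D`; so `Conn G D' d u`
  (and `Conn G D' u d`), connect through `D`.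
* `cds_iff`: the induced graph on `D` is connected iff `D` is nonempty and any two vertices of `D`
  are joined by a path inside `D` (`SimpleGraph.Reachable`, `SimpleGraph.reachable_iff_reflTransGen`
  for the induced graph; transfer by induction).
-/

set_option autoImplicit false

namespace Pool.Agent.CDom

open Finset

variable {V : Type*} [Fintype V] [LinearOrder V] {G : SimpleGraph V} {X X' D D' : Finset V}

theorem conn_single {a b : V} (h : G.Adj a b) (hb : b ∈ X) : Conn G X a b :=
  Relation.ReflTransGen.single ⟨h, hb⟩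

theorem conn_mono {a b : V} (hX : X ⊆ X') (h : Conn G X a b) : Conn G X' a b :=
  Relation.ReflTransGen.mono (p := fun x y => G.Adj x y ∧ y ∈ X')
    (fun _ _ hxy => ⟨hxy.1, hX hxy.2⟩) _ _ h

theorem conn_mem {a b : V} (ha : a ∈ X) (h : Conn G X a b) : b ∈ X := by
  unfold Conn at h
  induction h with
  | refl => exact ha
  | tail _ h _ => exact h.2

theorem conn_symm {a b : V} (ha : a ∈ X) (h : Conn G X a b) : Conn G X b a := by
  unfold Conn at h
  induction h with
  | refl => exact Relation.ReflTransGen.refl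
  | tail hab hbc ih =>
    exact Relation.ReflTransGen.head ⟨hbc.1.symm, conn_mem ha hab⟩ ih

theorem Dom.mono {v : V} (hX : X ⊆ X') (h : Dom G X v) : Dom G X' v := by
  rcases h with h | ⟨u, hu, h⟩
  · exact Or.inl (hX h)
  · exact Or.inr ⟨u, hX hu, h⟩

theorem CDS.mono (h : CDS G D) (hD : D ⊆ D') : CDS G D' := by
  refine ⟨h.1.mono hD, fun v => (h.2.1 v).mono hD, ?_⟩
  have key : ∀ d ∈ D', ∃ u ∈ D, Conn G D' d u ∧ Conn G D' u d := by
    intro d hd
    rcases h.2.1 d with h1 | ⟨u, hu, h1⟩
    · exact ⟨d, h1, Relation.ReflTransGen.refl, Relation.ReflTransGen.refl⟩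
    · exact ⟨u, hu, conn_single h1.symm (hD hu), conn_single h1 hd⟩
  intro a ha b hb
  obtain ⟨u, hu, h1, _⟩ := key a ha
  obtain ⟨w, hw, _, h2⟩ := key b hb
  exact Relation.ReflTransGen.trans h1
    (Relation.ReflTransGen.trans (conn_mono hD (h.2.2 u hu w hw)) h2)

/-- a minimal connected dominating set which contains a connected dominating set equals it -/
theorem MinCDS.eq_of_subset (h : MinCDS G D) (h' : CDS G D') (hD : D' ⊆ D) : D' = D := by
  by_contra hne
  exact h.2 D' (Finset.ssubset_iff_subset_ne.2 ⟨hD, hne⟩) h'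

/-- the definition agrees with the one through Mathlib's induced subgraphs -/
theorem cds_iff : CDS G D ↔
    (∀ v, v ∉ D → ∃ u ∈ D, G.Adj u v) ∧ (G.induce (D : Set V)).Connected := by
  constructor
  · intro h
    refine ⟨fun v hv => ?_, ?_⟩
    · rcases h.2.1 v with h1 | h1
      · exact absurd h1 hv
      · exact h1
    · have hne : Nonempty (D : Set V) := by
        obtain ⟨x, hx⟩ := h.1
        exact ⟨⟨x, hx⟩⟩
      rw [SimpleGraph.connected_iff]
      refine ⟨?_, hne⟩
      rintro ⟨a, ha⟩ ⟨b, hb⟩
      have key : ∀ c, Conn G D a c → ∀ hc : c ∈ (D : Set V),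
          (G.induce (D : Set V)).Reachable ⟨a, ha⟩ ⟨c, hc⟩ := by
        intro c hc
        unfold Conn at hc
        induction hc with
        | refl => intro _; exact SimpleGraph.Reachable.refl _
        | tail hxy hyz ih =>
          rename_i y z
          intro hz
          have hy : y ∈ D := conn_mem ha hxy
          have h1 : (G.induce (D : Set V)).Adj ⟨y, hy⟩ ⟨z, hz⟩ := hyz.1
          exact (ih hy).trans h1.reachable
      exact key b (h.2.2 a ha b hb) hb
  · rintro ⟨h1, h2⟩
    have hne : D.Nonempty := by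
      obtain ⟨x⟩ := h2.nonempty
      exact ⟨x.1, x.2⟩
    refine ⟨hne, fun v => ?_, ?_⟩
    · by_cases hv : v ∈ D
      · exact Or.inl hv
      · exact Or.inr (h1 v hv)
    · intro a ha b hb
      have h3 : (G.induce (D : Set V)).Reachable ⟨a, ha⟩ ⟨b, hb⟩ := h2.preconnected _ _
      rw [SimpleGraph.reachable_iff_reflTransGen] at h3
      exact Relation.ReflTransGen.lift (p := fun x y => G.Adj x y ∧ y ∈ D)
        (fun x : (D : Set V) => x.1)
        (fun x y hxy => ⟨hxy, y.2⟩) _ _ h3

end Pool.Agent.CDom
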