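import Mathlib

/-!
# Definitions for the statement of `MP_6e88d0_lc.QuasiPolynomial`

* `IsCDS G D`, `IsMinCDS G D`: (minimal) connected dominating sets.
* `encM`: code of a list of rows of bits as one word of bits: an entry `b` is written `1 b`, the end
  of a row is written `0`.
* `matG G`: rows of the adjacency matrix; `matS D`: characteristic vector.
* `Outputs M i o w w' t`: the Turing machine `M` of Mathlib (multi-stack machine
  `Turing.FinTM2`), started with the word `w`, halts with output `w'` after at most `t` steps.
-/

set_option autoImplicit false

namespace Pool.Agent.CDom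

/-- connected dominating sets: every vertex outside `D` has a neighbour in `D`, and the induced
subgraph `G[D]` is connected (in particular `D` is not empty) -/
def IsCDS {n : ℕ} (G : SimpleGraph (Fin n)) (D : Finset (Fin n)) : Prop :=
  (∀ v, v ∉ D → ∃ u ∈ D, G.Adj u v) ∧ (G.induce (D : Set (Fin n))).Connected

/-- minimal connected dominating sets -/
def IsMinCDS {n : ℕ} (G : SimpleGraph (Fin n)) (D : Finset (Fin n)) : Prop :=
  IsCDS G D ∧ ∀ D', D' ⊂ D → ¬ IsCDS G D'

/-- code of a list of rows: `1 b` for an entry `b`, `0` for the end of a row -/
def encM (R : List (List Bool)) : List Bool :=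
  R.flatMap fun r => (r.flatMap fun b => [true, b]) ++ [false]

open Classical in
/-- the rows of the adjacency matrix -/
noncomputable def matG {n : ℕ} (G : SimpleGraph (Fin n)) : List (List Bool) :=
  (List.finRange n).map fun i => (List.finRange n).map fun j => decide (G.Adj i j)

/-- characteristic vector -/
def matS {n : ℕ} (D : Finset (Fin n)) : List Bool :=
  (List.finRange n).map fun v => decide (v ∈ D)

/-- `M`, started with `w`, halts with output `w'` after at most `t` steps -/
def Outputs (M : Turing.FinTM2) (i : M.Γ M.k₀ ≃ Bool) (o : M.Γ M.k₁ ≃ Bool)
    (w w' : List Bool) (t : ℕ) : Prop :=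
  Nonempty (Turing.TM2OutputsInTime M (w.map i.symm) (some (w'.map o.symm)) t)

end Pool.Agent.CDom
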