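import Mathlib
import Pool.Agent.CDom.Defs

/-!
# The programs (MP_6e88d0_lc)

Everything on lists of natural numbers (vertices `0, .., n-1`), to be run by the language of
`Pool.Agent.Lib.PolyTime`.  `g = (n, arcs)`.
-/

set_option autoImplicit false

namespace Pool.Agent.CDom.Prog

/-- number of vertices, list of arcs (both directions of every edge) -/
abbrev Gr : Type := ℕ × List (ℕ × ℕ)

/-- membership test -/
def mem (v : ℕ) (X : List ℕ) : Bool := X.any fun u => decide (u = v)

/-- adjacency test -/
def adj (g : Gr) (u v : ℕ) : Bool := g.2.any fun e => decide (e.1 = u) && decide (e.2 = v)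

/-- one round of the search -/
def grow (g : Gr) (X S : List ℕ) : List ℕ :=
  (List.range g.1).filter fun w => mem w S || (mem w X && S.any fun u => adj g u w)

/-- vertices reachable from `v` by steps into `X` -/
def reach (g : Gr) (X : List ℕ) (v : ℕ) : List ℕ := (grow g X)^[g.1] [v]

/-- domination test -/
def dom (g : Gr) (X : List ℕ) (v : ℕ) : Bool := mem v X || X.any fun u => adj g u v

/-- item test -/
def item (g : Gr) (X : List ℕ) (v : ℕ) : Bool :=
  !dom g X v || (mem v X && (reach g X v).all fun w => decide (v ≤ w))

/-- the measure -/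
def kk (g : Gr) (X : List ℕ) : ℕ := ((List.range g.1).filter (item g X)).length

/-- connected dominating set test -/
def cds (g : Gr) (X : List ℕ) : Bool := !X.isEmpty && decide (kk g X ≤ 1)

/-- the known solutions avoiding `Y` -/
def lY (L : List (List ℕ)) (Y : List ℕ) : List (List ℕ) :=
  L.filter fun T => T.all fun t => !mem t Y

/-- big vertices -/
def big (g : Gr) (t : ℕ) (X Y : List ℕ) (u : ℕ) : Bool :=
  (!mem u X && !mem u Y) && decide (kk g (u :: X) * (2 * t) ≤ kk g X * (2 * t - 1))

/-- heavy vertices -/
def heavy (L : List (List ℕ)) (m : ℕ) (X Y : List ℕ) (u : ℕ) : Bool :=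
  (!mem u X && !mem u Y) &&
    decide ((lY L Y).length ≤ m * ((lY L Y).filter fun T => mem u T).length)

/-- the input of the procedures: graph, known solutions, `(t, m)`, candidate lists -/
abbrev Inp : Type := Gr × List (List ℕ) × (ℕ × ℕ) × List (List ℕ)

/-- the choices, the first one is taken -/
def picks (I : Inp) (s : List ℕ × List ℕ) : List (Bool × ℕ) :=
  bif decide (2 * I.2.2.1.1 ≤ kk I.1 s.1) && !(lY I.2.1 s.2).isEmpty then
    (((List.range I.1.1).filter (big I.1 I.2.2.1.1 s.1 s.2)).map fun u => (true, u)) ++
      (((List.range I.1.1).filter (heavy I.2.1 I.2.2.1.2 s.1 s.2)).map fun u => (false, u))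
  else []

/-- one step -/
def pstp (I : Inp) (f : Bool) (s : List ℕ × List ℕ) : List ℕ × List ℕ :=
  bif (picks I s).isEmpty then s else
    bif f == ((picks I s).headD (false, 0)).1 then
      (((picks I s).headD (false, 0)).2 :: s.1, s.2)
    else (s.1, ((picks I s).headD (false, 0)).2 :: s.2)

/-- `n` steps, `P` = times of the fast steps -/
def prun (I : Inp) (Y0 P : List ℕ) : List ℕ × List ℕ :=
  (List.range I.1.1).foldl (fun s k => pstp I (mem k P) s) ([], Y0)

/-- no known solution is contained in `X` -/
def noSub (L : List (List ℕ)) (X : List ℕ) : Bool := L.all fun T => !(T.all fun t => mem t X)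

/-- complement -/
def compl (n : ℕ) (Y : List ℕ) : List ℕ := (List.range n).filter fun v => !mem v Y

/-- leaf test -/
def leaf (I : Inp) (s : List ℕ × List ℕ) : Bool :=
  cds I.1 (compl I.1.1 s.2) && (noSub I.2.1 s.1 && ((lY I.2.1 s.2).isEmpty ||
    (decide (2 * I.2.2.1.1 ≤ kk I.1 s.1) || I.2.2.2.any fun Z =>
      cds I.1 (s.1 ++ Z.filter fun v => decide (v < I.1.1) && !mem v s.2) &&
        noSub I.2.1 (s.1 ++ Z.filter fun v => decide (v < I.1.1) && !mem v s.2))))

/-- decision: is there a connected dominating set avoiding `Y0` and containing no member of `L`? -/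
def dec (I : Inp) (Y0 : List ℕ) : Bool := I.2.2.2.any fun P => leaf I (prun I Y0 P)

/-- search: the largest excluded set -/
def excl (I : Inp) : List ℕ :=
  (List.range I.1.1).foldl (fun Y u => bif dec I (u :: Y) then u :: Y else Y) []

/-- a new minimal connected dominating set, or nothing -/
def next (I : Inp) : List (List ℕ) :=
  bif dec I [] then [compl I.1.1 (excl I)] else []

/-- all lists of length `d` over `{0, .., n}`, truncated to at most `pad` of them -/
def cands (n d pad : ℕ) : List (List ℕ) :=
  (fun C : List (List ℕ) =>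
    (C.flatMap fun P => (List.range (n + 1)).map fun a => a :: P).take pad)^[d] [[]]

/-! ### translation to finite sets -/

/-- the set of the vertices in a list -/
def S (n : ℕ) (X : List ℕ) : Finset (Fin n) := Finset.univ.filter fun v => (v : ℕ) ∈ X

/-- the sorted list of a set of vertices -/
def can {n : ℕ} (T : Finset (Fin n)) : List ℕ :=
  (List.range n).filter fun v => decide (∃ h : v < n, (⟨v, h⟩ : Fin n) ∈ T)

/-- `(n, E)` represents `G` -/
def IsRep {n : ℕ} (G : SimpleGraph (Fin n)) (E : List (ℕ × ℕ)) : Prop :=
  ∀ u v : Fin n, adj (n, E) u v = true ↔ G.Adj u v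

/-- the choice function on sets given by the program -/
noncomputable def pickF (n : ℕ) (I : Inp) (X Y : Finset (Fin n)) : Option (Bool × Fin n) :=
  match (picks I (can X, can Y)).head? with
  | none => none
  | some p => if h : p.2 < n then some (p.1, ⟨p.2, h⟩) else none

end Pool.Agent.CDom.Prog
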