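import Mathlib
import Pool.Agent.Lib.PolyTime.Lib
import Pool.Agent.CDom.Prog

/-!
# MODULE CDom/PT1  (MP_6e88d0_lc)

`mem`, `adj`, `reach`, `kk`, `cds` are polynomial-time (library `Pool.Agent.Lib.PolyTime.Lib`).

Proofs: closure lemmas of the library (`PolyTime.any`, `PolyTime.all`, `PolyTime.filter`,
`PolyTime.range`, `PolyTime.eqNat`, `PolyTime.le`, `PolyTime.and`, `PolyTime.or`, `PolyTime.not`,
`PolyTime.length`, ...).  `reach`: `PolyTime.iterate`; all values after the first step are
sublists of `List.range n`, so their size is at most the size of `List.range n`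
(`List.range n` is `PolyTime`, hence of polynomial size), the start is `[v]`.
All lemmas are stated for arguments which depend on a parameter `a : α`.
-/

set_option autoImplicit false

namespace Pool.Agent.CDom.Prog

open Pool.Agent.Lib.PT

variable {α : Type*} [Enc α]

theorem pt_mem {v : α → ℕ} {X : α → List ℕ} (hv : PolyTime v) (hX : PolyTime X) :
    PolyTime (fun a => mem (v a) (X a)) :=
  PolyTime.any (f := fun a u => decide (u = v a)) hX
    (PolyTime.eqNat PolyTime.id.snd (hv.comp PolyTime.id.fst))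

theorem pt_adj {g : α → Gr} {u v : α → ℕ} (hg : PolyTime g) (hu : PolyTime u)
    (hv : PolyTime v) : PolyTime (fun a => adj (g a) (u a) (v a)) :=
  PolyTime.any (f := fun a (e : ℕ × ℕ) => decide (e.1 = u a) && decide (e.2 = v a)) hg.snd
    (PolyTime.and (PolyTime.eqNat PolyTime.id.snd.fst (hu.comp PolyTime.id.fst))
      (PolyTime.eqNat PolyTime.id.snd.snd (hv.comp PolyTime.id.fst)))

theorem pt_grow {g : α → Gr} {X Z : α → List ℕ} (hg : PolyTime g) (hX : PolyTime X)
    (hZ : PolyTime Z) : PolyTime (fun a => grow (g a) (X a) (Z a)) := by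
  unfold grow
  refine PolyTime.filter (f := fun a w => mem w (Z a) || (mem w (X a) && (Z a).any fun u =>
    adj (g a) u w)) (PolyTime.range hg.fst) ?_
  refine PolyTime.or (pt_mem PolyTime.id.snd (hZ.comp PolyTime.id.fst)) (PolyTime.and
    (pt_mem PolyTime.id.snd (hX.comp PolyTime.id.fst)) ?_)
  exact PolyTime.any (f := fun (q : α × ℕ) u => adj (g q.1) u q.2) (hZ.comp PolyTime.id.fst)
    (pt_adj (hg.comp PolyTime.id.fst.fst) PolyTime.id.snd PolyTime.id.fst.snd)

theorem sz_filter_le {β : Type*} [Enc β] (l : List β) (f : β → Bool) :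
    sz (l.filter f) ≤ sz l := by
  induction l with
  | nil => simp
  | cons b l ih =>
    rw [List.filter_cons]
    split
    · rw [sz_list_cons, sz_list_cons]; omega
    · rw [sz_list_cons]; omega

theorem sz_grow_le (g : Gr) (X Z : List ℕ) : sz (grow g X Z) ≤ sz (List.range g.1) :=
  sz_filter_le _ _

theorem pt_reach {g : α → Gr} {X : α → List ℕ} {v : α → ℕ} (hg : PolyTime g)
    (hX : PolyTime X) (hv : PolyTime v) : PolyTime (fun a => reach (g a) (X a) (v a)) := by
  unfold reach
  have hr : PolyTime (fun a => List.range (g a).1) := PolyTime.range hg.fst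
  have hs : PolyTime (fun a => [v a]) := hv.cons (PolyTime.const [])
  obtain ⟨p, hp⟩ := hr.sz_le
  obtain ⟨q, hq⟩ := hs.sz_le
  refine PolyTime.iterate (f := fun a => grow (g a) (X a)) hg.fst hs
    (pt_grow (hg.comp PolyTime.id.fst) (hX.comp PolyTime.id.fst) PolyTime.id.snd)
    ⟨p + q, fun a i _ => ?_⟩
  rw [Polynomial.eval_add]
  cases i with
  | zero => exact (hq a).trans (Nat.le_add_left _ _)
  | succ i =>
    rw [Function.iterate_succ_apply']
    exact (sz_grow_le _ _ _).trans ((hp a).trans (Nat.le_add_right _ _))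

theorem pt_dom {g : α → Gr} {X : α → List ℕ} {v : α → ℕ} (hg : PolyTime g)
    (hX : PolyTime X) (hv : PolyTime v) : PolyTime (fun a => dom (g a) (X a) (v a)) := by
  unfold dom
  refine PolyTime.or (pt_mem hv hX) ?_
  exact PolyTime.any (f := fun a u => adj (g a) u (v a)) hX
    (pt_adj (hg.comp PolyTime.id.fst) PolyTime.id.snd (hv.comp PolyTime.id.fst))

theorem pt_item {g : α → Gr} {X : α → List ℕ} {v : α → ℕ} (hg : PolyTime g)
    (hX : PolyTime X) (hv : PolyTime v) : PolyTime (fun a => item (g a) (X a) (v a)) := by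
  unfold item
  refine PolyTime.or (pt_dom hg hX hv).not (PolyTime.and (pt_mem hv hX) ?_)
  exact PolyTime.all (f := fun a w => decide (v a ≤ w)) (pt_reach hg hX hv)
    (PolyTime.le (hv.comp PolyTime.id.fst) PolyTime.id.snd)

theorem pt_kk {g : α → Gr} {X : α → List ℕ} (hg : PolyTime g) (hX : PolyTime X) :
    PolyTime (fun a => kk (g a) (X a)) := by
  unfold kk
  refine PolyTime.length ?_
  exact PolyTime.filter (f := fun a => item (g a) (X a)) (PolyTime.range hg.fst)
    (pt_item (hg.comp PolyTime.id.fst) (hX.comp PolyTime.id.fst) PolyTime.id.snd)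

theorem pt_cds {g : α → Gr} {X : α → List ℕ} (hg : PolyTime g) (hX : PolyTime X) :
    PolyTime (fun a => cds (g a) (X a)) := by
  unfold cds
  exact PolyTime.and hX.isEmpty.not (PolyTime.le (pt_kk hg hX) (PolyTime.const 1))

theorem pt_lY {L : α → List (List ℕ)} {Y : α → List ℕ} (hL : PolyTime L) (hY : PolyTime Y) :
    PolyTime (fun a => lY (L a) (Y a)) := by
  unfold lY
  refine PolyTime.filter (f := fun a (T : List ℕ) => T.all fun t => !mem t (Y a)) hL ?_
  exact PolyTime.all (f := fun (q : α × List ℕ) t => !mem t (Y q.1)) PolyTime.id.snd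
    (pt_mem PolyTime.id.snd (hY.comp PolyTime.id.fst.fst)).not

theorem pt_noSub {L : α → List (List ℕ)} {X : α → List ℕ} (hL : PolyTime L) (hX : PolyTime X) :
    PolyTime (fun a => noSub (L a) (X a)) := by
  unfold noSub
  refine PolyTime.all (f := fun a (T : List ℕ) => !(T.all fun t => mem t (X a))) hL ?_
  exact (PolyTime.all (f := fun (q : α × List ℕ) t => mem t (X q.1)) PolyTime.id.snd
    (pt_mem PolyTime.id.snd (hX.comp PolyTime.id.fst.fst))).not

theorem pt_compl {n : α → ℕ} {Y : α → List ℕ} (hn : PolyTime n) (hY : PolyTime Y) :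
    PolyTime (fun a => compl (n a) (Y a)) := by
  unfold compl
  exact PolyTime.filter (f := fun a v => !mem v (Y a)) (PolyTime.range hn)
    (pt_mem PolyTime.id.snd (hY.comp PolyTime.id.fst)).not

end Pool.Agent.CDom.Prog
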