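import Mathlib
import Pool.Agent.CDom.Defs
import Pool.Agent.CDom.Basic

/-!
# MODULE CDom/Meas  (MP_6e88d0_lc)

The measure `KK G X` = number of components of `G[X]` + number of vertices not dominated by `X`.

Proofs.
* `mem_items_of_not_dom`: immediate.
* `exists_item`: for `x ∈ X` let `r` be the smallest vertex of the finite set `{w | Conn G X x w}`
  (contained in `X`, contains `x`).  By symmetry (`conn_symm`) every `w` with `Conn G X r w` has
  `Conn G X x w`, so `r ≤ w`; hence `r ∈ items G X`.
* `items_unique`: two elements of `X` in `items G X` joined by a path in `X` are equal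
  (both are `≤` the other).
* `KK_le_of_rep`: injection `items G X -> R`: an item not dominated by `X` goes to itself; an item
  `v ∈ X` goes to some `r ∈ R`, `r ∈ X`, `Conn G X v r`.  Injective by `items_unique` (if `v, v'`
  go to the same `r` then `Conn G X v v'` by `conn_symm`), and images of the two kinds differ since
  the first kind is not in `X`.
* `KK_anti`: apply `KK_le_of_rep` to `X'` and `R = items G X`: not dominated by `X'` implies not
  dominated by `X`.  For `x ∈ X'`: if `x ∈ X` use its item; if `x ∉ X` but `x` has a neighbour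
  `u ∈ X`: use the item of `u`; if `x` is not dominated by `X`: `x ∈ items G X` itself.
* `cds_iff_KK`: if `CDS G X` and `x ∈ X`, every item is in `X` (all vertices are dominated) and any
  two are equal by `items_unique`.  Conversely let `X ≠ ∅`, `KK G X ≤ 1`; the item of some `x ∈ X`
  is an item `r ∈ X`, hence the only one; so every vertex is dominated, and every `a ∈ X` is
  connected to `r`.
* `one_le_KK`: if `X ≠ ∅` take the item of a vertex; if `X = ∅` no vertex is dominated.
-/

set_option autoImplicit false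

namespace Pool.Agent.CDom

open Finset

variable {V : Type*} [Fintype V] [LinearOrder V] {G : SimpleGraph V} {X X' D R : Finset V}

theorem mem_items {v : V} :
    v ∈ items G X ↔ ¬ Dom G X v ∨ (v ∈ X ∧ ∀ w, Conn G X v w → v ≤ w) := by
  classical
  unfold items
  simp only [mem_filter, mem_univ, true_and]

theorem mem_items_of_not_dom {v : V} (h : ¬ Dom G X v) : v ∈ items G X :=
  mem_items.2 (Or.inl h)

theorem exists_item {x : V} (hx : x ∈ X) : ∃ r ∈ items G X, r ∈ X ∧ Conn G X x r := by
  classical
  have hne : (univ.filter fun w => Conn G X x w).Nonempty :=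
    ⟨x, by simp only [mem_filter, mem_univ, true_and]; exact Relation.ReflTransGen.refl⟩
  obtain ⟨r, hr, hmin⟩ := (univ.filter fun w => Conn G X x w).exists_min_image id hne
  simp only [mem_filter, mem_univ, true_and, id] at hr hmin
  have hrX : r ∈ X := conn_mem hx hr
  refine ⟨r, mem_items.2 (Or.inr ⟨hrX, fun w hw => ?_⟩), hrX, hr⟩
  exact hmin w (Relation.ReflTransGen.trans hr hw)

theorem items_unique {v v' : V} (hv : v ∈ items G X) (hv' : v' ∈ items G X) (hX : v ∈ X)
    (h : Conn G X v v') : v = v' := by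
  have hX' : v' ∈ X := conn_mem hX h
  have h1 : v ≤ v' := by
    rcases mem_items.1 hv with h0 | h0
    · exact absurd (Or.inl hX) h0
    · exact h0.2 _ h
  have h2 : v' ≤ v := by
    rcases mem_items.1 hv' with h0 | h0
    · exact absurd (Or.inl hX') h0
    · exact h0.2 _ (conn_symm hX h)
  exact le_antisymm h1 h2

theorem KK_le_of_rep (h1 : ∀ v, ¬ Dom G X v → v ∈ R)
    (h2 : ∀ x ∈ X, ∃ r ∈ R, r ∈ X ∧ Conn G X x r) : KK G X ≤ R.card := by
  classical
  have h3 : ∀ v : V, ∃ r : V, v ∈ items G X →
      r ∈ R ∧ ((v ∉ X ∧ r = v) ∨ (v ∈ X ∧ r ∈ X ∧ Conn G X v r)) := by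
    intro v
    by_cases hv : v ∈ X
    · obtain ⟨r, hr, hrX, hc⟩ := h2 v hv
      exact ⟨r, fun _ => ⟨hr, Or.inr ⟨hv, hrX, hc⟩⟩⟩
    · refine ⟨v, fun hvi => ⟨?_, Or.inl ⟨hv, rfl⟩⟩⟩
      rcases mem_items.1 hvi with h0 | h0
      · exact h1 v h0
      · exact absurd h0.1 hv
  choose f hf using h3
  unfold KK
  refine card_le_card_of_injOn f (fun v hv => ?_) ?_
  · exact (hf v hv).1
  · intro v hv v' hv' he
    have hv1 : v ∈ items G X := hv
    have hv1' : v' ∈ items G X := hv'
    obtain ⟨-, a⟩ := hf v hv1
    obtain ⟨-, a'⟩ := hf v' hv1'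
    rcases a with ⟨hn, hr⟩ | ⟨hn, hr, hc⟩
    · rcases a' with ⟨hn', hr'⟩ | ⟨hn', hr', hc'⟩
      · rw [← hr, ← hr']
        exact he
      · exfalso
        apply hn
        rw [← hr, he]
        exact hr'
    · rcases a' with ⟨hn', hr'⟩ | ⟨hn', hr', hc'⟩
      · exfalso
        apply hn'
        rw [← hr', ← he]
        exact hr
      · refine items_unique hv1 hv1' hn ?_
        have e1 : Conn G X (f v') v' := conn_symm hn' hc'
        rw [← he] at e1
        exact Relation.ReflTransGen.trans hc e1

theorem KK_anti (h : X ⊆ X') : KK G X' ≤ KK G X := by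
  refine KK_le_of_rep (R := items G X) (fun v hv => ?_) (fun x hx => ?_)
  · exact mem_items_of_not_dom (fun h0 => hv (Dom.mono h h0))
  · by_cases hxX : x ∈ X
    · obtain ⟨r, hr, hrX, hc⟩ := exists_item (G := G) hxX
      exact ⟨r, hr, h hrX, conn_mono h hc⟩
    · by_cases hd : Dom G X x
      · rcases hd with h0 | ⟨u, hu, ha⟩
        · exact absurd h0 hxX
        · obtain ⟨r, hr, hrX, hc⟩ := exists_item (G := G) hu
          exact ⟨r, hr, h hrX, Relation.ReflTransGen.trans (conn_single ha.symm (h hu))
            (conn_mono h hc)⟩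
      · exact ⟨x, mem_items_of_not_dom hd, hx, Relation.ReflTransGen.refl⟩

theorem KK_le_card : KK G X ≤ Fintype.card V := by
  unfold KK
  exact card_le_univ _

theorem one_le_KK [Nonempty V] : 1 ≤ KK G X := by
  unfold KK
  rw [Nat.succ_le_iff, card_pos]
  rcases X.eq_empty_or_nonempty with hX | hX
  · obtain ⟨v⟩ := (inferInstance : Nonempty V)
    refine ⟨v, mem_items_of_not_dom ?_⟩
    rintro (h0 | ⟨u, hu, -⟩)
    · rw [hX] at h0
      exact absurd h0 (notMem_empty v)
    · rw [hX] at hu
      exact absurd hu (notMem_empty u)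
  · obtain ⟨x, hx⟩ := hX
    obtain ⟨r, hr, -, -⟩ := exists_item (G := G) hx
    exact ⟨r, hr⟩

theorem cds_iff_KK : CDS G X ↔ X.Nonempty ∧ KK G X ≤ 1 := by
  unfold KK
  constructor
  · rintro ⟨hne, hd, hc⟩
    refine ⟨hne, card_le_one.2 fun a ha b hb => ?_⟩
    have haX : a ∈ X := by
      rcases mem_items.1 ha with h0 | h0
      · exact absurd (hd a) h0
      · exact h0.1
    have hbX : b ∈ X := by
      rcases mem_items.1 hb with h0 | h0
      · exact absurd (hd b) h0
      · exact h0.1
    exact items_unique ha hb haX (hc a haX b hbX)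
  · rintro ⟨hne, hK⟩
    rw [card_le_one] at hK
    obtain ⟨x, hx⟩ := hne
    obtain ⟨r, hr, hrX, -⟩ := exists_item (G := G) hx
    have key : ∀ a ∈ X, Conn G X a r := by
      intro a ha
      obtain ⟨s, hs, hsX, hc⟩ := exists_item (G := G) ha
      rw [hK r hr s hs]
      exact hc
    refine ⟨⟨x, hx⟩, fun v => ?_, fun a ha b hb => ?_⟩
    · by_contra hv
      have h1 := hK r hr v (mem_items_of_not_dom hv)
      apply hv
      rw [← h1]
      exact Or.inl hrX
    · exact Relation.ReflTransGen.trans (key a ha) (conn_symm hb (key b hb))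

end Pool.Agent.CDom
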