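import Mathlib
import Pool.Agent.CDom.Defs
import Pool.Agent.CDom.Basic
import Pool.Agent.CDom.Meas
import Pool.Agent.CDom.Prog

/-!
# MODULE CDom/Spec1  (MP_6e88d0_lc)

The programs `reach`, `kk`, `cds` compute what they should.

Proofs.
* `mem_iff`: `List.any_eq_true`.
* `S_cons`, `S_append`, `S_can`, `can_S` : unfold.
* `reach_spec`: let `R k = (grow g X)^[k] [v]`.  All elements of `R k` are `v` or `< n`.  `R k ⊆
  R (k+1)` for elements `< n` (`mem w S` in `grow`).  Every element of `R k` is reachable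
  (`Conn G (S n X) v w`; `grow` adds `w ∈ X` adjacent to an element of `R k`).  Conversely the sets
  `S n (R k)` increase; if `S n (R (k+1)) = S n (R k)` then all later ones are equal; since they
  are subsets of `Fin n` and `S n (R 0) = {v}` has one element, `S n (R n)` is closed under steps
  (otherwise `|S n (R k)| ≥ k + 1` for all `k ≤ n`, so `|S n (R n)| ≥ n + 1`), and contains `v`, so it
  contains everything reachable.  For `n = 0` there is no `v : Fin 0`.
* `kk_spec`: `item (n, E) X v = true ↔ v ∈ items G (S n X)` for `v : Fin n`; compare the filter of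
  `List.range n` with the filter of `univ` (`List.range n = (List.finRange n).map Fin.val`, or
  `Finset.card_bij`).
* `cds_spec`: `cds_iff_KK`; `X.isEmpty = false ↔ (S n X).Nonempty` as all elements are `< n`.
-/

set_option autoImplicit false

namespace Pool.Agent.CDom.Prog

open Finset

variable {n : ℕ} {G : SimpleGraph (Fin n)} {E : List (ℕ × ℕ)}

theorem mem_iff {v : ℕ} {X : List ℕ} : mem v X = true ↔ v ∈ X := by
  unfold mem
  rw [List.any_eq_true]
  constructor
  · rintro ⟨u, hu, h⟩
    rw [decide_eq_true_eq] at h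
    exact h ▸ hu
  · exact fun h => ⟨v, h, decide_eq_true rfl⟩

theorem mem_S {v : Fin n} {X : List ℕ} : v ∈ S n X ↔ (v : ℕ) ∈ X := by
  unfold S
  rw [Finset.mem_filter]
  exact ⟨fun h => h.2, fun h => ⟨Finset.mem_univ _, h⟩⟩

theorem S_cons (u : Fin n) (X : List ℕ) : S n ((u : ℕ) :: X) = insert u (S n X) := by
  ext v
  rw [mem_S, Finset.mem_insert, mem_S, List.mem_cons, Fin.ext_iff]

theorem S_append (X Z : List ℕ) : S n (X ++ Z) = S n X ∪ S n Z := by
  ext v
  rw [mem_S, Finset.mem_union, mem_S, mem_S, List.mem_append]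

theorem S_nil : S n [] = ∅ := by
  ext v
  rw [mem_S]
  simp

theorem mem_can {T : Finset (Fin n)} {v : ℕ} : v ∈ can T ↔ ∃ h : v < n, (⟨v, h⟩ : Fin n) ∈ T := by
  unfold can
  rw [List.mem_filter, List.mem_range, decide_eq_true_eq]
  exact ⟨fun h => h.2, fun h => ⟨h.1, h⟩⟩

theorem S_can (T : Finset (Fin n)) : S n (can T) = T := by
  ext v
  rw [mem_S, mem_can]
  exact ⟨fun ⟨_, h⟩ => h, fun h => ⟨v.2, h⟩⟩

theorem can_injective : Function.Injective (can : Finset (Fin n) → List ℕ) := by
  intro T T' h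
  rw [← S_can T, h, S_can]

theorem mem_can_lt {T : Finset (Fin n)} {v : ℕ} (h : v ∈ can T) : v < n :=
  (mem_can.1 h).1

theorem compl_eq (Y : List ℕ) : compl n Y = can (univ \ S n Y) := by
  unfold compl can
  refine List.filter_congr fun v hv => ?_
  have hv' : v < n := List.mem_range.1 hv
  rw [Bool.eq_iff_iff, Bool.not_eq_true', Bool.eq_false_iff, decide_eq_true_eq, ne_eq, mem_iff]
  constructor
  · intro h
    refine ⟨hv', ?_⟩
    rw [Finset.mem_sdiff, mem_S]
    exact ⟨Finset.mem_univ _, h⟩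
  · rintro ⟨_, h⟩
    rw [Finset.mem_sdiff, mem_S] at h
    exact h.2

theorem dom_spec (hE : IsRep G E) (X : List ℕ) (hX : ∀ x ∈ X, x < n) (v : Fin n) :
    dom (n, E) X v = true ↔ Dom G (S n X) v := by
  unfold dom Dom
  rw [Bool.or_eq_true, mem_iff, mem_S, List.any_eq_true]
  refine or_congr Iff.rfl ?_
  constructor
  · rintro ⟨u, hu, h⟩
    exact ⟨⟨u, hX u hu⟩, mem_S.2 hu, (hE ⟨u, hX u hu⟩ v).1 h⟩
  · rintro ⟨u, hu, h⟩
    exact ⟨u, mem_S.1 hu, (hE u v).2 h⟩

open Classical in
/-- one round on sets -/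
noncomputable def stepS (G : SimpleGraph (Fin n)) (X T : Finset (Fin n)) : Finset (Fin n) :=
  T ∪ X.filter fun w => ∃ u ∈ T, G.Adj u w

theorem mem_stepS {X T : Finset (Fin n)} {w : Fin n} :
    w ∈ stepS G X T ↔ w ∈ T ∨ (w ∈ X ∧ ∃ u ∈ T, G.Adj u w) := by
  classical
  unfold stepS
  rw [Finset.mem_union, Finset.mem_filter]

theorem grow_lt {g : Gr} {X Z : List ℕ} : ∀ w ∈ grow g X Z, w < g.1 := by
  intro w hw
  unfold grow at hw
  rw [List.mem_filter, List.mem_range] at hw
  exact hw.1

theorem iter_lt (X : List ℕ) (v : Fin n) (k : ℕ) : ∀ w ∈ (grow (n, E) X)^[k] [(v : ℕ)], w < n := by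
  rcases k with _ | k
  · intro w hw
    rw [Function.iterate_zero, id_eq, List.mem_singleton] at hw
    rw [hw]
    exact v.2
  · rw [Function.iterate_succ_apply']
    exact grow_lt

theorem S_grow (hE : IsRep G E) (X Z : List ℕ) (hZ : ∀ z ∈ Z, z < n) :
    S n (grow (n, E) X Z) = stepS G (S n X) (S n Z) := by
  ext w
  rw [mem_stepS, mem_S, mem_S, mem_S]
  unfold grow
  rw [List.mem_filter, List.mem_range, Bool.or_eq_true, Bool.and_eq_true, mem_iff, mem_iff,
    List.any_eq_true]
  constructor
  · rintro ⟨_, h | ⟨h1, u, hu, h2⟩⟩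
    · exact Or.inl h
    · exact Or.inr ⟨h1, ⟨u, hZ u hu⟩, mem_S.2 hu, (hE ⟨u, hZ u hu⟩ w).1 h2⟩
  · rintro (h | ⟨h1, u, hu, h2⟩)
    · exact ⟨w.2, Or.inl h⟩
    · exact ⟨w.2, Or.inr ⟨h1, u, mem_S.1 hu, (hE u w).2 h2⟩⟩

theorem S_iter (hE : IsRep G E) (X : List ℕ) (v : Fin n) (k : ℕ) :
    S n ((grow (n, E) X)^[k] [(v : ℕ)]) = (stepS G (S n X))^[k] {v} := by
  induction k with
  | zero =>
    rw [Function.iterate_zero, Function.iterate_zero, id_eq, id_eq]
    ext w
    rw [mem_S, List.mem_singleton, Finset.mem_singleton, Fin.ext_iff]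
  | succ k ih =>
    rw [Function.iterate_succ_apply', Function.iterate_succ_apply',
      S_grow hE _ _ (iter_lt X v k), ih]

theorem iter_stable (X : Finset (Fin n)) (v : Fin n) :
    stepS G X ((stepS G X)^[n] {v}) = (stepS G X)^[n] {v} := by
  have key : ∀ k, stepS G X ((stepS G X)^[k] {v}) = (stepS G X)^[k] {v} ∨
      k + 1 ≤ ((stepS G X)^[k] {v}).card := by
    intro k
    induction k with
    | zero => exact Or.inr (by rw [Function.iterate_zero, id_eq, Finset.card_singleton])
    | succ k ih =>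
      rw [Function.iterate_succ_apply']
      by_cases h : stepS G X ((stepS G X)^[k] {v}) = (stepS G X)^[k] {v}
      · exact Or.inl (by rw [h, h])
      · refine Or.inr ?_
        have h1 := ih.resolve_left h
        have h2 : (stepS G X)^[k] {v} ⊂ stepS G X ((stepS G X)^[k] {v}) := by
          refine Finset.ssubset_iff_subset_ne.2 ⟨?_, fun e => h e.symm⟩
          exact fun w hw => mem_stepS.2 (Or.inl hw)
        have h3 := Finset.card_lt_card h2
        omega
  refine (key n).resolve_right fun h => ?_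
  have h1 := Finset.card_le_univ ((stepS G X)^[n] {v})
  rw [Fintype.card_fin] at h1
  omega

theorem reach_lt (X : List ℕ) (v : Fin n) : ∀ w ∈ reach (n, E) X v, w < n :=
  iter_lt X v n

theorem reach_spec (hE : IsRep G E) (X : List ℕ) (v w : Fin n) :
    (w : ℕ) ∈ reach (n, E) X v ↔ Conn G (S n X) v w := by
  have h0 : (w : ℕ) ∈ reach (n, E) X v ↔ w ∈ (stepS G (S n X))^[n] {v} := by
    rw [← S_iter hE, mem_S]
    rfl
  rw [h0]
  constructor
  · have key : ∀ k, ∀ w ∈ (stepS G (S n X))^[k] {v}, Conn G (S n X) v w := by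
      intro k
      induction k with
      | zero =>
        intro w hw
        rw [Function.iterate_zero, id_eq, Finset.mem_singleton] at hw
        rw [hw]
        exact Relation.ReflTransGen.refl
      | succ k ih =>
        intro w hw
        rw [Function.iterate_succ_apply', mem_stepS] at hw
        rcases hw with hw | ⟨hw, u, hu, huw⟩
        · exact ih w hw
        · exact (ih u hu).tail ⟨huw, hw⟩
    exact key n w
  · intro h
    clear h0
    induction h with
    | refl =>
      have hsub : ∀ k, v ∈ (stepS G (S n X))^[k] {v} := by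
        intro k
        induction k with
        | zero =>
          rw [Function.iterate_zero, id_eq]
          exact Finset.mem_singleton_self v
        | succ k ih =>
          rw [Function.iterate_succ_apply']
          exact mem_stepS.2 (Or.inl ih)
      exact hsub n
    | tail _ h2 ih =>
      rw [← iter_stable]
      exact mem_stepS.2 (Or.inr ⟨h2.2, _, ih, h2.1⟩)

theorem item_spec (hE : IsRep G E) (X : List ℕ) (hX : ∀ x ∈ X, x < n) (v : Fin n) :
    item (n, E) X v = true ↔ v ∈ items G (S n X) := by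
  rw [mem_items]
  unfold item
  rw [Bool.or_eq_true, Bool.not_eq_true', Bool.eq_false_iff, ne_eq, dom_spec hE X hX,
    Bool.and_eq_true, mem_iff, mem_S, List.all_eq_true]
  refine or_congr Iff.rfl (and_congr Iff.rfl ?_)
  constructor
  · intro h w hw
    have h1 := h w ((reach_spec hE X v w).2 hw)
    rw [decide_eq_true_eq] at h1
    exact h1
  · intro h w hw
    rw [decide_eq_true_eq]
    exact h ⟨w, reach_lt X v w hw⟩ ((reach_spec hE X v ⟨w, reach_lt X v w hw⟩).1 hw)

theorem kk_spec (hE : IsRep G E) (X : List ℕ) (hX : ∀ x ∈ X, x < n) :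
    kk (n, E) X = KK G (S n X) := by
  have h1 : (items G (S n X)).map Fin.valEmbedding =
      ((List.range n).filter (item (n, E) X)).toFinset := by
    ext x
    rw [Finset.mem_map, List.mem_toFinset, List.mem_filter, List.mem_range]
    constructor
    · rintro ⟨v, hv, rfl⟩
      exact ⟨v.2, (item_spec hE X hX v).2 hv⟩
    · rintro ⟨hx, h⟩
      exact ⟨⟨x, hx⟩, (item_spec hE X hX ⟨x, hx⟩).1 h, rfl⟩
  unfold kk KK
  rw [← Finset.card_map Fin.valEmbedding, h1, List.toFinset_card_of_nodup]
  exact List.nodup_range.filter _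

theorem cds_spec (hE : IsRep G E) (X : List ℕ) (hX : ∀ x ∈ X, x < n) :
    cds (n, E) X = true ↔ CDS G (S n X) := by
  rw [cds_iff_KK]
  unfold cds
  rw [Bool.and_eq_true, decide_eq_true_eq, kk_spec hE X hX, Bool.not_eq_true']
  refine and_congr ?_ Iff.rfl
  constructor
  · intro h
    rw [List.isEmpty_eq_false_iff] at h
    obtain ⟨x, hx⟩ := List.exists_mem_of_ne_nil X h
    exact ⟨⟨x, hX x hx⟩, mem_S.2 hx⟩
  · rintro ⟨v, hv⟩
    rw [List.isEmpty_eq_false_iff]
    exact List.ne_nil_of_mem (mem_S.1 hv)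

end Pool.Agent.CDom.Prog
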