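import Mathlib
import Pool.Agent.Lib.PolyTime.Lib
import Pool.Agent.CDom.StmtDefs
import Pool.Agent.CDom.Prog
import Pool.Agent.CDom.PT1
import Pool.Agent.CDom.Spec1

/-!
# MODULE CDom/Parse  (MP_6e88d0_lc)

Reading and writing words of bits.

Proofs.
* `decM_encM`: the fold over `encM R` started in `(false, [], A)` ends in `(false, [], R.reverse ++ A)`
  (each row reversed twice); induction on `R` and on the rows.
* `toGr_spec`: for `n ≥ 1` the first row of `matG G ++ l.map matS` has length `n`; for `n = 0` the
  list is empty (`h0`).  `adj (n, E) u v ↔` entry `(u, v)` of the matrix.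
* `toL_spec`: `(matG G ++ _).drop n = l.map matS`, `rowList (matS T) = can T`.
* `printL_spec`: `listRow n (can T) = matS T`.
* `PolyTime`: `encM`: `PolyTime.flatMap`, `append`; `decM`: `PolyTime.foldl_add'` (every step adds a
  bounded amount; `reverse` keeps the size), the others: closure lemmas.
* `sz_enc_le`: `sz (encM R) ≤ 4 * (encM R).length + 1` (`sz_bools`), length
  `2 n^2 + n + (2 n + 1) * l.length`.
* `sz_toGr_le`: polynomial bound from `PolyTime.size_bdd`.
-/

set_option autoImplicit false

namespace Pool.Agent.CDom.Prog

open Pool.Agent.Lib.PT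

/-- one step of the parser; state: (an entry follows, current row reversed, rows reversed) -/
def pst (s : Bool × List Bool × List (List Bool)) (b : Bool) :
    Bool × List Bool × List (List Bool) :=
  bif s.1 then (false, b :: s.2.1, s.2.2)
  else bif b then (true, s.2.1, s.2.2) else (false, [], s.2.1.reverse :: s.2.2)

/-- the parser -/
def decM (w : List Bool) : List (List Bool) := (w.foldl pst (false, [], [])).2.2.reverse

/-- positions of the ones -/
def rowList (r : List Bool) : List ℕ := (List.range r.length).filter fun v => r.getD v false

/-- the graph -/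
def toGr (R : List (List Bool)) : Gr :=
  ((R.headD []).length, (List.range (R.headD []).length).flatMap fun i =>
    (rowList (R.getD i [])).map fun j => (i, j))

/-- the known solutions -/
def toL (R : List (List Bool)) : List (List ℕ) := (R.drop (R.headD []).length).map rowList

/-- characteristic vector of a list -/
def listRow (n : ℕ) (X : List ℕ) : List Bool := (List.range n).map fun v => mem v X

/-- output -/
def printL (n : ℕ) (L : List (List ℕ)) : List Bool := encM (L.map (listRow n))

theorem foldl_row (r : List Bool) (cur : List Bool) (acc : List (List Bool)) :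
    (r.flatMap fun b => [true, b]).foldl pst (false, cur, acc) = (false, r.reverse ++ cur, acc) := by
  induction r generalizing cur with
  | nil => rfl
  | cons b r ih =>
    rw [List.flatMap_cons, List.foldl_append]
    have h : [true, b].foldl pst (false, cur, acc) = (false, b :: cur, acc) := rfl
    rw [h, ih, List.reverse_cons, List.append_assoc]
    rfl

theorem foldl_rows (R acc : List (List Bool)) :
    (encM R).foldl pst (false, [], acc) = (false, [], R.reverse ++ acc) := by
  induction R generalizing acc with
  | nil => rfl
  | cons r R ih =>
    have h : encM (r :: R) = ((r.flatMap fun b => [true, b]) ++ [false]) ++ encM R := by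
      unfold encM
      rw [List.flatMap_cons]
    rw [h, List.foldl_append, List.foldl_append, foldl_row]
    have h2 : [false].foldl pst (false, r.reverse ++ [], acc) =
        (false, [], (r.reverse ++ []).reverse :: acc) := rfl
    rw [h2, ih, List.append_nil, List.reverse_reverse, List.reverse_cons, List.append_assoc]
    rfl

theorem decM_encM (R : List (List Bool)) : decM (encM R) = R := by
  unfold decM
  rw [foldl_rows, List.append_nil, List.reverse_reverse]

theorem length_matG {n : ℕ} (G : SimpleGraph (Fin n)) : (matG G).length = n := by
  unfold matG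
  rw [List.length_map, List.length_finRange]

theorem length_matS {n : ℕ} (D : Finset (Fin n)) : (matS D).length = n := by
  unfold matS
  rw [List.length_map, List.length_finRange]

theorem headD_length {n : ℕ} (G : SimpleGraph (Fin n)) (l : List (Finset (Fin n)))
    (h0 : n = 0 → l = []) : ((matG G ++ l.map matS).headD []).length = n := by
  rcases Nat.eq_zero_or_pos n with h | h
  · subst h
    rw [h0 rfl]
    rfl
  · obtain ⟨m, rfl⟩ : ∃ m, n = m + 1 := ⟨n - 1, by omega⟩
    unfold matG
    rw [List.finRange_succ, List.map_cons, List.cons_append, List.headD_cons, List.length_map,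
      List.length_cons, List.length_map, List.length_finRange]

theorem mem_rowList {r : List Bool} {v : ℕ} : v ∈ rowList r ↔ r.getD v false = true := by
  unfold rowList
  rw [List.mem_filter, List.mem_range]
  constructor
  · exact fun h => h.2
  · intro h
    refine ⟨?_, h⟩
    by_contra hv
    rw [List.getD_eq_default _ _ (not_lt.1 hv)] at h
    exact Bool.false_ne_true h

open Classical in
theorem getD_matG {n : ℕ} (G : SimpleGraph (Fin n)) (L : List (List Bool)) (u : Fin n) :
    (matG G ++ L).getD u [] = (List.finRange n).map fun j => decide (G.Adj u j) := by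
  have hu : (u : ℕ) < (matG G).length := by rw [length_matG]; exact u.2
  rw [List.getD_append _ _ _ _ hu, List.getD_eq_getElem _ _ hu]
  unfold matG
  rw [List.getElem_map, List.getElem_finRange]
  rfl

theorem getD_map_finRange {n : ℕ} (f : Fin n → Bool) (v : Fin n) :
    ((List.finRange n).map f).getD v false = f v := by
  have hv : (v : ℕ) < ((List.finRange n).map f).length := by
    rw [List.length_map, List.length_finRange]
    exact v.2
  rw [List.getD_eq_getElem _ _ hv, List.getElem_map, List.getElem_finRange]
  rfl

theorem toGr_spec {n : ℕ} (G : SimpleGraph (Fin n)) (l : List (Finset (Fin n)))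
    (h0 : n = 0 → l = []) :
    (toGr (matG G ++ l.map matS)).1 = n ∧ IsRep G (toGr (matG G ++ l.map matS)).2 := by
  classical
  refine ⟨headD_length G l h0, fun u v => ?_⟩
  unfold toGr adj
  simp only
  rw [headD_length G l h0, List.any_eq_true]
  constructor
  · rintro ⟨⟨a, b⟩, he, hab⟩
    rw [Bool.and_eq_true, decide_eq_true_eq, decide_eq_true_eq] at hab
    simp only at hab
    rw [List.mem_flatMap] at he
    obtain ⟨i, -, hi⟩ := he
    rw [List.mem_map] at hi
    obtain ⟨j, hj, hij⟩ := hi
    rw [Prod.mk.injEq] at hij
    have h1 : i = u := by rw [hij.1, hab.1]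
    have h2 : j = v := by rw [hij.2, hab.2]
    rw [h1, h2, mem_rowList, getD_matG, getD_map_finRange, decide_eq_true_eq] at hj
    exact hj
  · intro h
    refine ⟨((u : ℕ), (v : ℕ)), ?_, by simp⟩
    rw [List.mem_flatMap]
    refine ⟨u, List.mem_range.2 u.2, ?_⟩
    rw [List.mem_map]
    refine ⟨v, ?_, rfl⟩
    rw [mem_rowList, getD_matG, getD_map_finRange, decide_eq_true_eq]
    exact h

theorem rowList_matS {n : ℕ} (T : Finset (Fin n)) : rowList (matS T) = can T := by
  unfold rowList can
  rw [length_matS]
  refine List.filter_congr fun v hv => ?_
  have hv' : v < n := List.mem_range.1 hv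
  have h1 : (matS T).getD v false = decide ((⟨v, hv'⟩ : Fin n) ∈ T) :=
    getD_map_finRange (fun v : Fin n => decide (v ∈ T)) ⟨v, hv'⟩
  rw [h1, decide_eq_decide]
  exact ⟨fun h => ⟨hv', h⟩, fun ⟨_, h⟩ => h⟩

theorem toL_spec {n : ℕ} (G : SimpleGraph (Fin n)) (l : List (Finset (Fin n)))
    (h0 : n = 0 → l = []) : toL (matG G ++ l.map matS) = l.map can := by
  unfold toL
  rw [headD_length G l h0]
  have h1 : (matG G ++ l.map matS).drop n = l.map matS := by
    have h2 := List.drop_left (l₁ := matG G) (l₂ := l.map matS)
    rwa [length_matG] at h2
  rw [h1, List.map_map]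
  exact List.map_congr_left fun T _ => rowList_matS T

theorem listRow_can {n : ℕ} (T : Finset (Fin n)) : listRow n (can T) = matS T := by
  unfold listRow matS
  rw [← List.map_coe_finRange_eq_range, List.map_map]
  refine List.map_congr_left fun v _ => ?_
  rw [Function.comp_apply, Bool.eq_iff_iff, mem_iff, decide_eq_true_eq]
  unfold can
  rw [List.mem_filter, List.mem_range, decide_eq_true_eq]
  constructor
  · rintro ⟨_, _, h⟩
    exact h
  · exact fun h => ⟨v.2, v.2, h⟩

theorem printL_spec {n : ℕ} (l : List (Finset (Fin n))) :
    printL n (l.map can) = encM (l.map matS) := by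
  unfold printL
  rw [List.map_map]
  congr 1
  exact List.map_congr_left fun T _ => listRow_can T

theorem pt_decM : PolyTime decM := by
  unfold decM
  refine PolyTime.reverse (PolyTime.snd (PolyTime.snd ?_))
  refine PolyTime.foldl_add' (f := fun _ s b => pst s b) PolyTime.id (PolyTime.const _) ?_ ?_
  · unfold pst
    refine PolyTime.cond PolyTime.id.snd.fst.fst ?_ (PolyTime.cond PolyTime.id.snd.snd ?_ ?_)
    · exact (PolyTime.const false).pair
        ((PolyTime.id.snd.snd.cons PolyTime.id.snd.fst.snd.fst).pair PolyTime.id.snd.fst.snd.snd)
    · exact (PolyTime.const true).pair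
        (PolyTime.id.snd.fst.snd.fst.pair PolyTime.id.snd.fst.snd.snd)
    · exact (PolyTime.const false).pair
        ((PolyTime.const []).pair
          (PolyTime.id.snd.fst.snd.fst.reverse.cons PolyTime.id.snd.fst.snd.snd))
  · refine ⟨Polynomial.C 10, fun a x y => ?_⟩
    obtain ⟨b, cur, acc⟩ := x
    rw [Polynomial.eval_C]
    have h1 := sz_bool_le y
    cases b <;> cases y <;> simp [pst, sz_reverse] <;> omega

theorem pt_rowList {α : Type*} [Enc α] {r : α → List Bool} (hr : PolyTime r) :
    PolyTime (fun a => rowList (r a)) := by
  unfold rowList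
  exact PolyTime.filter (f := fun a v => (r a).getD v false) hr.length.range
    (PolyTime.getD (hr.comp PolyTime.id.fst) PolyTime.id.snd (PolyTime.const false))

theorem pt_toGr : PolyTime toGr := by
  unfold toGr
  have h1 : PolyTime (fun R : List (List Bool) => (R.headD []).length) :=
    (PolyTime.headD PolyTime.id (PolyTime.const [])).length
  refine h1.pair ?_
  refine PolyTime.flatMap (f := fun (R : List (List Bool)) (i : ℕ) =>
    (rowList (R.getD i [])).map fun j => (i, j)) h1.range ?_
  exact PolyTime.map (f := fun (q : List (List Bool) × ℕ) (j : ℕ) => (q.2, j))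
    (pt_rowList (PolyTime.getD PolyTime.id.fst PolyTime.id.snd (PolyTime.const [])))
    (PolyTime.id.fst.snd.pair PolyTime.id.snd)

theorem pt_toL : PolyTime toL := by
  unfold toL
  have h1 : PolyTime (fun R : List (List Bool) => (R.headD []).length) :=
    (PolyTime.headD PolyTime.id (PolyTime.const [])).length
  exact PolyTime.map (f := fun (_ : List (List Bool)) (r : List Bool) => rowList r)
    (PolyTime.drop h1 PolyTime.id) (pt_rowList PolyTime.id.snd)

theorem pt_encM : PolyTime encM := by
  unfold encM
  refine PolyTime.flatMap (f := fun (_ : List (List Bool)) (r : List Bool) =>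
    (r.flatMap fun b => [true, b]) ++ [false]) PolyTime.id ?_
  refine PolyTime.append ?_ (PolyTime.const _)
  exact PolyTime.flatMap (f := fun (_ : List (List Bool) × List Bool) (b : Bool) => [true, b])
    PolyTime.id.snd ((PolyTime.const true).cons (PolyTime.id.snd.cons (PolyTime.const [])))

theorem pt_printL : PolyTime (fun q : ℕ × List (List ℕ) => printL q.1 q.2) := by
  unfold printL listRow
  refine pt_encM.comp ?_
  refine PolyTime.map (f := fun (q : ℕ × List (List ℕ)) (X : List ℕ) =>
    (List.range q.1).map fun v => mem v X) PolyTime.id.snd ?_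
  exact PolyTime.map (f := fun (q : (ℕ × List (List ℕ)) × List ℕ) (v : ℕ) => mem v q.2)
    PolyTime.id.fst.fst.range (pt_mem PolyTime.id.snd PolyTime.id.fst.snd)

theorem length_row (r : List Bool) : (r.flatMap fun b => [true, b]).length = 2 * r.length := by
  induction r with
  | nil => rfl
  | cons b r ih =>
    rw [List.flatMap_cons, List.length_append, ih, List.length_cons]
    simp only [List.length_cons, List.length_nil]
    omega

theorem length_encM (n : ℕ) (R : List (List Bool)) (h : ∀ r ∈ R, r.length = n) :
    (encM R).length = R.length * (2 * n + 1) := by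
  induction R with
  | nil => simp [encM]
  | cons r R ih =>
    have h1 : encM (r :: R) = ((r.flatMap fun b => [true, b]) ++ [false]) ++ encM R := by
      unfold encM
      rw [List.flatMap_cons]
    rw [h1, List.length_append, List.length_append, length_row,
      ih fun r hr => h r (List.mem_cons_of_mem _ hr), h r List.mem_cons_self, List.length_cons,
      List.length_cons, List.length_nil]
    ring

theorem sz_enc_le {n : ℕ} (G : SimpleGraph (Fin n)) (l : List (Finset (Fin n))) :
    sz (encM (matG G ++ l.map matS)) ≤ 100 * (n + l.length + 1) ^ 2 := by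
  classical
  refine (sz_bools _).trans ?_
  rw [length_encM n]
  · rw [List.length_append, length_matG, List.length_map]
    nlinarith
  · intro r hr
    rw [List.mem_append] at hr
    rcases hr with hr | hr
    · unfold matG at hr
      rw [List.mem_map] at hr
      obtain ⟨i, -, rfl⟩ := hr
      rw [List.length_map, List.length_finRange]
    · rw [List.mem_map] at hr
      obtain ⟨T, -, rfl⟩ := hr
      exact length_matS T

end Pool.Agent.CDom.Prog
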