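import Mathlib
import Pool.Agent.Lib.PolyTime.Lib
import Pool.Agent.CDom.Prog
import Pool.Agent.CDom.PT1

/-!
# MODULE CDom/PT2  (MP_6e88d0_lc)

`big`, `heavy`, `picks`, `pstp`, `prun`, `leaf`, `dec`, `excl`, `next`, `cands` are
polynomial-time.

Proofs: closure lemmas.  `prun`: `PolyTime.foldl_add` over `List.range I.1.1`: each step changes the
size of the state by at most a polynomial in the size of `I` (one vertex is added, all vertices
in `picks` are `< I.1.1`: the head of `picks I s` has size at most the size of a pair with a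
number `≤ I.1.1`; `headD` of the empty list is `(false, 0)`).  Note that the parameter must contain
`I`, `P`, `Y0`.  `excl`: same (`u :: Y` with `u < I.1.1`).  `cands`: `PolyTime.iterate`; every list
in the process has at most `max pad 1` members, each a list of length `≤ d` of numbers `≤ n`, so its
size is polynomial in `n + d + pad` (use `sz_le_of_length`).
-/

set_option autoImplicit false

namespace Pool.Agent.CDom.Prog

open Pool.Agent.Lib.PT

variable {α : Type*} [Enc α]

theorem pt_big {g : α → Gr} {t : α → ℕ} {X Y : α → List ℕ} {u : α → ℕ} (hg : PolyTime g)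
    (ht : PolyTime t) (hX : PolyTime X) (hY : PolyTime Y) (hu : PolyTime u) :
    PolyTime (fun a => big (g a) (t a) (X a) (Y a) (u a)) :=
  ((pt_mem hu hX).not.and (pt_mem hu hY).not).and
    (((pt_kk hg (hu.cons hX)).mul ((PolyTime.const 2).mul ht)).le
      ((pt_kk hg hX).mul (((PolyTime.const 2).mul ht).pred)))

theorem pt_heavy {L : α → List (List ℕ)} {m : α → ℕ} {X Y : α → List ℕ} {u : α → ℕ}
    (hL : PolyTime L) (hm : PolyTime m) (hX : PolyTime X) (hY : PolyTime Y) (hu : PolyTime u) :
    PolyTime (fun a => heavy (L a) (m a) (X a) (Y a) (u a)) :=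
  ((pt_mem hu hX).not.and (pt_mem hu hY).not).and
    ((pt_lY hL hY).length.le (hm.mul
      ((pt_lY hL hY).filter (f := fun a T => mem (u a) T)
        (pt_mem (hu.comp PolyTime.id.fst) PolyTime.id.snd)).length))

theorem pt_picks {I : α → Inp} {s : α → List ℕ × List ℕ} (hI : PolyTime I) (hs : PolyTime s) :
    PolyTime (fun a => picks (I a) (s a)) := by
  have hn : PolyTime (fun a => (I a).1.1) := hI.fst.fst
  have h1 : PolyTime (fun a => ((List.range (I a).1.1).filter
      (big (I a).1 (I a).2.2.1.1 (s a).1 (s a).2)).map fun u => (true, u)) :=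
    (hn.range.filter (f := fun a u => big (I a).1 (I a).2.2.1.1 (s a).1 (s a).2 u)
      (pt_big (hI.fst.comp PolyTime.id.fst) (hI.snd.snd.fst.fst.comp PolyTime.id.fst)
        (hs.fst.comp PolyTime.id.fst) (hs.snd.comp PolyTime.id.fst) PolyTime.id.snd)).map
      (f := fun _ u => (true, u)) ((PolyTime.const true).pair PolyTime.id.snd)
  have h2 : PolyTime (fun a => ((List.range (I a).1.1).filter
      (heavy (I a).2.1 (I a).2.2.1.2 (s a).1 (s a).2)).map fun u => (false, u)) :=
    (hn.range.filter (f := fun a u => heavy (I a).2.1 (I a).2.2.1.2 (s a).1 (s a).2 u)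
      (pt_heavy (hI.snd.fst.comp PolyTime.id.fst) (hI.snd.snd.fst.snd.comp PolyTime.id.fst)
        (hs.fst.comp PolyTime.id.fst) (hs.snd.comp PolyTime.id.fst) PolyTime.id.snd)).map
      (f := fun _ u => (false, u)) ((PolyTime.const false).pair PolyTime.id.snd)
  exact ((((PolyTime.const 2).mul hI.snd.snd.fst.fst).le (pt_kk hI.fst hs.fst)).and
    (pt_lY hI.snd.fst hs.snd).isEmpty.not).cond (h1.append h2) (PolyTime.const [])

theorem pt_pstp {I : α → Inp} {f : α → Bool} {s : α → List ℕ × List ℕ} (hI : PolyTime I)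
    (hf : PolyTime f) (hs : PolyTime s) : PolyTime (fun a => pstp (I a) (f a) (s a)) := by
  have hp := pt_picks hI hs
  have hh : PolyTime (fun a => (picks (I a) (s a)).headD (false, 0)) :=
    hp.headD (PolyTime.const (false, 0))
  exact hp.isEmpty.cond hs ((hf.beqBool hh.fst).cond ((hh.snd.cons hs.fst).pair hs.snd)
    (hs.fst.pair (hh.snd.cons hs.snd)))

namespace PT2Aux

lemma picks_lt {I : Inp} {s : List ℕ × List ℕ} {p : Bool × ℕ} (h : p ∈ picks I s) :
    p.2 < I.1.1 := by
  unfold picks at h
  rcases hc : (decide (2 * I.2.2.1.1 ≤ kk I.1 s.1) && !(lY I.2.1 s.2).isEmpty) with _ | _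
  · rw [hc] at h
    simp at h
  · rw [hc, cond_true, List.mem_append, List.mem_map, List.mem_map] at h
    rcases h with ⟨u, hu, rfl⟩ | ⟨u, hu, rfl⟩
    · exact List.mem_range.1 (List.mem_of_mem_filter hu)
    · exact List.mem_range.1 (List.mem_of_mem_filter hu)

lemma headD_lt {I : Inp} {s : List ℕ × List ℕ} (h : picks I s ≠ []) :
    ((picks I s).headD (false, 0)).2 < I.1.1 := by
  apply picks_lt (s := s)
  rcases hp : picks I s with _ | ⟨p, l⟩
  · exact absurd hp h
  · rw [List.headD_cons]
    exact List.mem_cons_self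

lemma sz_pstp (I : Inp) (f : Bool) (s : List ℕ × List ℕ) :
    sz (pstp I f s) ≤ sz s + (2 * I.1.1 + 2) := by
  obtain ⟨s1, s2⟩ := s
  unfold pstp
  rcases h1 : (picks I (s1, s2)).isEmpty with _ | _
  · have h2 : picks I (s1, s2) ≠ [] := by
      intro h
      rw [h] at h1
      simp at h1
    have h3 := headD_lt h2
    rw [cond_false]
    rcases (f == ((picks I (s1, s2)).headD (false, 0)).1) with _ | _
    · rw [cond_false]
      simp only [sz_pair, sz_list_cons, sz_nat]
      omega
    · rw [cond_true]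
      simp only [sz_pair, sz_list_cons, sz_nat]
      omega
  · rw [cond_true]
    omega

lemma PB_nat {f : α → ℕ} (hf : PolyTime f) : PB f :=
  hf.size_bdd.mono fun a => by
    rw [sz_nat]
    omega

end PT2Aux

open PT2Aux

theorem pt_prun {I : α → Inp} {Y0 P : α → List ℕ} (hI : PolyTime I) (hY : PolyTime Y0)
    (hP : PolyTime P) : PolyTime (fun a => prun (I a) (Y0 a) (P a)) := by
  refine PolyTime.foldl_add (l := fun a => List.range (I a).1.1) (b := fun a => ([], Y0 a))
    (f := fun a s k => pstp (I a) (mem k (P a)) s) hI.fst.fst.range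
    ((PolyTime.const []).pair hY) ?_ ?_
  · exact pt_pstp (hI.comp PolyTime.id.fst) (pt_mem PolyTime.id.snd.snd (hP.comp PolyTime.id.fst))
      PolyTime.id.snd.fst
  · obtain ⟨p, hp⟩ := ((PB.const 2).mul (PB_nat hI.fst.fst)).add (PB.const 2)
    exact ⟨p, fun a x y _ => (sz_pstp _ _ _).trans (Nat.add_le_add_left (hp a) _)⟩

theorem pt_leaf {I : α → Inp} {s : α → List ℕ × List ℕ} (hI : PolyTime I) (hs : PolyTime s) :
    PolyTime (fun a => leaf (I a) (s a)) := by
  have hX : PolyTime (fun q : α × List ℕ => (s q.1).1 ++ q.2.filter fun v =>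
      decide (v < (I q.1).1.1) && !mem v (s q.1).2) :=
    (hs.fst.comp PolyTime.id.fst).append (PolyTime.id.snd.filter
      (f := fun q v => decide (v < (I q.1).1.1) && !mem v (s q.1).2)
      ((PolyTime.id.snd.lt (hI.fst.fst.comp PolyTime.id.fst.fst)).and
        (pt_mem PolyTime.id.snd (hs.snd.comp PolyTime.id.fst.fst)).not))
  exact (pt_cds hI.fst (pt_compl hI.fst.fst hs.snd)).and ((pt_noSub hI.snd.fst hs.fst).and
    ((pt_lY hI.snd.fst hs.snd).isEmpty.or
      ((((PolyTime.const 2).mul hI.snd.snd.fst.fst).le (pt_kk hI.fst hs.fst)).or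
        (hI.snd.snd.snd.any (f := fun a Z =>
          cds (I a).1 ((s a).1 ++ Z.filter fun v => decide (v < (I a).1.1) && !mem v (s a).2) &&
          noSub (I a).2.1 ((s a).1 ++ Z.filter fun v =>
            decide (v < (I a).1.1) && !mem v (s a).2))
          ((pt_cds (hI.fst.comp PolyTime.id.fst) hX).and
            (pt_noSub (hI.snd.fst.comp PolyTime.id.fst) hX))))))

theorem pt_dec {I : α → Inp} {Y0 : α → List ℕ} (hI : PolyTime I) (hY : PolyTime Y0) :
    PolyTime (fun a => dec (I a) (Y0 a)) :=
  hI.snd.snd.snd.any (f := fun a P => leaf (I a) (prun (I a) (Y0 a) P))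
    (pt_leaf (hI.comp PolyTime.id.fst)
      (pt_prun (hI.comp PolyTime.id.fst) (hY.comp PolyTime.id.fst) PolyTime.id.snd))

theorem pt_excl {I : α → Inp} (hI : PolyTime I) : PolyTime (fun a => excl (I a)) := by
  refine PolyTime.foldl_add (l := fun a => List.range (I a).1.1) (b := fun _ => [])
    (f := fun a Y u => bif dec (I a) (u :: Y) then u :: Y else Y) hI.fst.fst.range
    (PolyTime.const []) ?_ ?_
  · have h1 : PolyTime (fun q : α × List ℕ × ℕ => q.2.2 :: q.2.1) :=
      PolyTime.id.snd.snd.cons PolyTime.id.snd.fst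
    exact (pt_dec (hI.comp PolyTime.id.fst) h1).cond h1 PolyTime.id.snd.fst
  · obtain ⟨p, hp⟩ := ((PB.const 2).mul (PB_nat hI.fst.fst)).add (PB.const 2)
    refine ⟨p, fun a x y hy => ?_⟩
    have h1 : 2 * (I a).1.1 + 2 ≤ p.eval (sz a) := hp a
    have h2 := List.mem_range.1 hy
    rcases dec (I a) (y :: x) with _ | _
    · rw [cond_false]
      omega
    · rw [cond_true, sz_list_cons, sz_nat]
      omega

theorem pt_next : PolyTime (fun I : Inp => next I) :=
  (pt_dec PolyTime.id (PolyTime.const [])).cond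
    ((pt_compl PolyTime.id.fst.fst (pt_excl PolyTime.id)).cons (PolyTime.const []))
    (PolyTime.const [])

namespace PT2Aux

/-- one step of `cands` -/
def stp (n pad : ℕ) (C : List (List ℕ)) : List (List ℕ) :=
  (C.flatMap fun P => (List.range (n + 1)).map fun a => a :: P).take pad

lemma stp_iter (n pad i : ℕ) :
    (∀ P ∈ (stp n pad)^[i] [[]], P.length = i ∧ ∀ x ∈ P, x ≤ n) ∧
      ((stp n pad)^[i] [[]]).length ≤ pad + 1 := by
  induction i with
  | zero =>
    refine ⟨fun P hP => ?_, by simp⟩
    rw [Function.iterate_zero, id_eq, List.mem_singleton] at hP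
    subst hP
    simp
  | succ i ih =>
    rw [Function.iterate_succ_apply']
    refine ⟨fun P hP => ?_, ?_⟩
    · unfold stp at hP
      have h1 := List.mem_of_mem_take hP
      rw [List.mem_flatMap] at h1
      obtain ⟨Q, hQ, hPQ⟩ := h1
      rw [List.mem_map] at hPQ
      obtain ⟨a, ha, rfl⟩ := hPQ
      have h2 := ih.1 Q hQ
      refine ⟨by rw [List.length_cons, h2.1], fun x hx => ?_⟩
      rcases List.mem_cons.1 hx with rfl | hx
      · have := List.mem_range.1 ha
        omega
      · exact h2.2 x hx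
    · unfold stp
      rw [List.length_take]
      exact (min_le_left _ _).trans (Nat.le_succ _)

lemma sz_stp_iter (n pad : ℕ) {i d : ℕ} (hi : i ≤ d) :
    sz ((stp n pad)^[i] [[]]) ≤ (pad + 1) * (d * (2 * n + 1 + 1) + 1 + 1) + 1 := by
  obtain ⟨h1, h2⟩ := stp_iter n pad i
  refine sz_le_of_length h2 fun P hP => ?_
  refine sz_le_of_length ((h1 P hP).1.le.trans hi) fun x hx => ?_
  rw [sz_nat]
  have := (h1 P hP).2 x hx
  omega

end PT2Aux

theorem pt_cands {n d pad : α → ℕ} (hn : PolyTime n) (hd : PolyTime d) (hp : PolyTime pad) :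
    PolyTime (fun a => cands (n a) (d a) (pad a)) := by
  refine PolyTime.iterate (n := d) (b := fun _ => [[]]) (f := fun a C => stp (n a) (pad a) C) hd
    (PolyTime.const [[]]) ?_ ?_
  · refine PolyTime.take (hp.comp PolyTime.id.fst) ?_
    refine PolyTime.flatMap (l := fun q : α × List (List ℕ) => q.2)
      (f := fun q P => (List.range (n q.1 + 1)).map fun a => a :: P) PolyTime.id.snd ?_
    refine PolyTime.map (l := fun q : (α × List (List ℕ)) × List ℕ => List.range (n q.1.1 + 1))
      (f := fun q a => a :: q.2) (hn.comp PolyTime.id.fst.fst).succ.range ?_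
    exact PolyTime.id.snd.cons PolyTime.id.fst.snd
  · obtain ⟨p, hp'⟩ := (((PB_nat hp).add (PB.const 1)).mul (((((PB_nat hd).mul
      ((((PB.const 2).mul (PB_nat hn)).add (PB.const 1)).add (PB.const 1))).add
        (PB.const 1)).add (PB.const 1)))).add (PB.const 1)
    exact ⟨p, fun a i hi => (sz_stp_iter (n a) (pad a) hi).trans (hp' a)⟩

end Pool.Agent.CDom.Prog
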