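import Mathlib
import Pool.Agent.Lib.PolyTime.Lib

/-!
# MODULE CDom/QTime  (MP_6e88d0_lc)

Quasi-polynomial time for programs of the library `Pool.Agent.Lib.PolyTime`.

`qp k s = 2 ^ (k * (Nat.log 2 s + 1) ^ k)`.  `QB M g`: `g a ≤ qp k (M a)` for some `k`.
`QTime M f`: some program computes `f` with cost `≤ qp k (M a)`.

Proofs.
* `qp_mono_left` (`k ≤ k'`), `qp_mono_right` (`s ≤ t`): monotonicity of powers and `Nat.log`.
* `QB.self`: `M a ≤ 2 ^ (Nat.log 2 (M a) + 1)` (`Nat.lt_pow_succ_log_self`).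
* `QB.add`, `QB.mul`: `2^a + 2^b ≤ 2^(a+b+1)`, `2^a * 2^b = 2^(a+b)`, exponents
  `k l^k + k' l^k' + 1 ≤ (k + k' + 1) l^(k+k'+1)` with `l ≥ 1`.
* `QB.pow`: by `QB.mul`; `QB.poly`: induction on the polynomial (`Polynomial.induction_on'`).
* `QB.qp`: if `g a ≤ 2 ^ (k l^k)` then `Nat.log 2 (g a) ≤ k l^k`, so
  `qp k' (g a) ≤ 2 ^ (k' (k l^k + 1)^k')` and `k' (k l^k + 1)^k' ≤ k' (k+1)^k' l^(k k') ≤ K l^K`
  for `K = max (k' (k+1)^k') (k k')` or their sum.
* `QB.trans`: from `QB.qp`.
* `QTime.size`: `Code.size_eval_le`.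
* `qtime_of_polyTime`: cost `≤ p.eval (sz a)`, `QB.poly`.
* `QTime.comp`: the code `Code.comp cg cf`, cost `= cost_f + cost_g (enc (f a)) + 1`,
  `cost_g (enc (f a)) ≤ qp k (sz (f a))`, `QB.qp` with `QTime.size`.
* `QTime.pair`: `Code.pair`.
* `QTime.iterate`: copy of the proof of `PolyTime.iterate` in `Lib/PolyTime/Lib.lean` with `QB M`
  instead of `PB` (same code `Code.comp Code.snd (Code.comp (Code.iter body) (Code.pair cn
  (Code.pair Code.id cb)))`, `body = Code.pair Code.fst cf`); the size of the `i`-th value is at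
  most `qp k (M a)` by hypothesis.
-/

set_option autoImplicit false

namespace Pool.Agent.CDom

open Pool.Agent.Lib.PT

/-- quasi-polynomials -/
def qp (k s : ℕ) : ℕ := 2 ^ (k * (Nat.log 2 s + 1) ^ k)

theorem qp_mono_left {k k' : ℕ} (h : k ≤ k') (s : ℕ) : qp k s ≤ qp k' s := by
  unfold qp
  refine Nat.pow_le_pow_right (by norm_num) (Nat.mul_le_mul h ?_)
  exact Nat.pow_le_pow_right (Nat.succ_pos _) h

theorem qp_mono_right (k : ℕ) {s t : ℕ} (h : s ≤ t) : qp k s ≤ qp k t := by
  unfold qp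
  refine Nat.pow_le_pow_right (by norm_num) (Nat.mul_le_mul_left _ ?_)
  exact Nat.pow_le_pow_left (Nat.succ_le_succ (Nat.log_mono_right h)) k

/-- quasi-polynomially bounded in `M` -/
def QB {α : Type*} (M g : α → ℕ) : Prop := ∃ k, ∀ a, g a ≤ qp k (M a)

section QB

variable {α : Type*} {M N g h : α → ℕ}

theorem QB.mono (hg : QB M g) (hh : ∀ a, h a ≤ g a) : QB M h := by
  obtain ⟨k, hk⟩ := hg
  exact ⟨k, fun a => (hh a).trans (hk a)⟩

theorem QB.const (c : ℕ) : QB M (fun _ => c) := by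
  refine ⟨c, fun a => ?_⟩
  unfold qp
  have h1 : c < 2 ^ c := Nat.lt_two_pow_self
  have h2 : c ≤ c * (Nat.log 2 (M a) + 1) ^ c :=
    Nat.le_mul_of_pos_right _ (Nat.pow_pos (Nat.succ_pos _))
  exact h1.le.trans (Nat.pow_le_pow_right (by norm_num) h2)

theorem QB.self : QB M M := by
  refine ⟨1, fun a => ?_⟩
  unfold qp
  rw [one_mul, pow_one]
  exact (Nat.lt_pow_succ_log_self (by norm_num) _).le

theorem expo_add (k k' l : ℕ) (hl : 1 ≤ l) :
    k * l ^ k + k' * l ^ k' + 1 ≤ (k + k' + 1) * l ^ (k + k' + 1) := by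
  have h1 : l ^ k ≤ l ^ (k + k' + 1) := Nat.pow_le_pow_right hl (by omega)
  have h2 : l ^ k' ≤ l ^ (k + k' + 1) := Nat.pow_le_pow_right hl (by omega)
  have h3 : 1 ≤ l ^ (k + k' + 1) := Nat.one_le_pow _ _ hl
  calc k * l ^ k + k' * l ^ k' + 1
      ≤ k * l ^ (k + k' + 1) + k' * l ^ (k + k' + 1) + l ^ (k + k' + 1) :=
        add_le_add (add_le_add (Nat.mul_le_mul_left _ h1) (Nat.mul_le_mul_left _ h2)) h3
    _ = (k + k' + 1) * l ^ (k + k' + 1) := by ring

theorem QB.add (hg : QB M g) (hh : QB M h) : QB M (fun a => g a + h a) := by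
  obtain ⟨k, hk⟩ := hg
  obtain ⟨k', hk'⟩ := hh
  refine ⟨k + k' + 1, fun a => ?_⟩
  refine (add_le_add (hk a) (hk' a)).trans ?_
  unfold qp
  set l := Nat.log 2 (M a) + 1 with hl
  have h1 : 2 ^ (k * l ^ k) + 2 ^ (k' * l ^ k') ≤ 2 ^ (k * l ^ k + k' * l ^ k' + 1) := by
    rw [pow_succ, pow_add]
    have h3 : 1 ≤ 2 ^ (k * l ^ k) := Nat.one_le_two_pow
    have h4 : 1 ≤ 2 ^ (k' * l ^ k') := Nat.one_le_two_pow
    nlinarith
  exact h1.trans (Nat.pow_le_pow_right (by norm_num) (expo_add k k' l (by omega)))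

theorem QB.mul (hg : QB M g) (hh : QB M h) : QB M (fun a => g a * h a) := by
  obtain ⟨k, hk⟩ := hg
  obtain ⟨k', hk'⟩ := hh
  refine ⟨k + k' + 1, fun a => ?_⟩
  refine (Nat.mul_le_mul (hk a) (hk' a)).trans ?_
  unfold qp
  rw [← pow_add]
  refine Nat.pow_le_pow_right (by norm_num) ?_
  have := expo_add k k' (Nat.log 2 (M a) + 1) (by omega)
  omega

theorem QB.poly (p : Polynomial ℕ) (hg : QB M g) : QB M (fun a => p.eval (g a)) := by
  induction p using Polynomial.induction_on' with
  | add p q hp hq => exact (hp.add hq).mono fun a => by rw [Polynomial.eval_add]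
  | monomial n c =>
    have h : QB M (fun a => g a ^ n) := by
      induction n with
      | zero => exact (QB.const 1).mono fun a => by rw [pow_zero]
      | succ n ih => exact (ih.mul hg).mono fun a => by rw [pow_succ]
    exact ((QB.const c).mul h).mono fun a => by rw [Polynomial.eval_monomial]

theorem QB.qp (k : ℕ) (hg : QB M g) : QB M (fun a => Pool.Agent.CDom.qp k (g a)) := by
  obtain ⟨k', hk'⟩ := hg
  refine ⟨k * (k' + 1) ^ k + k' * k, fun a => ?_⟩
  refine (qp_mono_right k (hk' a)).trans ?_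
  unfold Pool.Agent.CDom.qp
  rw [Nat.log_pow (by norm_num)]
  refine Nat.pow_le_pow_right (by norm_num) ?_
  set l := Nat.log 2 (M a) + 1 with hl
  have hl1 : 1 ≤ l := by omega
  have h1 : k' * l ^ k' + 1 ≤ (k' + 1) * l ^ k' := by
    have : 1 ≤ l ^ k' := Nat.one_le_pow _ _ hl1
    nlinarith
  have h2 : (k' * l ^ k' + 1) ^ k ≤ (k' + 1) ^ k * l ^ (k' * k) := by
    refine (Nat.pow_le_pow_left h1 k).trans ?_
    rw [mul_pow, ← pow_mul]
  have h3 : l ^ (k' * k) ≤ l ^ (k * (k' + 1) ^ k + k' * k) :=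
    Nat.pow_le_pow_right hl1 (by omega)
  calc k * (k' * l ^ k' + 1) ^ k ≤ k * ((k' + 1) ^ k * l ^ (k' * k)) :=
        Nat.mul_le_mul_left _ h2
    _ = (k * (k' + 1) ^ k) * l ^ (k' * k) := by ring
    _ ≤ (k * (k' + 1) ^ k + k' * k) * l ^ (k * (k' + 1) ^ k + k' * k) :=
        Nat.mul_le_mul (by omega) h3

theorem QB.trans (hN : QB M N) (hg : QB N g) : QB M g := by
  obtain ⟨k, hk⟩ := hg
  exact (QB.qp k hN).mono hk

end QB

/-- computable by a program whose cost is quasi-polynomially bounded in `M` -/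
def QTime {α β : Type*} [Enc α] [Enc β] (M : α → ℕ) (f : α → β) : Prop :=
  ∃ c : Code, (∀ a, c.eval (enc a) = enc (f a)) ∧ QB M (fun a => c.cost (enc a))

section QTime

variable {α β γ : Type*} [Enc α] [Enc β] [Enc γ] {M : α → ℕ}

theorem QTime.size {f : α → β} (hM : QB M (fun a => sz a)) (hf : QTime M f) :
    QB M (fun a => sz (f a)) := by
  obtain ⟨c, hc, hp⟩ := hf
  refine (hM.add hp).mono fun a => ?_
  have := Code.size_eval_le c (enc a)
  rw [hc] at this
  exact this

theorem qtime_of_polyTime {f : α → β} (hM : QB M (fun a => sz a)) (hf : PolyTime f) :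
    QTime M f := by
  obtain ⟨c, hc, p, hp⟩ := hf
  exact ⟨c, hc, (QB.poly p hM).mono hp⟩

theorem QTime.mono {N : α → ℕ} {f : α → β} (hN : QB M N) (hf : QTime N f) : QTime M f := by
  obtain ⟨c, hc, hp⟩ := hf
  exact ⟨c, hc, hN.trans hp⟩

theorem QTime.congr {f g : α → β} (hf : QTime M f) (h : ∀ a, f a = g a) : QTime M g := by
  have : f = g := funext h
  rwa [← this]

omit [Enc α] [Enc β] in
/-- a bound for the argument -/
theorem QB.arg {N : β → ℕ} {g : β → ℕ} {f : α → β} (hg : QB N g)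
    (hN : QB M (fun a => N (f a))) : QB M (fun a => g (f a)) := by
  obtain ⟨k, hk⟩ := hg
  exact (QB.qp k hN).mono fun a => hk (f a)

/-- composition where `g` has its own measure -/
theorem QTime.comp' {g : β → γ} {f : α → β} {N : β → ℕ} (hM : QB M (fun a => sz a))
    (hg : QTime N g) (hf : QTime M f) (hN : QB M (fun a => N (f a))) :
    QTime M (fun a => g (f a)) := by
  obtain ⟨cg, hcg, hpg⟩ := hg
  obtain ⟨cf, hcf, hpf⟩ := hf
  refine ⟨Code.comp cg cf, fun a => by rw [Code.eval_comp, hcf, hcg], ?_⟩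
  have h2 : QB M (fun a : α => cg.cost (enc (f a))) :=
    QB.arg (g := fun b : β => cg.cost (enc b)) hpg hN
  exact ((hpf.add h2).add (QB.const 1)).mono fun a => by simp [Code.cost, hcf]

theorem QTime.comp {g : β → γ} {f : α → β} (hM : QB M (fun a => sz a))
    (hg : QTime (fun b : β => sz b) g) (hf : QTime M f) : QTime M (fun a => g (f a)) :=
  QTime.comp' hM hg hf (hf.size hM)

theorem QTime.pair {f : α → β} {g : α → γ} (hM : QB M (fun a => sz a)) (hf : QTime M f)
    (hg : QTime M g) : QTime M (fun a => (f a, g a)) := by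
  have hs1 := hf.size hM
  have hs2 := hg.size hM
  obtain ⟨cf, hcf, h1⟩ := hf
  obtain ⟨cg, hcg, h2⟩ := hg
  refine ⟨Code.pair cf cg, fun a => by rw [Code.eval_pair, hcf, hcg]; rfl, ?_⟩
  exact (((((h1.add h2).add hM).add hs1).add hs2).add (QB.const 1)).mono fun a => by
    simp [Code.cost, hcf, hcg, sz]

theorem QTime.iterate {n : α → ℕ} {b : α → β} {f : α → β → β} (hM : QB M (fun a => sz a))
    (hn : QTime M n) (hb : QTime M b)
    (hf : QTime (fun q : α × β => sz q) (fun q : α × β => f q.1 q.2))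
    (hs : ∃ k, ∀ a i, i ≤ n a → sz ((f a)^[i] (b a)) ≤ qp k (M a)) :
    QTime M (fun a => (f a)^[n a] (b a)) := by
  have hsn := hn.size hM
  have hsb := hb.size hM
  obtain ⟨cn, hcn, h1⟩ := hn
  obtain ⟨cb, hcb, h2⟩ := hb
  obtain ⟨cf, hcf, kf, hpf⟩ := hf
  obtain ⟨k, hp⟩ := hs
  set body := Code.pair Code.fst cf with hbody
  have hbe : ∀ a (x : β), body.eval (T.cons (enc a) (enc x)) = T.cons (enc a) (enc (f a x)) := by
    intro a x
    rw [hbody, Code.eval_pair, Code.eval_fst]
    have := hcf (a, x)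
    rw [enc_pair] at this
    rw [this]
    rfl
  have hit : ∀ a i, (body.eval)^[i] (T.cons (enc a) (enc (b a))) =
      T.cons (enc a) (enc ((f a)^[i] (b a))) := by
    intro a i
    induction i with
    | zero => rfl
    | succ i ih => rw [Function.iterate_succ_apply', ih, hbe, Function.iterate_succ_apply']
  refine ⟨Code.comp Code.snd (Code.comp (Code.iter body) (Code.pair cn (Code.pair Code.id cb))),
    fun a => ?_, ?_⟩
  · simp only [Code.eval_comp, Code.eval_pair, Code.eval_id, Code.eval_snd, hcn, hcb,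
      Code.eval_iter_cons, len_enc_nat, hit]
    rfl
  · -- bound for one step
    let P : α → ℕ := fun a => Pool.Agent.CDom.qp k (M a)
    have hPB : QB M P := ⟨k, fun a => le_rfl⟩
    let B : α → ℕ := fun a => Pool.Agent.CDom.qp kf (sz a + P a + 1) + 20 * sz a +
      20 * P a + sz (n a) + 20
    have hB : QB M B :=
      ((((QB.qp kf ((hM.add hPB).add (QB.const 1))).add
        ((QB.const 20).mul hM)).add ((QB.const 20).mul hPB)).add hsn).add (QB.const 20)
    have hnB : QB M n := hsn.mono fun a => by rw [sz_nat]; omega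
    have hstep : ∀ a i, i < n a → Code.cost body (T.cons (enc a) (enc ((f a)^[i] (b a)))) +
        (T.cons (enc a) (enc ((f a)^[i] (b a)))).size +
        (T.cons (enc a) (enc ((f a)^[i + 1] (b a)))).size + (enc (n a)).size + 1 ≤ B a := by
      intro a i hi
      have hc1 := hpf (a, (f a)^[i] (b a))
      have hs1 := hp a i hi.le
      have hs2 := hp a (i + 1) hi
      have hc2 : cf.cost (T.cons (enc a) (enc ((f a)^[i] (b a)))) ≤
          Pool.Agent.CDom.qp kf (sz a + P a + 1) := by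
        refine hc1.trans (qp_mono_right kf ?_)
        show sz (a, (f a)^[i] (b a)) ≤ _
        rw [sz_pair]
        exact Nat.add_le_add_right (Nat.add_le_add_left hs1 _) _
      have hev : cf.eval (T.cons (enc a) (enc ((f a)^[i] (b a)))) = enc ((f a)^[i + 1] (b a)) := by
        have := hcf (a, (f a)^[i] (b a))
        rw [enc_pair] at this
        rw [this, Function.iterate_succ_apply']
      have e0 : (enc a).size = sz a := rfl
      have e1 : (enc ((f a)^[i] (b a))).size = sz ((f a)^[i] (b a)) := rfl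
      have e2 : (enc ((f a)^[i+1] (b a))).size = sz ((f a)^[i+1] (b a)) := rfl
      have e3 : (enc (n a)).size = sz (n a) := rfl
      simp only [hbody, Code.cost, Code.eval_fst, T.fst_cons, hev, T.size_cons, e0, e1, e2, e3, B,
        P] at hc2 ⊢
      omega
    have hsum : ∀ a, ∑ i ∈ Finset.range (n a),
        (Code.cost body (T.cons (enc a) (enc ((f a)^[i] (b a)))) +
        (T.cons (enc a) (enc ((f a)^[i] (b a)))).size +
        (T.cons (enc a) (enc ((f a)^[i + 1] (b a)))).size + (enc (n a)).size + 1) ≤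
          n a * B a := by
      intro a
      refine (Finset.sum_le_sum (fun i hi => hstep a i (Finset.mem_range.1 hi))).trans ?_
      rw [Finset.sum_const, Finset.card_range, smul_eq_mul]
    have htot : QB M (fun a : α => cn.cost (enc a) + cb.cost (enc a) + 20 * sz a + 20 * sz (n a) +
        20 * sz (b a) + 20 * P a + n a * B a + 30) :=
      ((((((h1.add h2).add ((QB.const 20).mul hM)).add ((QB.const 20).mul hsn)).add
        ((QB.const 20).mul hsb)).add ((QB.const 20).mul hPB)).add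
        (hnB.mul hB)).add (QB.const 30)
    refine htot.mono fun a => ?_
    have e0 : (enc a).size = sz a := rfl
    have e1 : (enc (b a)).size = sz (b a) := rfl
    have e2 : (enc ((f a)^[n a] (b a))).size = sz ((f a)^[n a] (b a)) := rfl
    have e3 : (enc (n a)).size = sz (n a) := rfl
    have hs1 : sz ((f a)^[n a] (b a)) ≤ P a := hp a (n a) le_rfl
    have hsum' := hsum a
    simp only [Code.cost, Code.eval_comp, Code.eval_pair, Code.eval_id, hcn, hcb,
      Code.eval_iter_cons, len_enc_nat, hit, T.size_cons, e0, e1, e2, e3] at hsum' ⊢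
    omega

end QTime

end Pool.Agent.CDom
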