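import Mathlib
import Pool.Agent.CDom.Defs
import Pool.Agent.CDom.Basic
import Pool.Agent.CDom.Meas

/-!
# MODULE CDom/Big  (MP_6e88d0_lc)

If few vertices complete `X` to a connected dominating set, one of them is big.

Proof of `exists_big`.  Let `T' = T \ X` (nonempty, at most `t` elements, `X ∪ T'` is a CDS).
Every item `v` of `X` can be assigned to some `u ∈ T'`:
* if `v` is not dominated by `X`: `X ∪ T` dominates `v`, so either `v ∈ T'` (take `u = v`) or some
  `u ∈ X ∪ T` is adjacent to `v`; `u ∉ X`, so `u ∈ T'`;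
* if `v ∈ X`: choose `t0 ∈ T'`; `Conn G (X ∪ T) v t0`; follow the path from `v`; the first vertex
  `u` which is not in `{w | Conn G X v w}` is not in `X` (else it would be reachable in `X`), so it
  is in `T'`, and its predecessor `w` satisfies `Conn G X v w`, `G.Adj w u`.
  (Formally: `Relation.ReflTransGen.head_induction_on` / tail induction: either `Conn G X v b` or
  there are `w, u` with `Conn G X v w`, `G.Adj w u`, `u ∈ T \ X`.)
By the pigeonhole principle (`Finset.exists_le_card_fiber_of_mul_le_card_of_maps_to` or a sum over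
fibres) some `u ∈ T'` has a set `A` of assigned items with `KK G X ≤ t * A.card`.
Then `R = insert u (items G X \ A)` represents `insert u X` (`KK_le_of_rep`): a vertex not dominated
by `insert u X` is not dominated by `X`, so an item, and it is not in `A` (the undominated elements
of `A` are equal or adjacent to `u`).  A vertex `x ∈ X` has an item `r`; if `r ∉ A` fine; if `r ∈ A`
then (as `r ∈ X`) `r` is connected in `insert u X` to `u`.  The vertex `u` represents itself.
Hence `KK G (insert u X) ≤ KK G X - A.card + 1`, i.e. `A.card ≤ KK G X + 1 - KK G (insert u X)`.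

Proof of `exists_big'`: with `t = τ`, `K = KK G X`, `K' = KK G (insert u X)`:
`K ≤ τ (K + 1 - K')`, `K' ≤ K` (`KK_anti`), so `2 τ K' ≤ 2 τ K + 2 τ - 2 K ≤ 2 τ K - K`
because `2 τ ≤ K`.
-/

set_option autoImplicit false

namespace Pool.Agent.CDom

open Finset

variable {V : Type*} [Fintype V] [LinearOrder V] {G : SimpleGraph V}

namespace BigAux

/-- the item `v` of `X` can be assigned to `u` -/
def As (G : SimpleGraph V) (X : Finset V) (v u : V) : Prop :=
  (¬ Dom G X v ∧ (v = u ∨ G.Adj u v)) ∨ (v ∈ X ∧ ∃ w, Conn G X v w ∧ G.Adj w u)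

lemma conn_or {X T : Finset V} {v b : V} (h : Conn G (X ∪ T) v b) :
    Conn G X v b ∨ ∃ w u, Conn G X v w ∧ G.Adj w u ∧ u ∈ T \ X := by
  induction h with
  | refl => exact Or.inl Relation.ReflTransGen.refl
  | @tail b c _ hbc ih =>
    rcases ih with ih | ih
    · by_cases hc : c ∈ X
      · exact Or.inl (ih.tail ⟨hbc.1, hc⟩)
      · refine Or.inr ⟨b, c, ih, hbc.1, ?_⟩
        rw [mem_sdiff]
        exact ⟨(mem_union.1 hbc.2).resolve_left hc, hc⟩
    · exact Or.inr ih

lemma exists_as {X T : Finset V} (h : CDS G (X ∪ T)) (hT : (T \ X).Nonempty) {v : V}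
    (hv : v ∈ items G X) : ∃ u ∈ T \ X, As G X v u := by
  rcases mem_items.1 hv with h1 | ⟨h1, -⟩
  · rcases h.2.1 v with h2 | ⟨u, h2, h3⟩
    · have h4 : v ∉ X := fun h5 => h1 (Or.inl h5)
      exact ⟨v, mem_sdiff.2 ⟨(mem_union.1 h2).resolve_left h4, h4⟩, Or.inl ⟨h1, Or.inl rfl⟩⟩
    · have h4 : u ∉ X := fun h5 => h1 (Or.inr ⟨u, h5, h3⟩)
      exact ⟨u, mem_sdiff.2 ⟨(mem_union.1 h2).resolve_left h4, h4⟩, Or.inl ⟨h1, Or.inr h3⟩⟩
  · obtain ⟨t0, ht0⟩ := hT
    rw [mem_sdiff] at ht0
    have h2 := h.2.2 v (mem_union_left _ h1) t0 (mem_union_right _ ht0.1)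
    rcases conn_or h2 with h3 | ⟨w, u, h3, h4, h5⟩
    · exact absurd (conn_mem h1 h3) ht0.2
    · exact ⟨u, h5, Or.inr ⟨h1, w, h3, h4⟩⟩

lemma KK_insert {X A : Finset V} {u : V} (hA : A ⊆ items G X) (hAs : ∀ v ∈ A, As G X v u) :
    A.card + KK G (insert u X) ≤ KK G X + 1 := by
  have h1 : KK G (insert u X) ≤ (insert u (items G X \ A)).card := by
    refine KK_le_of_rep (fun v hv => ?_) (fun x hx => ?_)
    · rw [mem_insert, mem_sdiff]
      have h2 : ¬ Dom G X v := fun h3 => hv (h3.mono (subset_insert u X))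
      refine Or.inr ⟨mem_items_of_not_dom h2, fun hvA => ?_⟩
      rcases hAs v hvA with ⟨_, rfl | h4⟩ | ⟨h3, _⟩
      · exact hv (Or.inl (mem_insert_self _ _))
      · exact hv (Or.inr ⟨u, mem_insert_self _ _, h4⟩)
      · exact h2 (Or.inl h3)
    · rcases mem_insert.1 hx with rfl | hx
      · exact ⟨x, mem_insert_self _ _, mem_insert_self _ _, Relation.ReflTransGen.refl⟩
      · obtain ⟨r, hr, hrX, hxr⟩ := exists_item (G := G) hx
        by_cases hrA : r ∈ A
        · rcases hAs r hrA with ⟨h3, _⟩ | ⟨_, w, h3, h4⟩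
          · exact absurd (Or.inl hrX) h3
          · refine ⟨u, mem_insert_self _ _, mem_insert_self _ _, ?_⟩
            have h5 : Conn G (insert u X) x w :=
              (conn_mono (subset_insert u X) hxr).trans (conn_mono (subset_insert u X) h3)
            exact h5.tail ⟨h4, mem_insert_self _ _⟩
        · exact ⟨r, mem_insert_of_mem (mem_sdiff.2 ⟨hr, hrA⟩), mem_insert_of_mem hrX,
            conn_mono (subset_insert u X) hxr⟩
  have h2 := card_insert_le u (items G X \ A)
  have h3 := card_sdiff_add_card_eq_card hA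
  unfold KK at h1 ⊢
  omega

end BigAux

open BigAux in
theorem exists_big (X T : Finset V) (h : CDS G (X ∪ T)) (hT : ¬ T ⊆ X) (t : ℕ)
    (ht : (T \ X).card ≤ t) :
    ∃ u ∈ T \ X, KK G X ≤ t * (KK G X + 1 - KK G (insert u X)) := by
  classical
  have hne : (T \ X).Nonempty := by
    rw [Finset.nonempty_iff_ne_empty]
    intro h1
    exact hT (sdiff_eq_empty_iff_subset.1 h1)
  have h1 : ∀ v, ∃ u, v ∈ items G X → u ∈ T \ X ∧ As G X v u := by
    intro v
    by_cases hv : v ∈ items G X
    · obtain ⟨u, hu, hv'⟩ := exists_as h hne hv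
      exact ⟨u, fun _ => ⟨hu, hv'⟩⟩
    · exact ⟨v, fun h2 => absurd h2 hv⟩
  choose f hf using h1
  obtain ⟨u, hu, hmax⟩ := exists_max_image (T \ X)
    (fun u => ((items G X).filter fun v => f v = u).card) hne
  refine ⟨u, hu, ?_⟩
  have h2 : (items G X).card = ∑ u' ∈ T \ X, ((items G X).filter fun v => f v = u').card :=
    card_eq_sum_card_fiberwise fun v hv => (hf v hv).1
  have h3 : (items G X).card ≤ (T \ X).card * ((items G X).filter fun v => f v = u).card := by
    rw [h2, ← smul_eq_mul]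
    exact sum_le_card_nsmul _ _ _ hmax
  have h4 := KK_insert (G := G) (X := X) (A := (items G X).filter fun v => f v = u) (u := u)
    (filter_subset _ _) (by
      intro v hv
      rw [mem_filter] at hv
      have := (hf v hv.1).2
      rwa [hv.2] at this)
  calc KK G X ≤ (T \ X).card * ((items G X).filter fun v => f v = u).card := h3
    _ ≤ t * ((items G X).filter fun v => f v = u).card := Nat.mul_le_mul_right _ ht
    _ ≤ t * (KK G X + 1 - KK G (insert u X)) := Nat.mul_le_mul_left _ (by omega)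

theorem exists_big' (X T : Finset V) (h : CDS G (X ∪ T)) (hT : ¬ T ⊆ X) (t : ℕ)
    (ht : (T \ X).card ≤ t) (hK : 2 * t ≤ KK G X) :
    ∃ u ∈ T \ X, KK G (insert u X) * (2 * t) ≤ KK G X * (2 * t - 1) := by
  obtain ⟨u, hu, h1⟩ := exists_big X T h hT t ht
  refine ⟨u, hu, ?_⟩
  have h2 : KK G (insert u X) ≤ KK G X := KK_anti (subset_insert u X)
  obtain ⟨s, hs⟩ := Nat.exists_eq_add_of_le h2
  set K' := KK G (insert u X)
  set K := KK G X
  have h3 : K + 1 - K' = s + 1 := by omega
  rw [h3] at h1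
  rcases Nat.eq_zero_or_pos t with h0 | h0
  · subst h0
    simp
  · obtain ⟨a, ha⟩ : ∃ a, 2 * t - 1 = a ∧ a + 1 = 2 * t := ⟨2 * t - 1, rfl, by omega⟩
    rw [ha.1, ← ha.2]
    have h4 : K ≤ 2 * (t * s) := by
      have : t * (s + 1) = t * s + t := by ring
      omega
    have h5 : 2 * (t * s) = a * s + s := by
      calc 2 * (t * s) = (2 * t) * s := by ring
        _ = (a + 1) * s := by rw [ha.2]
        _ = a * s + s := by ring
    rw [h5] at h4
    rw [hs] at h4 ⊢
    have h6 : K' ≤ a * s := by omega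
    calc K' * (a + 1) = K' * a + K' := by ring
      _ ≤ K' * a + a * s := by omega
      _ = (K' + s) * a := by ring

end Pool.Agent.CDom
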