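import Mathlib
import Pool.Agent.CDom.Defs
import Pool.Agent.CDom.Basic
import Pool.Agent.CDom.Meas

/-!
# MODULE CDom/Small  (MP_6e88d0_lc)

Connectors of size at most 2, and completions of size at most `2 * KK`.

Proof of `connector`.  Let `P w := (w ∈ X ∧ Conn G X a w) ∨ (w ∉ X ∧ ∃ y, Conn G X a y ∧ G.Adj y w)`.
`P a` holds, `P b` fails.  Along a path from `a` to `b` inside `D` there is a step `y -> z`
(`G.Adj y z`, `y, z ∈ D`) with `P y`, `¬ P z`.  If `y ∈ X`, `Conn G X a y`: then `z ∈ X` gives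
`Conn G X a z`, so `P z`; and `z ∉ X` gives `P z` as well: contradiction.  So `y ∉ X` and there is
`y'` with `Conn G X a y'` (so `y' ∈ X`) and `G.Adj y' y`.
If `z ∈ X`: `¬ Conn G X a z`; take `Z = {y}`, `c = z` (path `a .. y' y z`).
If `z ∉ X`: `z` is dominated by `X`: `G.Adj c z` for some `c ∈ X`; `Conn G X a c` would give `P z`;
so `¬ Conn G X a c`; take `Z = {y, z}` (path `a .. y' y z c`).

Proof of `step_down` (`X ≠ ∅`, `X ⊆ D`, `D` a CDS, `2 ≤ KK G X`: some `Z ⊆ D` with `|Z| ≤ 2` has
`KK G (X ∪ Z) + 1 ≤ KK G X`).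
(A) Some `y` is not dominated by `X`.  There is `w ∈ D` adjacent to `y`: if `y ∉ D` because `D`
dominates `y`; if `y ∈ D` because `D` connects `y` to a vertex `x ∈ X` (`x ≠ y`), take the first
step of the path.  `w ∉ X`.  Use `KK_le_of_rep` with `R = (items G X).erase y` for `X ∪ {w}`:
vertices not dominated by `X ∪ {w}` are items other than `y`.  A vertex `x ∈ X` has an item `r ∈ X`,
`r ≠ y`.  For `w`: if `w` is dominated by `X`, a neighbour `u ∈ X` and the item of `u`; otherwise `w`
is itself an item and `w ≠ y`.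
(B) All vertices are dominated by `X`.  Then all items lie in `X`; take two different items `a ≠ b`;
`¬ Conn G X a b` by `items_unique`.  By `connector`: `Z`, `c`.  Let `r` be the item of `c`
(`r ≠ a`, since otherwise `Conn G X a c`).  Use `R = (items G X).erase r` for `X ∪ Z`: a vertex of
`X ∪ Z` is in `X` or has a neighbour in `X` (it is dominated by `X`), so it is connected in `X ∪ Z`
to an item of `X`; if this item is `r`, go on `r .. c .. a` (all inside `X ∪ Z`) and use `a`.

Proof of `completion`: strong induction on `KK G X`.  If `X = ∅`, take `w ∈ D`; `KK G {w} ≤ KK G ∅`;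
for nonempty `X` prove the stronger bound `|Z| ≤ 2 * (KK G X - 1)` by induction using `step_down`
(if `KK G X ≤ 1`, `X` is a CDS by `cds_iff_KK`, `Z = ∅`), and add `w` (`1 + 2 (K - 1) ≤ 2 K` as
`K ≥ 1`).
-/

set_option autoImplicit false

namespace Pool.Agent.CDom

open Finset

variable {V : Type*} [Fintype V] [LinearOrder V] {G : SimpleGraph V}

namespace SmallAux

theorem exists_step {α : Type*} {r : α → α → Prop} {P : α → Prop} {a b : α}
    (h : Relation.ReflTransGen r a b) (ha : P a) (hb : ¬ P b) :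
    ∃ y z, Relation.ReflTransGen r a y ∧ r y z ∧ P y ∧ ¬ P z := by
  induction h with
  | refl => exact absurd ha hb
  | @tail b' c' h1 h2 ih =>
    by_cases hP : P b'
    · exact ⟨b', c', h1, h2, hP, hb⟩
    · exact ih hP

end SmallAux

open SmallAux

theorem connector (X D : Finset V) (hXD : X ⊆ D) (hdom : ∀ v, Dom G X v) {a b : V} (ha : a ∈ X)
    (hab : ¬ Conn G X a b) (hb : b ∈ X) (hD : Conn G D a b) :
    ∃ Z ⊆ D \ X, Z.card ≤ 2 ∧ ∃ c ∈ X, ¬ Conn G X a c ∧ Conn G (X ∪ Z) a c := by
  classical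
  have hP : ∃ y z, Conn G D a y ∧ (G.Adj y z ∧ z ∈ D) ∧
      ((y ∈ X ∧ Conn G X a y) ∨ (y ∉ X ∧ ∃ u, Conn G X a u ∧ G.Adj u y)) ∧
      ¬ ((z ∈ X ∧ Conn G X a z) ∨ (z ∉ X ∧ ∃ u, Conn G X a u ∧ G.Adj u z)) := by
    refine exists_step (P := fun w => (w ∈ X ∧ Conn G X a w) ∨
      (w ∉ X ∧ ∃ u, Conn G X a u ∧ G.Adj u w)) hD (Or.inl ⟨ha, Relation.ReflTransGen.refl⟩) ?_
    rintro (⟨-, h⟩ | ⟨h, -⟩)
    · exact hab h
    · exact h hb
  obtain ⟨y, z, hay, ⟨hyz, hzD⟩, hPy, hPz⟩ := hP
  have hyD : y ∈ D := conn_mem (hXD ha) hay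
  rcases hPy with ⟨hyX, hcy⟩ | ⟨hyX, y', hy', hadj⟩
  · exfalso
    apply hPz
    by_cases hzX : z ∈ X
    · exact Or.inl ⟨hzX, hcy.tail ⟨hyz, hzX⟩⟩
    · exact Or.inr ⟨hzX, y, hcy, hyz⟩
  · by_cases hzX : z ∈ X
    · have hnc : ¬ Conn G X a z := fun h => hPz (Or.inl ⟨hzX, h⟩)
      refine ⟨{y}, ?_, by simp, z, hzX, hnc, ?_⟩
      · intro v hv
        rw [mem_singleton] at hv
        rw [hv, mem_sdiff]
        exact ⟨hyD, hyX⟩
      · have h1 : Conn G (X ∪ {y}) a y' := conn_mono subset_union_left hy'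
        have h2 : Conn G (X ∪ {y}) a y :=
          h1.tail ⟨hadj, mem_union_right _ (mem_singleton_self y)⟩
        exact h2.tail ⟨hyz, mem_union_left _ hzX⟩
    · rcases hdom z with hz | ⟨c, hc, hcz⟩
      · exact absurd hz hzX
      · have hnc : ¬ Conn G X a c := fun h => hPz (Or.inr ⟨hzX, c, h, hcz⟩)
        refine ⟨{y, z}, ?_, card_le_two, c, hc, hnc, ?_⟩
        · intro v hv
          rw [mem_insert, mem_singleton] at hv
          rw [mem_sdiff]
          rcases hv with rfl | rfl
          · exact ⟨hyD, hyX⟩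
          · exact ⟨hzD, hzX⟩
        · have h1 : Conn G (X ∪ {y, z}) a y' := conn_mono subset_union_left hy'
          have h2 : Conn G (X ∪ {y, z}) a y :=
            h1.tail ⟨hadj, mem_union_right _ (mem_insert_self y {z})⟩
          have h3 : Conn G (X ∪ {y, z}) a z :=
            h2.tail ⟨hyz, mem_union_right _ (mem_insert_of_mem (mem_singleton_self z))⟩
          exact h3.tail ⟨hcz.symm, mem_union_left _ hc⟩

theorem step_down (X D : Finset V) (hX : X.Nonempty) (hXD : X ⊆ D) (hD : CDS G D)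
    (hK : 2 ≤ KK G X) : ∃ Z ⊆ D, Z.card ≤ 2 ∧ KK G (X ∪ Z) + 1 ≤ KK G X := by
  classical
  by_cases hA : ∃ y, ¬ Dom G X y
  · obtain ⟨y, hy⟩ := hA
    have hyX : y ∉ X := fun h => hy (Or.inl h)
    have hw : ∃ w ∈ D, G.Adj w y := by
      rcases hD.2.1 y with hyD | ⟨u, hu, hadj⟩
      · obtain ⟨x, hx⟩ := hX
        have hc := hD.2.2 y hyD x (hXD hx)
        rcases Relation.ReflTransGen.cases_head hc with h | ⟨c, ⟨h1, h2⟩, -⟩
        · exact absurd (h ▸ hx) hyX
        · exact ⟨c, h2, h1.symm⟩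
      · exact ⟨u, hu, hadj⟩
    obtain ⟨w, hwD, hwy⟩ := hw
    have hwX : w ∉ X := fun h => hy (Or.inr ⟨w, h, hwy⟩)
    have hyI : y ∈ items G X := mem_items_of_not_dom hy
    have hwm : w ∈ X ∪ {w} := mem_union_right _ (mem_singleton_self w)
    have hle : KK G (X ∪ {w}) ≤ ((items G X).erase y).card := by
      apply KK_le_of_rep
      · intro v hv
        rw [mem_erase]
        refine ⟨?_, mem_items_of_not_dom fun h => hv (Dom.mono subset_union_left h)⟩
        rintro rfl
        exact hv (Or.inr ⟨w, hwm, hwy⟩)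
      · intro x hx
        rcases mem_union.1 hx with hxX | hxw
        · obtain ⟨r, hr, hrX, hcr⟩ := exists_item (G := G) hxX
          refine ⟨r, mem_erase.2 ⟨?_, hr⟩, mem_union_left _ hrX, conn_mono subset_union_left hcr⟩
          rintro rfl
          exact hyX hrX
        · rw [mem_singleton] at hxw
          subst hxw
          by_cases hdw : Dom G X x
          · rcases hdw with h | ⟨u, hu, hadj⟩
            · exact absurd h hwX
            · obtain ⟨r, hr, hrX, hcr⟩ := exists_item (G := G) hu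
              refine ⟨r, mem_erase.2 ⟨?_, hr⟩, mem_union_left _ hrX,
                Relation.ReflTransGen.head ⟨hadj.symm, mem_union_left _ hu⟩
                  (conn_mono subset_union_left hcr)⟩
              rintro rfl
              exact hyX hrX
          · refine ⟨x, mem_erase.2 ⟨?_, mem_items_of_not_dom hdw⟩, hwm,
              Relation.ReflTransGen.refl⟩
            rintro rfl
            exact G.irrefl hwy
    refine ⟨{w}, ?_, by simp, ?_⟩
    · intro v hv
      rw [mem_singleton] at hv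
      rw [hv]
      exact hwD
    · rw [card_erase_of_mem hyI] at hle
      have : 2 ≤ (items G X).card := hK
      unfold KK at hle ⊢
      omega
  · push Not at hA
    have hsub : ∀ v ∈ items G X, v ∈ X := by
      intro v hv
      rcases mem_items.1 hv with h | h
      · exact absurd (hA v) h
      · exact h.1
    obtain ⟨a, ha, b, hb, hab⟩ := Finset.one_lt_card.1 (show 1 < (items G X).card from hK)
    have haX := hsub a ha
    have hbX := hsub b hb
    have hnc : ¬ Conn G X a b := fun h => hab (items_unique ha hb haX h)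
    obtain ⟨Z, hZ, hZ2, c, hc, hac, hacZ⟩ := connector X D hXD hA haX hnc hbX
      (hD.2.2 a (hXD haX) b (hXD hbX))
    obtain ⟨r, hr, hrX, hcr⟩ := exists_item (G := G) hc
    have hra : a ≠ r := by
      rintro rfl
      exact hac (conn_symm hc hcr)
    have hle : KK G (X ∪ Z) ≤ ((items G X).erase r).card := by
      apply KK_le_of_rep
      · intro v hv
        exact absurd (Dom.mono subset_union_left (hA v)) hv
      · intro x hx
        have hu : ∃ u ∈ X, Conn G (X ∪ Z) x u := by
          by_cases hxX : x ∈ X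
          · exact ⟨x, hxX, Relation.ReflTransGen.refl⟩
          · rcases hA x with h | ⟨u, hu, hadj⟩
            · exact absurd h hxX
            · exact ⟨u, hu, conn_single hadj.symm (mem_union_left _ hu)⟩
        obtain ⟨u, huX, hxu⟩ := hu
        obtain ⟨r', hr', hrX', hcr'⟩ := exists_item (G := G) huX
        have hxr' : Conn G (X ∪ Z) x r' := hxu.trans (conn_mono subset_union_left hcr')
        by_cases hrr : r' = r
        · subst hrr
          refine ⟨a, mem_erase.2 ⟨hra, ha⟩, mem_union_left _ haX, ?_⟩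
          have h1 : Conn G (X ∪ Z) r' c := conn_mono subset_union_left (conn_symm hc hcr)
          have h2 : Conn G (X ∪ Z) c a := conn_symm (mem_union_left _ haX) hacZ
          exact (hxr'.trans h1).trans h2
        · exact ⟨r', mem_erase.2 ⟨hrr, hr'⟩, mem_union_left _ hrX', hxr'⟩
    refine ⟨Z, fun v hv => (mem_sdiff.1 (hZ hv)).1, hZ2, ?_⟩
    rw [card_erase_of_mem hr] at hle
    have : 2 ≤ (items G X).card := hK
    unfold KK at hle ⊢
    omega

/-- the stronger bound for nonempty sets -/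
theorem SmallAux.completion_aux (D : Finset V) (hD : CDS G D) (n : ℕ) : ∀ X : Finset V, X.Nonempty →
    X ⊆ D → KK G X ≤ n → ∃ Z ⊆ D, Z.card ≤ 2 * (KK G X - 1) ∧ CDS G (X ∪ Z) := by
  classical
  induction n with
  | zero =>
    intro X hX _ hK
    refine ⟨∅, empty_subset _, by simp, ?_⟩
    rw [union_empty]
    exact cds_iff_KK.2 ⟨hX, by omega⟩
  | succ n ih =>
    intro X hX hXD hK
    by_cases h1 : KK G X ≤ 1
    · refine ⟨∅, empty_subset _, by simp, ?_⟩
      rw [union_empty]
      exact cds_iff_KK.2 ⟨hX, h1⟩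
    · obtain ⟨Z, hZ, hZ2, hZK⟩ := step_down X D hX hXD hD (by omega)
      obtain ⟨Z', hZ', hZ2', hcds⟩ := ih (X ∪ Z) (hX.mono subset_union_left)
        (union_subset hXD hZ) (by omega)
      have hne : Nonempty V := ⟨hX.choose⟩
      have hone : 1 ≤ KK G (X ∪ Z) := one_le_KK
      refine ⟨Z ∪ Z', union_subset hZ hZ', ?_, ?_⟩
      · have := card_union_le Z Z'
        omega
      · rw [← union_assoc]
        exact hcds

theorem completion (X D : Finset V) (hXD : X ⊆ D) (hD : CDS G D) :
    ∃ Z ⊆ D, Z.card ≤ 2 * KK G X ∧ CDS G (X ∪ Z) := by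
  classical
  rcases X.eq_empty_or_nonempty with rfl | hX
  · obtain ⟨w, hw⟩ := hD.1
    have hne : Nonempty V := ⟨w⟩
    have hanti : KK G {w} ≤ KK G (∅ : Finset V) := KK_anti (empty_subset _)
    have hone : 1 ≤ KK G ({w} : Finset V) := one_le_KK
    obtain ⟨Z, hZ, hZ2, hcds⟩ := SmallAux.completion_aux D hD (KK G {w}) {w}
      (singleton_nonempty w) (singleton_subset_iff.2 hw) le_rfl
    refine ⟨insert w Z, insert_subset hw hZ, ?_, ?_⟩
    · have := card_insert_le w Z
      omega
    · rw [empty_union, insert_eq]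
      exact hcds
  · obtain ⟨Z, hZ, hZ2, hcds⟩ := SmallAux.completion_aux D hD (KK G X) X hX hXD le_rfl
    exact ⟨Z, hZ, by omega, hcds⟩

end Pool.Agent.CDom
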