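import Mathlib
import Pool.Agent.CDom.Defs
import Pool.Agent.CDom.Basic
import Pool.Agent.CDom.Meas
import Pool.Agent.CDom.Small

/-!
# MODULE CDom/Fam  (MP_6e88d0_lc)

If no cut has size `≤ m`, then every item of a dominating set `X` (which is not connected) has
`m / 2 + 1` pairwise disjoint connectors of size 1 or 2.

Proof.  Induction on `j ≤ m / 2 + 1`: there is a family `𝒦` of `j` pairwise disjoint connectors.
Step (`j ≤ m / 2`): `S = 𝒦.biUnion id ⊆ U` has at most `2 j ≤ m` elements, so
`D = X ∪ (U \ S)` is a CDS.  All vertices are dominated by `X`, hence all items are in `X` and as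
`2 ≤ KK G X` there is an item `b ≠ v`, and `¬ Conn G X v b` (`items_unique`).  `connector X D`
gives `Z ⊆ D \ X ⊆ U \ S` with `Z.card ≤ 2` and `c ∈ X`, `¬ Conn G X v c`, `Conn G (X ∪ Z) v c`;
`Z ≠ ∅` (otherwise `Conn G X v c`).  `Z` is disjoint from all members of `𝒦` and (being nonempty)
not a member of `𝒦`, so `insert Z 𝒦` has `j + 1` elements.
-/

set_option autoImplicit false

namespace Pool.Agent.CDom

open Finset

variable {V : Type*} [Fintype V] [LinearOrder V] {G : SimpleGraph V}

theorem exists_family (X U : Finset V) (m : ℕ) (hXU : Disjoint X U) (hdom : ∀ v, Dom G X v)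
    (hcut : ∀ S, S ⊆ U → S.card ≤ m → CDS G (X ∪ (U \ S))) (v : V) (hv : v ∈ items G X)
    (hK : 2 ≤ KK G X) :
    ∃ K : Finset (Finset V), (∀ Z ∈ K, Z ⊆ U ∧ Z.Nonempty ∧ Z.card ≤ 2 ∧
        ∃ c ∈ X, ¬ Conn G X v c ∧ Conn G (X ∪ Z) v c) ∧
      (K : Set (Finset V)).PairwiseDisjoint id ∧ K.card = m / 2 + 1 := by
  classical
  have hitemX : ∀ w ∈ items G X, w ∈ X := by
    intro w hw
    rcases mem_items.1 hw with h | h
    · exact absurd (hdom w) h
    · exact h.1
  have key : ∀ j, j ≤ m / 2 + 1 → ∃ K : Finset (Finset V), (∀ Z ∈ K, Z ⊆ U ∧ Z.Nonempty ∧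
        Z.card ≤ 2 ∧ ∃ c ∈ X, ¬ Conn G X v c ∧ Conn G (X ∪ Z) v c) ∧
      (K : Set (Finset V)).PairwiseDisjoint id ∧ K.card = j := by
    intro j
    induction j with
    | zero =>
      intro _
      exact ⟨∅, by simp, by simp, by simp⟩
    | succ j ih =>
      intro hj
      obtain ⟨K, hK1, hK2, hK3⟩ := ih (by omega)
      have hSU : K.biUnion id ⊆ U := Finset.biUnion_subset.2 fun Z hZ => (hK1 Z hZ).1
      have hSc : (K.biUnion id).card ≤ m := by
        have h1 : (K.biUnion id).card ≤ ∑ Z ∈ K, (id Z).card := Finset.card_biUnion_le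
        have h2 : ∑ Z ∈ K, (id Z).card ≤ ∑ Z ∈ K, 2 :=
          Finset.sum_le_sum fun Z hZ => (hK1 Z hZ).2.2.1
        have h3 : ∑ Z ∈ K, 2 = K.card * 2 := by simp
        omega
      have hD := hcut _ hSU hSc
      obtain ⟨b, hb, hbv⟩ : ∃ b ∈ items G X, b ≠ v :=
        Finset.exists_mem_ne (lt_of_lt_of_le one_lt_two hK) v
      have hvX := hitemX v hv
      have hbX := hitemX b hb
      have hnc : ¬ Conn G X v b := fun h => hbv (items_unique hv hb hvX h).symm
      obtain ⟨Z, hZ, hZc, c, hc, hc1, hc2⟩ := connector X (X ∪ (U \ K.biUnion id))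
        Finset.subset_union_left hdom hvX hnc hbX
        (hD.2.2 v (Finset.mem_union_left _ hvX) b (Finset.mem_union_left _ hbX))
      have hZU : Z ⊆ U \ K.biUnion id := by
        intro z hz
        have h1 := Finset.mem_sdiff.1 (hZ hz)
        rcases Finset.mem_union.1 h1.1 with h | h
        · exact absurd h h1.2
        · exact h
      have hZne : Z.Nonempty := by
        rcases Z.eq_empty_or_nonempty with h | h
        · rw [h, Finset.union_empty] at hc2
          exact absurd hc2 hc1
        · exact h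
      have hZdis : ∀ W ∈ K, Disjoint Z W := by
        intro W hW
        rw [Finset.disjoint_left]
        intro z hz hzW
        exact (Finset.mem_sdiff.1 (hZU hz)).2 (Finset.mem_biUnion.2 ⟨W, hW, hzW⟩)
      have hZK : Z ∉ K := by
        intro h
        have := hZdis Z h
        rw [disjoint_self] at this
        exact hZne.ne_empty this
      refine ⟨insert Z K, ?_, ?_, ?_⟩
      · intro W hW
        rcases Finset.mem_insert.1 hW with h | h
        · rw [h]
          exact ⟨hZU.trans Finset.sdiff_subset, hZne, hZc, c, hc, hc1, hc2⟩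
        · exact hK1 W h
      · rw [Finset.coe_insert]
        refine hK2.insert ?_
        intro W hW _
        exact hZdis W hW
      · rw [Finset.card_insert_of_notMem hZK, hK3]
  exact key _ le_rfl

end Pool.Agent.CDom
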