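import Mathlib
import Pool.Agent.CDom.Defs
import Pool.Agent.CDom.Basic
import Pool.Agent.CDom.Meas

/-!
# MODULE CDom/Halve  (MP_6e88d0_lc)

All vertices are dominated by `X`.  Adding `W` merges components; an item `v` of `X` is alone if
its component in `X ∪ W` contains no other item of `X`.  Then
`2 * KK G (X ∪ W) ≤ KK G X + #alone`.

Proof.  As all vertices are dominated by `X`, `items G X ⊆ X` and `items G (X ∪ W) ⊆ X ∪ W`.
Map `f : items G X -> items G (X ∪ W)`, `v ↦` an item of `X ∪ W` connected to `v` in `X ∪ W`
(`exists_item`).  The fibre over each `r ∈ items G (X ∪ W)` is nonempty: `r ∈ X ∪ W` is in `X` or has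
a neighbour in `X`, so it is connected in `X ∪ W` to an item of `X` (`exists_item` for `X`), whose
image is `r` by `items_unique`.  If the fibre over `r` has exactly one element `v`, then `v` is
alone: another item `v'` of `X` connected to `v` in `X ∪ W` would have the same image.
So `KK G X = ∑_r |fibre r| ≥ 2 KK G (X ∪ W) - #{r : |fibre r| = 1} ≥ 2 KK G (X ∪ W) - #alone`
(`Finset.card_eq_sum_card_fiberwise`; the map `r ↦` the unique element of the fibre is injective).

`not_alone`: the item `v'` of `c` in `X` (`Conn G X c v'`) is different from `v` (else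
`Conn G X v c` by symmetry), and `Conn G (X ∪ W) v c`, `Conn G (X ∪ W) c v'`.
-/

set_option autoImplicit false

namespace Pool.Agent.CDom

open Finset

variable {V : Type*} [Fintype V] [LinearOrder V] {G : SimpleGraph V}

open Classical in
/-- the items of `X` whose component in `X ∪ W` contains no other item of `X` -/
noncomputable def alone (G : SimpleGraph V) (X W : Finset V) : Finset V :=
  (items G X).filter fun v => ∀ v' ∈ items G X, Conn G (X ∪ W) v v' → v' = v

theorem halve (X W : Finset V) (hdom : ∀ v, Dom G X v) :
    2 * KK G (X ∪ W) ≤ KK G X + (alone G X W).card := by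
  classical
  have hXY : X ⊆ X ∪ W := Finset.subset_union_left
  have hI0 : ∀ v ∈ items G X, v ∈ X := by
    intro v hv
    rcases mem_items.1 hv with h | h
    · exact absurd (hdom v) h
    · exact h.1
  have hI1 : ∀ v ∈ items G (X ∪ W), v ∈ X ∪ W := by
    intro v hv
    rcases mem_items.1 hv with h | h
    · exact absurd ((hdom v).mono hXY) h
    · exact h.1
  have hex : ∀ v, v ∈ items G X →
      ∃ r, r ∈ items G (X ∪ W) ∧ Conn G (X ∪ W) v r := by
    intro v hv
    obtain ⟨r, h1, _, h3⟩ := exists_item (G := G) (hXY (hI0 v hv))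
    exact ⟨r, h1, h3⟩
  choose! f hf1 hf2 using hex
  -- two items of the union connected to the same vertex
  have huniq : ∀ v ∈ items G X, ∀ r ∈ items G (X ∪ W), Conn G (X ∪ W) v r → f v = r := by
    intro v hv r hr h
    have hvY : v ∈ X ∪ W := hXY (hI0 v hv)
    have h1 : Conn G (X ∪ W) r v := conn_symm hvY h
    exact (items_unique hr (hf1 v hv) (hI1 r hr)
      (Relation.ReflTransGen.trans h1 (hf2 v hv))).symm
  have hmaps : Set.MapsTo f (items G X : Set V) (items G (X ∪ W) : Set V) :=
    fun v hv => hf1 v hv
  have halone : alone G X W ⊆ items G X := Finset.filter_subset _ _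
  have hmaps2 : Set.MapsTo f (alone G X W : Set V) (items G (X ∪ W) : Set V) :=
    fun v hv => hf1 v (halone hv)
  have hc0 := Finset.card_eq_sum_card_fiberwise hmaps
  have hc1 := Finset.card_eq_sum_card_fiberwise hmaps2
  have key : ∀ r ∈ items G (X ∪ W),
      2 ≤ ((items G X).filter fun a => f a = r).card +
        ((alone G X W).filter fun a => f a = r).card := by
    intro r hr
    have hrY := hI1 r hr
    have hne : ((items G X).filter fun a => f a = r).Nonempty := by
      obtain ⟨x, hx, hxr⟩ : ∃ x ∈ X, Conn G (X ∪ W) x r := by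
        rcases hdom r with h | ⟨u, hu, h⟩
        · exact ⟨r, h, Relation.ReflTransGen.refl⟩
        · exact ⟨u, hu, conn_single h hrY⟩
      obtain ⟨v, hv, hvX, hxv⟩ := exists_item (G := G) hx
      have h1 : Conn G (X ∪ W) v x := conn_mono hXY (conn_symm hx hxv)
      exact ⟨v, Finset.mem_filter.2 ⟨hv, huniq v hv r hr (Relation.ReflTransGen.trans h1 hxr)⟩⟩
    by_cases h2 : 2 ≤ ((items G X).filter fun a => f a = r).card
    · omega
    · have h3 : ((items G X).filter fun a => f a = r).card = 1 := by
        have := hne.card_pos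
        omega
      obtain ⟨v, hv⟩ := Finset.card_eq_one.1 h3
      have hvm : v ∈ (items G X).filter fun a => f a = r := by
        rw [hv]; exact Finset.mem_singleton_self v
      have hvI := (Finset.mem_filter.1 hvm).1
      have hvr := (Finset.mem_filter.1 hvm).2
      have hvA : v ∈ alone G X W := by
        unfold alone
        refine Finset.mem_filter.2 ⟨hvI, fun v' hv' hc => ?_⟩
        have hv'Y : v' ∈ X ∪ W := hXY (hI0 v' hv')
        have h4 : Conn G (X ∪ W) v' r := by
          have h5 : Conn G (X ∪ W) v r := hvr ▸ hf2 v hvI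
          exact Relation.ReflTransGen.trans (conn_symm (hXY (hI0 v hvI)) hc) h5
        have h5 : v' ∈ (items G X).filter fun a => f a = r :=
          Finset.mem_filter.2 ⟨hv', huniq v' hv' r hr h4⟩
        rw [hv] at h5
        exact Finset.mem_singleton.1 h5
      have h6 : 0 < ((alone G X W).filter fun a => f a = r).card :=
        Finset.card_pos.2 ⟨v, Finset.mem_filter.2 ⟨hvA, hvr⟩⟩
      omega
  have hsum := Finset.sum_le_sum key
  rw [Finset.sum_add_distrib, ← hc0, ← hc1, Finset.sum_const, smul_eq_mul] at hsum
  unfold KK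
  omega

theorem not_alone (X W : Finset V) {v c : V} (hv : v ∈ items G X) (hvX : v ∈ X) (hc : c ∈ X)
    (h1 : ¬ Conn G X v c) (h2 : Conn G (X ∪ W) v c) : v ∉ alone G X W := by
  classical
  intro h
  obtain ⟨v', hv', _, hcv⟩ := exists_item (G := G) hc
  unfold alone at h
  have h3 := (Finset.mem_filter.1 h).2 v' hv'
    (Relation.ReflTransGen.trans h2 (conn_mono Finset.subset_union_left hcv))
  rw [h3] at hcv
  exact h1 (conn_symm hc hcv)

end Pool.Agent.CDom
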