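import Mathlib

/-!
# MODULE CDom/Round  (MP_6e88d0_lc)

Rounding of functions which are affine in every coordinate.

`MA Φ`: `Φ : (V → ℝ) → ℝ` is affine in each coordinate separately.  `Dep Φ A`: `Φ` depends only on
the coordinates in `A`.

Proofs.
* `MA.round`: round the coordinates one after the other: since
  `Φ x = (1 - x v) Φ (x[v := 0]) + x v Φ (x[v := 1])` with `0 ≤ x v ≤ 1`, one of the two values is
  at most `Φ x`; if `x v = 0` choose `0` (then `Φ (x[v := 0]) = Φ x`).  Induction over a finite set
  `s` of coordinates (`Finset.induction_on univ`): there is `y` with `y v ∈ {0, 1}` for `v ∈ s`,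
  `y v = x v` for `v ∉ s`, `x v = 0 → y v = 0`, `0 ≤ y ≤ 1`, `Φ y ≤ Φ x`.  For `s = univ` put
  `W = {v | y v = 1}`; `y = ind W`.
* `MA.add`, `MA.sum`, `MA.const_mul`: linear in `Φ`.
* `MA.mul`: at a coordinate `v` one of the two factors does not depend on `v` (its values at `x`,
  `x[v:=0]`, `x[v:=1]` coincide), the other one is affine.
* `MA.prod`: induction with `MA.mul`, `Dep.mul`.
* `MA_coord`: `x ↦ α + β * x t` is affine in each coordinate, depends on `{t}`.
* `MA_block`: `x ↦ 1 - ∏ u ∈ Z, x u`.
-/

set_option autoImplicit false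

namespace Pool.Agent.CDom

open Finset

variable {V : Type*} [Fintype V] [DecidableEq V]

/-- affine in each coordinate -/
def MA (Φ : (V → ℝ) → ℝ) : Prop :=
  ∀ (x : V → ℝ) (v : V),
    Φ x = (1 - x v) * Φ (Function.update x v 0) + x v * Φ (Function.update x v 1)

/-- depends only on the coordinates in `A` -/
def Dep (Φ : (V → ℝ) → ℝ) (A : Finset V) : Prop :=
  ∀ x y : V → ℝ, (∀ v ∈ A, x v = y v) → Φ x = Φ y

/-- indicator function of a finite set -/
def ind (W : Finset V) : V → ℝ := fun v => if v ∈ W then 1 else 0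

theorem MA.round {Φ : (V → ℝ) → ℝ} (h : MA Φ) (x : V → ℝ) (hx : ∀ v, 0 ≤ x v ∧ x v ≤ 1) :
    ∃ W : Finset V, (∀ v ∈ W, x v ≠ 0) ∧ Φ (ind W) ≤ Φ x := by
  have key : ∀ s : Finset V, ∃ y : V → ℝ, (∀ v ∈ s, y v = 0 ∨ y v = 1) ∧ (∀ v, v ∉ s → y v = x v) ∧
      (∀ v, x v = 0 → y v = 0) ∧ (∀ v, 0 ≤ y v ∧ y v ≤ 1) ∧ Φ y ≤ Φ x := by
    intro s
    induction s using Finset.induction_on with
    | empty => exact ⟨x, by simp, fun v _ => rfl, fun v hv => hv, hx, le_rfl⟩
    | insert v s hv ih =>
      obtain ⟨y, h1, h2, h3, h4, h5⟩ := ih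
      have hupd : ∀ c : ℝ, (c = 0 ∨ c = 1) → (x v = 0 → c = 0) →
          Φ (Function.update y v c) ≤ Φ y →
          ∃ y : V → ℝ, (∀ w ∈ insert v s, y w = 0 ∨ y w = 1) ∧
            (∀ w, w ∉ insert v s → y w = x w) ∧
            (∀ w, x w = 0 → y w = 0) ∧ (∀ w, 0 ≤ y w ∧ y w ≤ 1) ∧ Φ y ≤ Φ x := by
        intro c hc hc0 hle
        refine ⟨Function.update y v c, ?_, ?_, ?_, ?_, hle.trans h5⟩
        · intro w hw
          by_cases hwv : w = v
          · subst hwv
            rw [Function.update_self]
            exact hc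
          · rw [Function.update_of_ne hwv]
            exact h1 w ((Finset.mem_insert.1 hw).resolve_left hwv)
        · intro w hw
          rw [Finset.mem_insert, not_or] at hw
          rw [Function.update_of_ne hw.1]
          exact h2 w hw.2
        · intro w hw
          by_cases hwv : w = v
          · subst hwv
            rw [Function.update_self]
            exact hc0 hw
          · rw [Function.update_of_ne hwv]
            exact h3 w hw
        · intro w
          by_cases hwv : w = v
          · subst hwv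
            rw [Function.update_self]
            rcases hc with rfl | rfl <;> norm_num
          · rw [Function.update_of_ne hwv]
            exact h4 w
      by_cases hx0 : x v = 0
      · refine hupd 0 (Or.inl rfl) (fun _ => rfl) ?_
        have hy0 : y v = 0 := h3 v hx0
        have : Function.update y v 0 = y := by
          rw [← hy0]
          exact Function.update_eq_self v y
        rw [this]
      · by_cases hle : Φ (Function.update y v 0) ≤ Φ y
        · exact hupd 0 (Or.inl rfl) (fun _ => rfl) hle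
        · refine hupd 1 (Or.inr rfl) (fun h => absurd h hx0) ?_
          push Not at hle
          by_contra hcon
          push Not at hcon
          have e := h y v
          obtain ⟨h6, h7⟩ := h4 v
          rcases h6.eq_or_lt with h8 | h8
          · rw [← h8] at e
            linarith
          · nlinarith [mul_nonneg (sub_nonneg.2 h7) (sub_nonneg.2 hle.le),
              mul_pos h8 (sub_pos.2 hcon)]
  obtain ⟨y, h1, -, h3, -, h5⟩ := key univ
  refine ⟨univ.filter fun v => y v = 1, ?_, ?_⟩
  · intro v hv h0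
    have h6 := (Finset.mem_filter.1 hv).2
    rw [h3 v h0] at h6
    exact zero_ne_one h6
  · have e : ind (univ.filter fun v => y v = 1) = y := by
      funext v
      unfold ind
      rcases h1 v (mem_univ v) with h6 | h6
      · simp [h6]
      · simp [h6]
    rw [e]
    exact h5

theorem MA.add {Φ Ψ : (V → ℝ) → ℝ} (h : MA Φ) (h' : MA Ψ) : MA (fun x => Φ x + Ψ x) := by
  intro x v
  have e1 := h x v
  have e2 := h' x v
  beta_reduce
  linear_combination e1 + e2

theorem MA.const_mul {Φ : (V → ℝ) → ℝ} (c : ℝ) (h : MA Φ) : MA (fun x => c * Φ x) := by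
  intro x v
  have e := h x v
  beta_reduce
  linear_combination c * e

theorem MA.sum {ι : Type*} (s : Finset ι) {F : ι → (V → ℝ) → ℝ} (h : ∀ i ∈ s, MA (F i)) :
    MA (fun x => ∑ i ∈ s, F i x) := by
  intro x v
  beta_reduce
  rw [Finset.mul_sum, Finset.mul_sum, ← Finset.sum_add_distrib]
  exact Finset.sum_congr rfl fun i hi => h i hi x v

theorem MA.mul {Φ Ψ : (V → ℝ) → ℝ} {A B : Finset V} (h : MA Φ) (h' : MA Ψ) (hA : Dep Φ A)
    (hB : Dep Ψ B) (hAB : Disjoint A B) : MA (fun x => Φ x * Ψ x) := by
  intro x v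
  beta_reduce
  by_cases hv : v ∈ B
  · have hvA : v ∉ A := fun hvA => Finset.disjoint_left.1 hAB hvA hv
    have e : ∀ c : ℝ, Φ (Function.update x v c) = Φ x := by
      intro c
      apply hA
      intro w hw
      refine Function.update_of_ne ?_ _ _
      rintro rfl
      exact hvA hw
    rw [e, e]
    have e2 := h' x v
    linear_combination Φ x * e2
  · have e : ∀ c : ℝ, Ψ (Function.update x v c) = Ψ x := by
      intro c
      apply hB
      intro w hw
      refine Function.update_of_ne ?_ _ _
      rintro rfl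
      exact hv hw
    rw [e, e]
    have e2 := h x v
    linear_combination Ψ x * e2

theorem Round_const (c : ℝ) : MA (fun _ : V → ℝ => c) := by
  intro x v
  ring

theorem Round_dep_prod {ι : Type*} [DecidableEq ι] (s : Finset ι) {F : ι → (V → ℝ) → ℝ}
    {A : ι → Finset V} (hd : ∀ i ∈ s, Dep (F i) (A i)) :
    Dep (fun x => ∏ i ∈ s, F i x) (s.biUnion A) := by
  intro x y hxy
  exact Finset.prod_congr rfl fun i hi => hd i hi x y fun v hv =>
    hxy v (Finset.mem_biUnion.2 ⟨i, hi, hv⟩)

theorem MA.prod {ι : Type*} [DecidableEq ι] (s : Finset ι) {F : ι → (V → ℝ) → ℝ}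
    {A : ι → Finset V} (h : ∀ i ∈ s, MA (F i)) (hd : ∀ i ∈ s, Dep (F i) (A i))
    (hdis : (s : Set ι).PairwiseDisjoint A) : MA (fun x => ∏ i ∈ s, F i x) := by
  induction s using Finset.induction_on with
  | empty => simpa using Round_const (V := V) 1
  | insert a s ha ih =>
    have ih' := ih (fun i hi => h i (mem_insert_of_mem hi)) (fun i hi => hd i (mem_insert_of_mem hi))
      (hdis.subset (by simp))
    have h1 : (fun x : V → ℝ => ∏ i ∈ insert a s, F i x) =
        fun x => F a x * ∏ i ∈ s, F i x := by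
      funext x
      rw [Finset.prod_insert ha]
    rw [h1]
    refine MA.mul (A := A a) (B := s.biUnion A) (h a (mem_insert_self a s)) ih'
      (hd a (mem_insert_self a s)) (Round_dep_prod s fun i hi => hd i (mem_insert_of_mem hi)) ?_
    rw [Finset.disjoint_biUnion_right]
    intro i hi
    exact hdis (by simp) (by simp [hi]) (fun hai => ha (hai ▸ hi))

theorem MA_coord (t : V) (α β : ℝ) :
    MA (fun x : V → ℝ => α + β * x t) ∧ Dep (fun x : V → ℝ => α + β * x t) {t} := by
  constructor
  · intro x v
    beta_reduce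
    by_cases hv : t = v
    · subst hv
      rw [Function.update_self, Function.update_self]
      ring
    · rw [Function.update_of_ne hv, Function.update_of_ne hv]
      ring
  · intro x y hxy
    beta_reduce
    rw [hxy t (mem_singleton_self t)]

theorem Round_coords (Z : Finset V) (α β : ℝ) : MA (fun x : V → ℝ => ∏ u ∈ Z, (α + β * x u)) := by
  refine MA.prod (A := fun u => {u}) Z (fun i _ => (MA_coord i α β).1)
    (fun i _ => (MA_coord i α β).2) ?_
  intro i _ j _ hij
  exact Finset.disjoint_singleton.2 hij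

theorem MA_block (Z : Finset V) :
    MA (fun x : V → ℝ => 1 - ∏ u ∈ Z, x u) ∧ Dep (fun x : V → ℝ => 1 - ∏ u ∈ Z, x u) Z := by
  constructor
  · have h1 := Round_coords Z 0 1
    have h2 := MA.add (Round_const (V := V) 1) (MA.const_mul (-1) h1)
    have e : (fun x : V → ℝ => 1 - ∏ u ∈ Z, x u) =
        fun x => 1 + (-1) * ∏ u ∈ Z, (0 + 1 * x u) := by
      funext x
      simp only [zero_add, one_mul]
      ring
    rw [e]
    exact h2
  · intro x y hxy
    beta_reduce
    rw [Finset.prod_congr rfl hxy]

/-- `∏ t ∈ A, (x t + (1 - x t) * ρ)` is affine in each coordinate -/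
theorem MA_avoid (A : Finset V) (ρ : ℝ) :
    MA (fun x : V → ℝ => ∏ t ∈ A, (x t + (1 - x t) * ρ)) := by
  have h1 := Round_coords A ρ (1 - ρ)
  have e : (fun x : V → ℝ => ∏ t ∈ A, (x t + (1 - x t) * ρ)) =
      fun x => ∏ u ∈ A, (ρ + (1 - ρ) * x u) := by
    funext x
    apply Finset.prod_congr rfl
    intro t _
    ring
  rw [e]
  exact h1

/-- `∏ Z ∈ 𝒦, (1 - ∏ u ∈ Z, x u)` for pairwise disjoint sets `Z` -/
theorem MA_blocks (K : Finset (Finset V)) (hK : (K : Set (Finset V)).PairwiseDisjoint id) :
    MA (fun x : V → ℝ => ∏ Z ∈ K, (1 - ∏ u ∈ Z, x u)) :=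
  MA.prod (A := id) K (fun Z _ => (MA_block Z).1) (fun Z _ => (MA_block Z).2) hK

/-- `∏ w ∈ A, (1 - x w)` -/
theorem MA_none (A : Finset V) : MA (fun x : V → ℝ => ∏ w ∈ A, (1 - x w)) := by
  have h1 := Round_coords A 1 (-1)
  have e : (fun x : V → ℝ => ∏ w ∈ A, (1 - x w)) = fun x => ∏ u ∈ A, (1 + (-1) * x u) := by
    funext x
    apply Finset.prod_congr rfl
    intro t _
    ring
  rw [e]
  exact h1

end Pool.Agent.CDom
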