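import Mathlib
import Pool.Agent.CDom.Defs
import Pool.Agent.CDom.Basic
import Pool.Agent.CDom.Meas
import Pool.Agent.CDom.Round
import Pool.Agent.CDom.Fam
import Pool.Agent.CDom.Halve

/-!
# MODULE CDom/Layer  (MP_6e88d0_lc)

One layer of the derandomised sampling argument.

Proof.  `X` is nonempty (`hcut ∅`: `V` is nonempty and all vertices are dominated), `K := KK G X ≥ 1`.
Case `K = 1`: `W = ∅`; `X ∪ ∅ = X`, the first term is `0`, and `ρ ≤ q + (1 - q) ρ`, so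
`ρ ^ k ≤ (q + (1 - q) ρ) ^ k`.
Case `K ≥ 2`: for `v ∈ items G X` choose the family `𝒦 v` of `exists_family` (`m / 2 + 1` pairwise
disjoint connectors contained in `U`, sizes 1 or 2).  Put
`Φ x = (2/3) β ∑_{v ∈ items} ∏_{Z ∈ 𝒦 v} (1 - ∏_{u ∈ Z} x u)
        + ∑_{T ∈ Lf} ∏_{t ∈ T \ X} (x t + (1 - x t) ρ)`,
affine in each coordinate (`MA_blocks`, `MA_avoid`, `MA.sum`, `MA.const_mul`, `MA.add`).
Let `x = q` on `U` and `0` elsewhere.  `1 - q ^ |Z| ≤ 1 - q ^ 2` as `1 ≤ |Z| ≤ 2`, `0 ≤ q ≤ 1`, so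
each product over `𝒦 v` is at most `(1 - q^2) ^ (m/2 + 1) ≤ 1/4`; and `T \ X ⊆ U`, so the second
sum is `∑ (q + (1 - q) ρ) ^ |T \ X|`.  `MA.round` gives `W` with `W ⊆ U` (as `x v ≠ 0` only on `U`)
and `Φ (ind W) ≤ Φ x ≤ (1/6) β K + ∑ (q + (1-q) ρ) ^ |T \ X|`.
If `v` is alone (module Halve) then no `Z ∈ 𝒦 v` is contained in `W` (otherwise, with `c` from the
connector, `Conn G (X ∪ W) v c` and `not_alone`), so every factor `1 - ∏_{u ∈ Z} ind W u` is `1`;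
all factors are `≥ 0`.  Hence the first part of `Φ (ind W)` is at least `(2/3) β #alone`.
The second part equals `∑ ρ ^ |T \ (X ∪ W)|`.
By `halve`: `(4/3) β (K' - 1) ≤ (2/3) β (K + #alone) - (4/3) β`, `K' = KK G (X ∪ W)`.  Altogether
`(4/3) β (K' - 1) + ∑ ρ^.. ≤ (2/3) β K - (4/3) β + (1/6) β K + ∑ (q + (1-q)ρ)^..`
and `(5/6) K - 4/3 ≤ K - 1`.
-/

set_option autoImplicit false

namespace Pool.Agent.CDom

open Finset

variable {V : Type*} [Fintype V] [LinearOrder V] {G : SimpleGraph V}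

namespace LayerAux

lemma ind_nonneg (W : Finset V) (v : V) : 0 ≤ ind W v := by
  unfold ind
  split_ifs <;> norm_num

lemma ind_le_one (W : Finset V) (v : V) : ind W v ≤ 1 := by
  unfold ind
  split_ifs <;> norm_num

lemma blocks_le {K : Finset (Finset V)} {U : Finset V} {q : ℝ} (hq0 : 0 ≤ q) (hq1 : q ≤ 1)
    (hU : ∀ Z ∈ K, Z ⊆ U) (h2 : ∀ Z ∈ K, Z.card ≤ 2) :
    ∏ Z ∈ K, (1 - ∏ u ∈ Z, (if u ∈ U then q else 0 : ℝ)) ≤ (1 - q ^ 2) ^ K.card := by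
  rw [← Finset.prod_const]
  have h1 : ∀ Z ∈ K, ∏ u ∈ Z, (if u ∈ U then q else 0 : ℝ) = q ^ Z.card := by
    intro Z hZ
    rw [← Finset.prod_const]
    exact Finset.prod_congr rfl fun u hu => if_pos (hU Z hZ hu)
  refine Finset.prod_le_prod (fun Z hZ => ?_) (fun Z hZ => ?_)
  · rw [h1 Z hZ]
    have := pow_le_one₀ (n := Z.card) hq0 hq1
    linarith
  · rw [h1 Z hZ]
    have := pow_le_pow_of_le_one hq0 hq1 (h2 Z hZ)
    linarith

lemma blocks_nonneg (K : Finset (Finset V)) (W : Finset V) :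
    0 ≤ ∏ Z ∈ K, (1 - ∏ u ∈ Z, ind W u) := by
  refine Finset.prod_nonneg fun Z _ => ?_
  have := Finset.prod_le_one (s := Z) (fun u _ => ind_nonneg W u) (fun u _ => ind_le_one W u)
  linarith

lemma blocks_eq_one {K : Finset (Finset V)} {W : Finset V} (h : ∀ Z ∈ K, ¬ Z ⊆ W) :
    ∏ Z ∈ K, (1 - ∏ u ∈ Z, ind W u) = 1 := by
  refine Finset.prod_eq_one fun Z hZ => ?_
  obtain ⟨u, hu, huW⟩ := Finset.not_subset.1 (h Z hZ)
  rw [Finset.prod_eq_zero hu, sub_zero]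
  unfold ind
  rw [if_neg huW]

lemma avoid_ind (T X W : Finset V) (ρ : ℝ) :
    ∏ t ∈ T \ X, (ind W t + (1 - ind W t) * ρ) = ρ ^ (T \ (X ∪ W)).card := by
  have h1 : ∀ t ∈ T \ X, (ind W t + (1 - ind W t) * ρ) = if t ∈ W then 1 else ρ := by
    intro t _
    unfold ind
    split_ifs <;> ring
  rw [Finset.prod_congr rfl h1, Finset.prod_ite, Finset.prod_const_one, one_mul, Finset.prod_const]
  congr 2
  ext t
  simp only [Finset.mem_filter, Finset.mem_sdiff, Finset.mem_union]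
  tauto

lemma avoid_x {T X U : Finset V} {q : ℝ} (ρ : ℝ) (hT : T ⊆ X ∪ U) :
    ∏ t ∈ T \ X, ((if t ∈ U then q else 0 : ℝ) + (1 - (if t ∈ U then q else 0 : ℝ)) * ρ) =
      (q + (1 - q) * ρ) ^ (T \ X).card := by
  rw [← Finset.prod_const]
  refine Finset.prod_congr rfl fun t ht => ?_
  rw [Finset.mem_sdiff] at ht
  rw [if_pos ((Finset.mem_union.1 (hT ht.1)).resolve_left ht.2)]

end LayerAux

open LayerAux in
theorem layer (X U : Finset V) (Lf : Finset (Finset V)) (m : ℕ) (q ρ β : ℝ) (hq0 : 0 ≤ q)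
    (hq1 : q ≤ 1) (hρ0 : 0 ≤ ρ) (hρ1 : ρ ≤ 1) (hβ : 0 ≤ β) (hXU : Disjoint X U)
    (hdom : ∀ v, Dom G X v)
    (hcut : ∀ S, S ⊆ U → S.card ≤ m → CDS G (X ∪ (U \ S)))
    (hL : ∀ T ∈ Lf, T ⊆ X ∪ U) (hqm : (1 - q ^ 2) ^ (m / 2 + 1) ≤ 1 / 4) :
    ∃ W ⊆ U, (4 / 3 * β) * ((KK G (X ∪ W) : ℝ) - 1) + ∑ T ∈ Lf, ρ ^ (T \ (X ∪ W)).card ≤
      β * ((KK G X : ℝ) - 1) + ∑ T ∈ Lf, (q + (1 - q) * ρ) ^ (T \ X).card := by
  classical
  have hne : (X ∪ (U \ ∅)).Nonempty := (hcut ∅ (Finset.empty_subset U) (Nat.zero_le m)).1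
  haveI : Nonempty V := ⟨hne.choose⟩
  have hK1 : 1 ≤ KK G X := one_le_KK
  rcases Nat.lt_or_ge (KK G X) 2 with hK | hK
  · have hK' : KK G X = 1 := by omega
    refine ⟨∅, Finset.empty_subset U, ?_⟩
    rw [Finset.union_empty, hK', Nat.cast_one, sub_self, mul_zero, mul_zero, zero_add, zero_add]
    refine Finset.sum_le_sum fun T _ => pow_le_pow_left₀ hρ0 ?_ _
    nlinarith [mul_nonneg hq0 (sub_nonneg.2 hρ1)]
  have hfam := fun v (hv : v ∈ items G X) => exists_family X U m hXU hdom hcut v hv hK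
  choose! Ks hKs1 hKs2 hKs3 using hfam
  have hMA : MA (fun x : V → ℝ => (2 / 3 * β) * ∑ v ∈ items G X,
      ∏ Z ∈ Ks v, (1 - ∏ u ∈ Z, x u) + ∑ T ∈ Lf, ∏ t ∈ T \ X, (x t + (1 - x t) * ρ)) :=
    MA.add (MA.const_mul _ (MA.sum _ fun v hv => MA_blocks (Ks v) (hKs2 v hv)))
      (MA.sum _ fun T _ => MA_avoid _ _)
  obtain ⟨W, hW1, hW2⟩ := hMA.round (fun v => if v ∈ U then q else 0) (fun v => by
    split_ifs
    · exact ⟨hq0, hq1⟩
    · exact ⟨le_rfl, zero_le_one⟩)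
  have hWU : W ⊆ U := by
    intro v hv
    by_contra h
    exact hW1 v hv (if_neg h)
  refine ⟨W, hWU, ?_⟩
  dsimp only at hW2
  have e1 : ∑ T ∈ Lf, ∏ t ∈ T \ X, (ind W t + (1 - ind W t) * ρ) =
      ∑ T ∈ Lf, ρ ^ (T \ (X ∪ W)).card := Finset.sum_congr rfl fun T _ => avoid_ind T X W ρ
  have e2 : ∑ T ∈ Lf, ∏ t ∈ T \ X,
      ((if t ∈ U then q else 0 : ℝ) + (1 - (if t ∈ U then q else 0 : ℝ)) * ρ) =
      ∑ T ∈ Lf, (q + (1 - q) * ρ) ^ (T \ X).card :=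
    Finset.sum_congr rfl fun T hT => avoid_x ρ (hL T hT)
  rw [e1, e2] at hW2
  have hitem : ∀ v ∈ items G X, v ∈ X := by
    intro v hv
    rcases mem_items.1 hv with h | h
    · exact absurd (hdom v) h
    · exact h.1
  have h1 : ∑ v ∈ items G X, ∏ Z ∈ Ks v, (1 - ∏ u ∈ Z, (if u ∈ U then q else 0 : ℝ)) ≤
      (KK G X : ℝ) * (1 / 4) := by
    have h2 : ∀ v ∈ items G X, ∏ Z ∈ Ks v, (1 - ∏ u ∈ Z, (if u ∈ U then q else 0 : ℝ)) ≤ 1 / 4 := by
      intro v hv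
      refine (blocks_le hq0 hq1 (fun Z hZ => (hKs1 v hv Z hZ).1)
        (fun Z hZ => (hKs1 v hv Z hZ).2.2.1)).trans ?_
      rw [hKs3 v hv]
      exact hqm
    have h3 := Finset.sum_le_card_nsmul _ _ _ h2
    rwa [nsmul_eq_mul] at h3
  have h2 : ((alone G X W).card : ℝ) ≤ ∑ v ∈ items G X, ∏ Z ∈ Ks v, (1 - ∏ u ∈ Z, ind W u) := by
    have hsub : alone G X W ⊆ items G X := Finset.filter_subset _ _
    have h3 : ((alone G X W).card : ℝ) =
        ∑ v ∈ alone G X W, ∏ Z ∈ Ks v, (1 - ∏ u ∈ Z, ind W u) := by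
      rw [Finset.card_eq_sum_ones, Nat.cast_sum]
      refine Finset.sum_congr rfl fun v hv => ?_
      rw [blocks_eq_one, Nat.cast_one]
      intro Z hZ hZW
      obtain ⟨-, -, -, c, hc, hc1, hc2⟩ := hKs1 v (hsub hv) Z hZ
      exact not_alone X W (hsub hv) (hitem v (hsub hv)) hc hc1
        (conn_mono (Finset.union_subset_union_right hZW) hc2) hv
    rw [h3]
    exact Finset.sum_le_sum_of_subset_of_nonneg hsub fun v _ _ => blocks_nonneg _ _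
  have h3 := halve (G := G) X W hdom
  have h4 : 2 * (KK G (X ∪ W) : ℝ) ≤ KK G X + (alone G X W).card := by exact_mod_cast h3
  have h5 : (0 : ℝ) ≤ 2 / 3 * β := by positivity
  have h6 := mul_le_mul_of_nonneg_left h1 h5
  have h7 := mul_le_mul_of_nonneg_left h2 h5
  have h8 := mul_le_mul_of_nonneg_left h4 h5
  have h9 : 0 ≤ β * (KK G X : ℝ) := mul_nonneg hβ (Nat.cast_nonneg _)
  nlinarith

end Pool.Agent.CDom
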