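import Mathlib
import Pool.Agent.CDom.Defs

/-!
# MODULE CDom/Num  (MP_6e88d0_lc)

Numerical facts on the parameters `tau lam = lam + 3`, `ell lam = 3 lam + 3`, `mm lam = 36 ell^2`.

Proofs.
* `num1`: `2 l (1/2)^(lam+3) ≤ 1/4`; `(3/4)^3 < 1/2`, `mm lam + 1 ≥ 3 (lam + 1)`, so
  `n (3/4)^(mm + 1) ≤ 2^lam ((3/4)^3)^(lam+1) ≤ 2^lam (1/2)^(lam+1) = 1/2`.
* `num2`: with `x = 1/(9 ell^2)`: `mm/2 + 1 = 18 ell^2 + 1 ≥ 2 (9 ell^2)` and
  `(1 - x)^(9 ell^2) ≤ 1 / (1 + 9 ell^2 x) = 1/2` (Bernoulli: `(1-x)^N (1 + N x) ≤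
  (1-x)^N (1+x)^N ≤ 1`).
* `num3`: Bernoulli `1 - ell q ≤ (1-q)^ell` (`one_add_mul_le_pow`).
* `num4`: `(4/3)^3 = 64/27 ≥ 2`, so `(4/3)^(3 lam + 3) ≥ 2^(lam+1) ≥ 2 n`.
* `num5` is used for the number of fast steps: `(1 - 1/a)^(a (lam + 1)) ≤ (1/2)^(lam+1)` (same
  argument as `num2`), so `x < 1` if `x ≤ 2^lam ((a-1)/a)^(a (lam+1))`; in integers:
  `2^lam * (a-1)^(a (lam+1)) < a^(a (lam+1))`.
-/

set_option autoImplicit false

namespace Pool.Agent.CDom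

theorem num_aux_half (N : ℕ) (hN : 1 ≤ N) : (1 - 1 / (N : ℝ)) ^ N ≤ 1 / 2 := by
  have hN0 : (0 : ℝ) < N := by exact_mod_cast hN
  set x : ℝ := 1 / (N : ℝ) with hx
  have hx0 : 0 < x := by positivity
  have hx1 : x ≤ 1 := by
    rw [hx, div_le_one hN0]
    exact_mod_cast hN
  have hNx : (N : ℝ) * x = 1 := by
    rw [hx]; field_simp
  have h1 : 2 ≤ (1 + x) ^ N := by
    have := one_add_mul_le_pow (a := x) (by linarith) N
    rw [hNx] at this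
    linarith
  have h2 : (1 - x) ^ N * (1 + x) ^ N ≤ 1 := by
    rw [← mul_pow]
    apply pow_le_one₀
    · nlinarith
    · nlinarith
  have h3 : 0 ≤ (1 - x) ^ N := pow_nonneg (by linarith) N
  nlinarith

theorem num1 (lam n l : ℕ) (hn : n ≤ 2 ^ lam) (hl : l ≤ 2 ^ lam) :
    (n : ℝ) * (3 / 4) ^ (mm lam + 1) + 2 * ((l : ℝ) * (1 / 2) ^ tau lam) < 1 := by
  have hn' : (n : ℝ) ≤ 2 ^ lam := by exact_mod_cast hn
  have hl' : (l : ℝ) ≤ 2 ^ lam := by exact_mod_cast hl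
  have h1 : (l : ℝ) * (1 / 2) ^ tau lam ≤ 1 / 8 := by
    calc (l : ℝ) * (1 / 2) ^ tau lam ≤ 2 ^ lam * (1 / 2) ^ tau lam := by gcongr
      _ = (2 * (1 / 2)) ^ lam * (1 / 8) := by
          unfold tau
          rw [pow_add, mul_pow]
          ring
      _ = 1 / 8 := by norm_num
  have h2 : (3 / 4 : ℝ) ^ (mm lam + 1) ≤ (3 / 4) ^ (3 * (lam + 1)) := by
    apply pow_le_pow_of_le_one (by norm_num) (by norm_num)
    unfold mm ell
    nlinarith [Nat.zero_le lam]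
  have h3 : (3 / 4 : ℝ) ^ (3 * (lam + 1)) ≤ (1 / 2) ^ (lam + 1) := by
    rw [pow_mul]
    apply pow_le_pow_left₀ (by norm_num)
    norm_num
  have h4 : (n : ℝ) * (3 / 4) ^ (mm lam + 1) ≤ 1 / 2 := by
    calc (n : ℝ) * (3 / 4) ^ (mm lam + 1) ≤ 2 ^ lam * (1 / 2) ^ (lam + 1) := by
          apply mul_le_mul hn' (h2.trans h3) (by positivity) (by positivity)
      _ = (2 * (1 / 2)) ^ lam * (1 / 2) := by
          rw [pow_succ, mul_pow]
          ring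
      _ = 1 / 2 := by norm_num
  linarith

theorem num2 (lam : ℕ) :
    (1 - (1 / (3 * (ell lam : ℝ))) ^ 2) ^ (mm lam / 2 + 1) ≤ 1 / 4 := by
  have he : 1 ≤ ell lam := by unfold ell; omega
  have he' : (1 : ℝ) ≤ ell lam := by exact_mod_cast he
  have hN : 1 ≤ 9 * ell lam ^ 2 := by
    have : 0 < ell lam ^ 2 := by positivity
    omega
  have hq : (1 / (3 * (ell lam : ℝ))) ^ 2 = 1 / ((9 * ell lam ^ 2 : ℕ) : ℝ) := by
    push_cast
    rw [div_pow]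
    congr 1
    · norm_num
    · ring
  rw [hq]
  have hh := num_aux_half (9 * ell lam ^ 2) hN
  have hN0 : (0 : ℝ) < ((9 * ell lam ^ 2 : ℕ) : ℝ) := by exact_mod_cast hN
  have hN1 : (1 : ℝ) ≤ ((9 * ell lam ^ 2 : ℕ) : ℝ) := by exact_mod_cast hN
  have h0 : 0 ≤ 1 - 1 / ((9 * ell lam ^ 2 : ℕ) : ℝ) := by
    have : 1 / ((9 * ell lam ^ 2 : ℕ) : ℝ) ≤ 1 := by
      rw [div_le_one hN0]
      exact hN1
    linarith
  have h1 : 1 - 1 / ((9 * ell lam ^ 2 : ℕ) : ℝ) ≤ 1 := by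
    have : 0 < 1 / ((9 * ell lam ^ 2 : ℕ) : ℝ) := by positivity
    linarith
  have hex : 9 * ell lam ^ 2 * 2 ≤ mm lam / 2 + 1 := by
    unfold mm
    omega
  calc (1 - 1 / ((9 * ell lam ^ 2 : ℕ) : ℝ)) ^ (mm lam / 2 + 1)
      ≤ (1 - 1 / ((9 * ell lam ^ 2 : ℕ) : ℝ)) ^ (9 * ell lam ^ 2 * 2) :=
        pow_le_pow_of_le_one h0 h1 hex
    _ = ((1 - 1 / ((9 * ell lam ^ 2 : ℕ) : ℝ)) ^ (9 * ell lam ^ 2)) ^ 2 := by rw [pow_mul]
    _ ≤ (1 / 2) ^ 2 := by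
        apply pow_le_pow_left₀ (pow_nonneg h0 _) hh
    _ = 1 / 4 := by norm_num

theorem num3 (lam : ℕ) :
    0 ≤ 1 - (1 - 1 / (3 * (ell lam : ℝ))) ^ ell lam ∧
      1 - (1 - 1 / (3 * (ell lam : ℝ))) ^ ell lam ≤ 1 / 3 := by
  have he : 1 ≤ ell lam := by unfold ell; omega
  have he' : (1 : ℝ) ≤ ell lam := by exact_mod_cast he
  have h3 : (0 : ℝ) < 3 * (ell lam : ℝ) := by linarith
  have hq1 : 1 / (3 * (ell lam : ℝ)) ≤ 1 := by
    rw [div_le_one h3]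
    linarith
  have hq0 : 0 < 1 / (3 * (ell lam : ℝ)) := by positivity
  constructor
  · have : (1 - 1 / (3 * (ell lam : ℝ))) ^ ell lam ≤ 1 := by
      apply pow_le_one₀ <;> linarith
    linarith
  · have h := one_add_mul_le_pow (a := -(1 / (3 * (ell lam : ℝ)))) (by linarith) (ell lam)
    have h2 : (ell lam : ℝ) * -(1 / (3 * (ell lam : ℝ))) = -(1 / 3) := by
      field_simp
    rw [h2, ← sub_eq_add_neg, ← sub_eq_add_neg] at h
    linarith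

theorem num4 (lam n : ℕ) (h1 : 1 ≤ n) (hn : n ≤ 2 ^ lam) :
    1 ≤ (4 / 3 : ℝ) ^ ell lam * (1 / (2 * (n : ℝ))) := by
  have hn' : (n : ℝ) ≤ 2 ^ lam := by exact_mod_cast hn
  have hn1 : (1 : ℝ) ≤ n := by exact_mod_cast h1
  have h2 : (2 : ℝ) ^ (lam + 1) ≤ (4 / 3 : ℝ) ^ ell lam := by
    have : ell lam = 3 * (lam + 1) := by unfold ell; ring
    rw [this, pow_mul]
    apply pow_le_pow_left₀ (by norm_num)
    norm_num
  have h3 : 2 * (n : ℝ) ≤ (4 / 3 : ℝ) ^ ell lam := by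
    calc 2 * (n : ℝ) ≤ 2 * 2 ^ lam := by gcongr
      _ = 2 ^ (lam + 1) := by ring
      _ ≤ _ := h2
  rw [mul_one_div, le_div_iff₀ (by linarith)]
  linarith

theorem num_aux_bern (b k : ℕ) : b ^ k * (b + k) ≤ (b + 1) ^ k * b := by
  induction k with
  | zero => simp
  | succ k ih =>
    calc b ^ (k + 1) * (b + (k + 1)) ≤ (b + 1) * (b ^ k * (b + k)) := by
          have : b ^ (k + 1) * (b + (k + 1)) + b ^ k * k = (b + 1) * (b ^ k * (b + k)) := by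
            ring
          omega
      _ ≤ (b + 1) * ((b + 1) ^ k * b) := Nat.mul_le_mul_left _ ih
      _ = (b + 1) ^ (k + 1) * b := by ring

theorem num_aux_two (a : ℕ) (ha : 1 ≤ a) : 2 * (a - 1) ^ a ≤ a ^ a := by
  obtain ⟨b, rfl⟩ : ∃ b, a = b + 1 := ⟨a - 1, by omega⟩
  rw [Nat.add_sub_cancel]
  rcases Nat.eq_zero_or_pos b with rfl | hb
  · simp
  · have h := num_aux_bern b (b + 1)
    have h2 : (2 * b ^ (b + 1)) * b ≤ (b + 1) ^ (b + 1) * b := by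
      calc (2 * b ^ (b + 1)) * b ≤ b ^ (b + 1) * (b + (b + 1)) := by
            have : b ^ (b + 1) * (b + (b + 1)) = (2 * b ^ (b + 1)) * b + b ^ (b + 1) := by ring
            omega
        _ ≤ _ := h
    exact Nat.le_of_mul_le_mul_right h2 hb

theorem num5 (lam a : ℕ) (ha : 1 ≤ a) :
    2 ^ lam * (a - 1) ^ (a * (lam + 1)) < a ^ (a * (lam + 1)) := by
  have h := Nat.pow_le_pow_left (num_aux_two a ha) (lam + 1)
  rw [mul_pow, ← pow_mul, ← pow_mul] at h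
  have hpos : 0 < a ^ (a * (lam + 1)) := by positivity
  have h2 : 2 ^ (lam + 1) * (a - 1) ^ (a * (lam + 1)) =
      2 * (2 ^ lam * (a - 1) ^ (a * (lam + 1))) := by ring
  omega

end Pool.Agent.CDom
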