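import Mathlib
import Pool.Agent.CDom.Defs
import Pool.Agent.CDom.Basic
import Pool.Agent.CDom.Meas
import Pool.Agent.CDom.Round
import Pool.Agent.CDom.Layer
import Pool.Agent.CDom.Num

/-!
# MODULE CDom/Sample  (MP_6e88d0_lc)

The sampling lemma: if no cut has size `≤ mm` and all `T ∈ Lf` are large outside `X`, then some
`W ⊆ U` completes `X` to a connected dominating set containing no `T ∈ Lf`.

Proof of `first_layer`.  For `y` not dominated by `X` let `N y = U.filter (w = y ∨ G.Adj w y)`.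
`m + 1 ≤ |N y|`: otherwise `X ∪ (U \ N y)` would be a CDS (`hcut`), but it does not dominate `y`
(`y ∉ X`, `y ∉ U \ N y`, no neighbour in `X`, none in `U \ N y`).
`Φ x = ∑_{y not dominated} ∏_{w ∈ N y} (1 - x w) + 2 ∑_{T ∈ Lf} ∏_{t ∈ T \ X} (x t + (1 - x t) ρ)`
is affine in each coordinate (`MA_none`, `MA_avoid`).  At `x = 1/4` on `U`, `0` elsewhere:
`Φ x ≤ n (3/4)^(m+1) + 2 |Lf| (1/2)^τ < 1`, because `1/4 + 3/4 ρ ≤ 1/2` and `|T \ X| ≥ τ`.
`MA.round`: `W ⊆ U` with `Φ (ind W) < 1`.  If `y` is not dominated by `X ∪ W` then it is not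
dominated by `X` and `N y ∩ W = ∅`, so its product is `1`, all other terms are `≥ 0`: contradiction.
And `2 ∑ ρ ^ |T \ (X ∪ W)| < 1`.

Proof of `layers` by induction on `j`.
`j = 0`: `β (KK - 1) + ∑ 0^|T \ X| < 1` with `β ≥ 1` (here `1 - (1-q)^0 = 0`): if `KK G X ≥ 2` the
first term is `≥ 1`; so `KK G X ≤ 1`, `X` is nonempty, `X` is a CDS (`cds_iff_KK`); if `T ⊆ X` the
sum is `≥ 1` (`0 ^ 0 = 1`) while `β (KK - 1) ≥ 0`.  `W = ∅`.
`j + 1`: with `ρ = 1 - (1-q)^j` one has `q + (1-q) ρ = 1 - (1-q)^(j+1)`.  Apply `layer`, get `W`;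
`X' = X ∪ W`, `U' = U \ W`; `hcut` for `X', U'`: for `S ⊆ U \ W`,
`(X ∪ W) ∪ ((U \ W) \ S) = X ∪ (U \ S)`.  `T ⊆ X' ∪ U'`.  Apply the induction hypothesis with
`4/3 β`, get `W'`, and take `W ∪ W'`.

Proof of `sample`: `V` is nonempty (`hcut ∅` gives a CDS).  `q = 1/(3 ell)`, `j = ell`,
`ρ = 1 - (1-q)^ell ≤ 1/3`; `first_layer` gives `W0`; then `layers` with `β = 1/(2 n)`,
`n = Fintype.card V`: `β (KK - 1) ≤ β n = 1/2` (`KK ≤ n`), and `∑ < 1/2`.
-/

set_option autoImplicit false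

namespace Pool.Agent.CDom

open Finset

variable {V : Type*} [Fintype V] [LinearOrder V] {G : SimpleGraph V}

omit [Fintype V] in
theorem prod_ind_eq (A W : Finset V) (ρ : ℝ) :
    ∏ t ∈ A, (ind W t + (1 - ind W t) * ρ) = ρ ^ (A \ W).card := by
  have h1 : ∀ t ∈ A, (ind W t + (1 - ind W t) * ρ) = if t ∈ W then 1 else ρ := by
    intro t _
    unfold ind
    split_ifs <;> ring
  rw [Finset.prod_congr rfl h1, Finset.prod_ite, Finset.prod_const_one, one_mul,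
    Finset.prod_const]
  congr 1
  congr 1
  ext t
  simp only [Finset.mem_filter, Finset.mem_sdiff]

omit [Fintype V] in
theorem cut_card {X U : Finset V} {m : ℕ}
    (hcut : ∀ S, S ⊆ U → S.card ≤ m → CDS G (X ∪ (U \ S))) {y : V} (hy : ¬ Dom G X y)
    (S : Finset V) (hSU : S ⊆ U) (hS : ∀ w ∈ U, (w = y ∨ G.Adj w y) → w ∈ S) :
    m + 1 ≤ S.card := by
  by_contra hcon
  have h1 := (hcut S hSU (by omega)).2.1 y
  rcases h1 with h1 | ⟨u, h1, h2⟩
  · rcases Finset.mem_union.1 h1 with h3 | h3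
    · exact hy (Or.inl h3)
    · rw [Finset.mem_sdiff] at h3
      exact h3.2 (hS y h3.1 (Or.inl rfl))
  · rcases Finset.mem_union.1 h1 with h3 | h3
    · exact hy (Or.inr ⟨u, h3, h2⟩)
    · rw [Finset.mem_sdiff] at h3
      exact h3.2 (hS u h3.1 (Or.inr h2))

theorem first_layer (X U : Finset V) (Lf : Finset (Finset V)) (m τ : ℕ) (ρ : ℝ) (hρ0 : 0 ≤ ρ)
    (hρ1 : ρ ≤ 1 / 3) (hXU : Disjoint X U)
    (hcut : ∀ S, S ⊆ U → S.card ≤ m → CDS G (X ∪ (U \ S)))
    (hL : ∀ T ∈ Lf, T ⊆ X ∪ U) (hT : ∀ T ∈ Lf, τ ≤ (T \ X).card)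
    (hnum : (Fintype.card V : ℝ) * (3 / 4) ^ (m + 1) + 2 * ((Lf.card : ℝ) * (1 / 2) ^ τ) < 1) :
    ∃ W ⊆ U, (∀ v, Dom G (X ∪ W) v) ∧ ∑ T ∈ Lf, ρ ^ (T \ (X ∪ W)).card < 1 / 2 := by
  classical
  have _ := hXU
  obtain ⟨UD, hUD⟩ : ∃ UD : Finset V, ∀ v, v ∈ UD ↔ ¬ Dom G X v :=
    ⟨univ.filter fun v => ¬ Dom G X v, fun v => by simp⟩
  obtain ⟨N, hN⟩ : ∃ N : V → Finset V, ∀ y w, w ∈ N y ↔ w ∈ U ∧ (w = y ∨ G.Adj w y) :=
    ⟨fun y => U.filter fun w => w = y ∨ G.Adj w y, fun y w => by simp⟩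
  have hNc : ∀ y, ¬ Dom G X y → m + 1 ≤ (N y).card := by
    intro y hy
    exact cut_card hcut hy (N y) (fun w hw => ((hN y w).1 hw).1)
      (fun w hw h => (hN y w).2 ⟨hw, h⟩)
  set Φ : (V → ℝ) → ℝ := fun x => (∑ y ∈ UD, ∏ w ∈ N y, (1 - x w)) +
    2 * ∑ T ∈ Lf, ∏ t ∈ T \ X, (x t + (1 - x t) * ρ) with hΦ
  have hMA : MA Φ := by
    refine MA.add (MA.sum UD (F := fun y x => ∏ w ∈ N y, (1 - x w)) fun y _ => MA_none (N y))
      (MA.const_mul 2 (MA.sum Lf (F := fun T x => ∏ t ∈ T \ X, (x t + (1 - x t) * ρ))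
        fun T _ => MA_avoid (T \ X) ρ))
  set x0 : V → ℝ := fun v => if v ∈ U then 1 / 4 else 0 with hx0
  have hx01 : ∀ v, 0 ≤ x0 v ∧ x0 v ≤ 1 := by
    intro v
    simp only [hx0]
    split_ifs <;> norm_num
  obtain ⟨W, hW, hWle⟩ := hMA.round x0 hx01
  have hWU : W ⊆ U := by
    intro v hv
    by_contra hvU
    exact hW v hv (by simp [hx0, hvU])
  have hb1 : ∑ y ∈ UD, ∏ w ∈ N y, (1 - x0 w) ≤ (Fintype.card V : ℝ) * (3 / 4) ^ (m + 1) := by
    have h1 : ∀ y ∈ UD, ∏ w ∈ N y, (1 - x0 w) ≤ (3 / 4 : ℝ) ^ (m + 1) := by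
      intro y hy
      have h2 : ∀ w ∈ N y, (1 - x0 w) = 3 / 4 := by
        intro w hw
        simp only [hx0, if_pos ((hN y w).1 hw).1]
        norm_num
      rw [Finset.prod_congr rfl h2, Finset.prod_const]
      exact pow_le_pow_of_le_one (by norm_num) (by norm_num) (hNc y ((hUD y).1 hy))
    refine (Finset.sum_le_card_nsmul _ _ _ h1).trans ?_
    rw [nsmul_eq_mul]
    have h3 : (UD.card : ℝ) ≤ Fintype.card V := by exact_mod_cast Finset.card_le_univ UD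
    exact mul_le_mul_of_nonneg_right h3 (by positivity)
  have hb2 : ∑ T ∈ Lf, ∏ t ∈ T \ X, (x0 t + (1 - x0 t) * ρ) ≤ (Lf.card : ℝ) * (1 / 2) ^ τ := by
    have h1 : ∀ T ∈ Lf, ∏ t ∈ T \ X, (x0 t + (1 - x0 t) * ρ) ≤ (1 / 2 : ℝ) ^ τ := by
      intro T hTL
      have h2 : ∀ t ∈ T \ X, (x0 t + (1 - x0 t) * ρ) = 1 / 4 + 3 / 4 * ρ := by
        intro t ht
        rw [Finset.mem_sdiff] at ht
        have h3 : t ∈ U := by
          rcases Finset.mem_union.1 (hL T hTL ht.1) with h | h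
          · exact absurd h ht.2
          · exact h
        simp only [hx0, if_pos h3]
        ring
      rw [Finset.prod_congr rfl h2, Finset.prod_const]
      calc (1 / 4 + 3 / 4 * ρ) ^ (T \ X).card ≤ (1 / 2 : ℝ) ^ (T \ X).card :=
            pow_le_pow_left₀ (by positivity) (by linarith) _
        _ ≤ (1 / 2 : ℝ) ^ τ := pow_le_pow_of_le_one (by norm_num) (by norm_num) (hT T hTL)
    refine (Finset.sum_le_card_nsmul _ _ _ h1).trans ?_
    rw [nsmul_eq_mul]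
  have hΦx0 : Φ x0 < 1 := by
    simp only [hΦ]
    linarith
  have hlt : Φ (ind W) < 1 := lt_of_le_of_lt hWle hΦx0
  have hind0 : ∀ v, 0 ≤ ind W v := by
    intro v
    unfold ind
    split_ifs <;> norm_num
  have hind1 : ∀ v, ind W v ≤ 1 := by
    intro v
    unfold ind
    split_ifs <;> norm_num
  have hpos1 : ∀ y ∈ UD, 0 ≤ ∏ w ∈ N y, (1 - ind W w) := fun y _ =>
    Finset.prod_nonneg fun w _ => by linarith [hind1 w]
  have hsum : ∑ T ∈ Lf, ∏ t ∈ T \ X, (ind W t + (1 - ind W t) * ρ) =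
      ∑ T ∈ Lf, ρ ^ (T \ (X ∪ W)).card := by
    apply Finset.sum_congr rfl
    intro T _
    rw [prod_ind_eq, Finset.sdiff_union_distrib]
    congr 2
    ext t
    simp only [Finset.mem_sdiff, Finset.mem_inter]
    tauto
  have hpos2 : 0 ≤ ∑ T ∈ Lf, ρ ^ (T \ (X ∪ W)).card :=
    Finset.sum_nonneg fun T _ => pow_nonneg hρ0 _
  refine ⟨W, hWU, ?_, ?_⟩
  · intro y
    by_contra hy
    have hyUD : y ∈ UD := (hUD y).2 fun h => hy (Dom.mono Finset.subset_union_left h)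
    have h1 : ∏ w ∈ N y, (1 - ind W w) = 1 := by
      apply Finset.prod_eq_one
      intro w hw
      have hwW : w ∉ W := by
        intro hwW
        rcases ((hN y w).1 hw).2 with rfl | h
        · exact hy (Or.inl (Finset.mem_union_right _ hwW))
        · exact hy (Or.inr ⟨w, Finset.mem_union_right _ hwW, h⟩)
      simp [ind, hwW]
    have h2 : 1 ≤ ∑ y ∈ UD, ∏ w ∈ N y, (1 - ind W w) :=
      calc (1 : ℝ) = ∏ w ∈ N y, (1 - ind W w) := h1.symm
        _ ≤ ∑ y ∈ UD, ∏ w ∈ N y, (1 - ind W w) := Finset.single_le_sum hpos1 hyUD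
    simp only [hΦ] at hlt
    rw [hsum] at hlt
    linarith
  · have h2 : 0 ≤ ∑ y ∈ UD, ∏ w ∈ N y, (1 - ind W w) := Finset.sum_nonneg hpos1
    simp only [hΦ] at hlt
    rw [hsum] at hlt
    linarith

theorem layers (m : ℕ) (q : ℝ) (hq0 : 0 ≤ q) (hq1 : q ≤ 1)
    (hqm : (1 - q ^ 2) ^ (m / 2 + 1) ≤ 1 / 4) (Lf : Finset (Finset V)) (j : ℕ) :
    ∀ (X U : Finset V) (β : ℝ), 0 ≤ β → 1 ≤ (4 / 3) ^ j * β → Disjoint X U →
      (∀ v, Dom G X v) → (∀ S, S ⊆ U → S.card ≤ m → CDS G (X ∪ (U \ S))) →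
      (∀ T ∈ Lf, T ⊆ X ∪ U) →
      β * ((KK G X : ℝ) - 1) + ∑ T ∈ Lf, (1 - (1 - q) ^ j) ^ (T \ X).card < 1 →
      ∃ W ⊆ U, CDS G (X ∪ W) ∧ ∀ T ∈ Lf, ¬ T ⊆ X ∪ W := by
  induction j with
  | zero =>
    intro X U β hβ hβ1 hXU hdom hcut hL hlt
    rw [pow_zero, one_mul] at hβ1
    simp only [pow_zero, sub_self] at hlt
    have hne : (X ∪ (U \ ∅)).Nonempty := (hcut ∅ (Finset.empty_subset _) (by simp)).1
    obtain ⟨v0, -⟩ := hne
    have : Nonempty V := ⟨v0⟩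
    have hX : X.Nonempty := by
      rcases hdom v0 with h | ⟨u, h, -⟩
      · exact ⟨_, h⟩
      · exact ⟨_, h⟩
    have hK1 : 1 ≤ KK G X := one_le_KK
    have hK1' : (1 : ℝ) ≤ KK G X := by exact_mod_cast hK1
    have hs0 : 0 ≤ ∑ T ∈ Lf, (0 : ℝ) ^ (T \ X).card :=
      Finset.sum_nonneg fun T _ => pow_nonneg le_rfl _
    have hK : KK G X ≤ 1 := by
      by_contra hcon
      have h2 : (2 : ℝ) ≤ KK G X := by exact_mod_cast (by omega : 2 ≤ KK G X)
      nlinarith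
    refine ⟨∅, Finset.empty_subset _, ?_, ?_⟩
    · rw [Finset.union_empty]
      exact cds_iff_KK.2 ⟨hX, hK⟩
    · intro T hT hTX
      rw [Finset.union_empty] at hTX
      have h3 : (0 : ℝ) ^ (T \ X).card = 1 := by
        rw [Finset.sdiff_eq_empty_iff_subset.2 hTX]
        simp
      have h4 : (1 : ℝ) ≤ ∑ T ∈ Lf, (0 : ℝ) ^ (T \ X).card := by
        rw [← h3]
        exact Finset.single_le_sum (f := fun T : Finset V => (0 : ℝ) ^ (T \ X).card)
          (fun T _ => pow_nonneg le_rfl _) hT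
      have h5 : 0 ≤ β * ((KK G X : ℝ) - 1) := mul_nonneg hβ (by linarith)
      linarith
  | succ j ih =>
    intro X U β hβ hβ1 hXU hdom hcut hL hlt
    have hq1' : 0 ≤ 1 - q := by linarith
    have hp0 : 0 ≤ (1 - q) ^ j := pow_nonneg hq1' j
    have hp1 : (1 - q) ^ j ≤ 1 := pow_le_one₀ hq1' (by linarith)
    obtain ⟨W, hWU, hW⟩ := layer X U Lf m q (1 - (1 - q) ^ j) β hq0 hq1 (by linarith)
      (by linarith) hβ hXU hdom hcut hL hqm
    have he : q + (1 - q) * (1 - (1 - q) ^ j) = 1 - (1 - q) ^ (j + 1) := by ring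
    rw [he] at hW
    obtain ⟨W', hW'U, hW'1, hW'2⟩ := ih (X ∪ W) (U \ W) (4 / 3 * β) (by positivity)
      (by
        calc (1 : ℝ) ≤ (4 / 3) ^ (j + 1) * β := hβ1
          _ = (4 / 3) ^ j * (4 / 3 * β) := by ring)
      (by
        rw [Finset.disjoint_union_left]
        exact ⟨hXU.mono_right Finset.sdiff_subset, Finset.disjoint_sdiff⟩)
      (fun v => Dom.mono Finset.subset_union_left (hdom v))
      (by
        intro S hS hSc
        have h1 : (X ∪ W) ∪ ((U \ W) \ S) = X ∪ (U \ S) := by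
          ext v
          have h2 : v ∈ S → v ∉ W := fun h => (Finset.mem_sdiff.1 (hS h)).2
          have h3 : v ∈ W → v ∈ U := fun h => hWU h
          simp only [Finset.mem_union, Finset.mem_sdiff]
          tauto
        rw [h1]
        exact hcut S (hS.trans Finset.sdiff_subset) hSc)
      (by
        intro T hT v hv
        have h1 := Finset.mem_union.1 (hL T hT hv)
        simp only [Finset.mem_union, Finset.mem_sdiff]
        tauto)
      (lt_of_le_of_lt hW hlt)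
    refine ⟨W ∪ W', ?_, ?_, ?_⟩
    · exact Finset.union_subset hWU (hW'U.trans Finset.sdiff_subset)
    · rw [← Finset.union_assoc]
      exact hW'1
    · intro T hT
      rw [← Finset.union_assoc]
      exact hW'2 T hT

theorem sample (lam : ℕ) (X U : Finset V) (Lf : Finset (Finset V))
    (hn : Fintype.card V ≤ 2 ^ lam) (hLf : Lf.card ≤ 2 ^ lam) (hXU : Disjoint X U)
    (hcut : ∀ S, S ⊆ U → S.card ≤ mm lam → CDS G (X ∪ (U \ S)))
    (hL : ∀ T ∈ Lf, T ⊆ X ∪ U) (hT : ∀ T ∈ Lf, tau lam ≤ (T \ X).card) :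
    ∃ W ⊆ U, CDS G (X ∪ W) ∧ ∀ T ∈ Lf, ¬ T ⊆ X ∪ W := by
  have hne : (X ∪ (U \ ∅)).Nonempty := (hcut ∅ (Finset.empty_subset _) (by simp)).1
  obtain ⟨v0, -⟩ := hne
  have : Nonempty V := ⟨v0⟩
  have hn1 : 1 ≤ Fintype.card V := Fintype.card_pos
  have hn1' : (1 : ℝ) ≤ Fintype.card V := by exact_mod_cast hn1
  obtain ⟨hρ0, hρ1⟩ := num3 lam
  obtain ⟨W0, hW0U, hW0d, hW0s⟩ := first_layer (G := G) X U Lf (mm lam) (tau lam) _ hρ0 hρ1 hXU
    hcut hL hT (num1 lam (Fintype.card V) Lf.card hn hLf)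
  have hell : (1 : ℝ) ≤ ell lam := by
    have : 1 ≤ ell lam := by unfold ell; omega
    exact_mod_cast this
  have hq0 : 0 ≤ 1 / (3 * (ell lam : ℝ)) := by positivity
  have hq1 : 1 / (3 * (ell lam : ℝ)) ≤ 1 := by
    rw [div_le_one (by positivity)]
    linarith
  have hβ0 : 0 ≤ 1 / (2 * (Fintype.card V : ℝ)) := by positivity
  obtain ⟨W, hWU, hW1, hW2⟩ := layers (G := G) (mm lam) (1 / (3 * (ell lam : ℝ))) hq0 hq1
    (num2 lam) Lf (ell lam) (X ∪ W0) (U \ W0) (1 / (2 * (Fintype.card V : ℝ))) hβ0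
    (num4 lam (Fintype.card V) hn1 hn)
    (by
      rw [Finset.disjoint_union_left]
      exact ⟨hXU.mono_right Finset.sdiff_subset, Finset.disjoint_sdiff⟩)
    hW0d
    (by
      intro S hS hSc
      have h1 : (X ∪ W0) ∪ ((U \ W0) \ S) = X ∪ (U \ S) := by
        ext v
        have h2 : v ∈ S → v ∉ W0 := fun h => (Finset.mem_sdiff.1 (hS h)).2
        have h3 : v ∈ W0 → v ∈ U := fun h => hW0U h
        simp only [Finset.mem_union, Finset.mem_sdiff]
        tauto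
      rw [h1]
      exact hcut S (hS.trans Finset.sdiff_subset) hSc)
    (by
      intro T hT' v hv
      have h1 := Finset.mem_union.1 (hL T hT' hv)
      simp only [Finset.mem_union, Finset.mem_sdiff]
      tauto)
    (by
      have h1 : (KK G (X ∪ W0) : ℝ) ≤ Fintype.card V := by exact_mod_cast KK_le_card
      have h2 : 1 / (2 * (Fintype.card V : ℝ)) * ((KK G (X ∪ W0) : ℝ) - 1) ≤ 1 / 2 := by
        rw [div_mul_eq_mul_div, one_mul, div_le_iff₀ (by positivity)]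
        linarith
      linarith)
  refine ⟨W0 ∪ W, ?_, ?_, ?_⟩
  · exact Finset.union_subset hW0U (hWU.trans Finset.sdiff_subset)
  · rw [← Finset.union_assoc]
    exact hW1
  · intro T hT'
    rw [← Finset.union_assoc]
    exact hW2 T hT'

end Pool.Agent.CDom
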