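import Mathlib
import Pool.Agent.CDom.Defs
import Pool.Agent.CDom.Basic
import Pool.Agent.CDom.Meas
import Pool.Agent.CDom.Big
import Pool.Agent.CDom.Sample

/-!
# MODULE CDom/Leaf  (MP_6e88d0_lc)

If there is neither a big nor a heavy vertex, a new connected dominating set exists.

Proof.  `U = univ \ (X ∪ Y)`, `Lf = LY L Y`.  Apply `sample`.
* `hcut`: let `S ⊆ U`, `|S| ≤ mm`, and suppose `X ∪ (U \ S)` is not a CDS.  Every `T ∈ Lf` meets
  `S`: otherwise `T ⊆ X ∪ (U \ S)` (`T` is disjoint from `Y`) and `CDS.mono` applied to the CDS `T`.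
  So `|Lf| ≤ ∑_{u ∈ S} #{T ∈ Lf : u ∈ T}`; as `Lf ≠ ∅`, `S ≠ ∅` and some `u ∈ S` has
  `|Lf| ≤ |S| * #{T ∈ Lf : u ∈ T} ≤ mm * #{..}`; `u` is heavy: contradiction.
* `hT`: if `T ∈ Lf` and `|T \ X| ≤ tau` then (`¬ T ⊆ X`, `CDS G (X ∪ T)`, `2 tau ≤ KK G X`)
  `exists_big'` gives `u ∈ T \ X` with the inequality of `Big`, and `u ∉ Y`: contradiction.
`D = X ∪ W` is disjoint from `Y`; a `T ∈ L` with `T ⊆ D` is disjoint from `Y`, so in `Lf`.
-/

set_option autoImplicit false

namespace Pool.Agent.CDom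

open Finset

variable {V : Type*} [Fintype V] [LinearOrder V] {G : SimpleGraph V}

theorem leaf_new (lam : ℕ) (L : Finset (Finset V)) (X Y : Finset V)
    (hn : Fintype.card V ≤ 2 ^ lam) (hLc : L.card ≤ 2 ^ lam) (hL : ∀ T ∈ L, CDS G T)
    (hXY : Disjoint X Y) (hno : ∀ T ∈ L, ¬ T ⊆ X) (hK : 2 * tau lam ≤ KK G X)
    (hne : (LY L Y).Nonempty) (hbig : ∀ u, ¬ Big G lam X Y u) (hheavy : ∀ u, ¬ Heavy L lam X Y u) :
    ∃ D, CDS G D ∧ Disjoint D Y ∧ ∀ T ∈ L, ¬ T ⊆ D := by
  classical
  have hLfL : ∀ T, T ∈ LY L Y → T ∈ L ∧ Disjoint T Y := by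
    intro T hT
    unfold LY at hT
    rw [Finset.mem_filter] at hT
    exact hT
  have hcut : ∀ S ⊆ univ \ (X ∪ Y), S.card ≤ mm lam →
      CDS G (X ∪ ((univ \ (X ∪ Y)) \ S)) := by
    intro S hS hSc
    by_contra hcon
    have hmeet : ∀ T ∈ LY L Y, ∃ u ∈ S, u ∈ T := by
      intro T hT
      by_contra hno'
      push Not at hno'
      apply hcon
      refine CDS.mono (hL T (hLfL T hT).1) ?_
      intro v hv
      by_cases hvX : v ∈ X
      · exact Finset.mem_union_left _ hvX
      · apply Finset.mem_union_right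
        rw [Finset.mem_sdiff, Finset.mem_sdiff]
        refine ⟨⟨Finset.mem_univ _, ?_⟩, fun hvS => hno' v hvS hv⟩
        rw [Finset.mem_union]
        rintro (h | h)
        · exact hvX h
        · exact Finset.disjoint_left.mp (hLfL T hT).2 hv h
    have hle : (LY L Y).card ≤ ∑ u ∈ S, ((LY L Y).filter (fun T => u ∈ T)).card := by
      calc (LY L Y).card ≤ (S.biUnion (fun u => (LY L Y).filter (fun T => u ∈ T))).card := by
            apply Finset.card_le_card
            intro T hT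
            obtain ⟨u, huS, huT⟩ := hmeet T hT
            rw [Finset.mem_biUnion]
            exact ⟨u, huS, Finset.mem_filter.mpr ⟨hT, huT⟩⟩
        _ ≤ _ := Finset.card_biUnion_le
    have hlt : ∀ u ∈ S, mm lam * ((LY L Y).filter (fun T => u ∈ T)).card < (LY L Y).card := by
      intro u huS
      by_contra hcon2
      push Not at hcon2
      apply hheavy u
      have huU := hS huS
      rw [Finset.mem_sdiff, Finset.mem_union] at huU
      push Not at huU
      refine ⟨huU.2.1, huU.2.2, ?_⟩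
      exact hcon2
    obtain ⟨T, hT⟩ := hne
    obtain ⟨u0, hu0, _⟩ := hmeet T hT
    have h1 : mm lam * (LY L Y).card < mm lam * (LY L Y).card := by
      calc mm lam * (LY L Y).card
          ≤ mm lam * ∑ u ∈ S, ((LY L Y).filter (fun T => u ∈ T)).card :=
            Nat.mul_le_mul_left _ hle
        _ = ∑ u ∈ S, mm lam * ((LY L Y).filter (fun T => u ∈ T)).card := Finset.mul_sum _ _ _
        _ < ∑ u ∈ S, (LY L Y).card := Finset.sum_lt_sum_of_nonempty ⟨u0, hu0⟩ hlt
        _ = S.card * (LY L Y).card := by rw [Finset.sum_const, smul_eq_mul]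
        _ ≤ mm lam * (LY L Y).card := Nat.mul_le_mul_right _ hSc
    exact lt_irrefl _ h1
  have hT : ∀ T ∈ LY L Y, tau lam ≤ (T \ X).card := by
    intro T hT
    by_contra hcon
    push Not at hcon
    obtain ⟨u, hu, hu2⟩ := exists_big' (G := G) X T
      (CDS.mono (hL T (hLfL T hT).1) Finset.subset_union_right)
      (hno T (hLfL T hT).1) (tau lam) hcon.le hK
    rw [Finset.mem_sdiff] at hu
    exact hbig u ⟨hu.2, Finset.disjoint_left.mp (hLfL T hT).2 hu.1, hu2⟩
  have hXU : Disjoint X (univ \ (X ∪ Y)) := by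
    rw [Finset.disjoint_left]
    intro v hv hv2
    rw [Finset.mem_sdiff, Finset.mem_union] at hv2
    exact hv2.2 (Or.inl hv)
  have hLsub : ∀ T ∈ LY L Y, T ⊆ X ∪ (univ \ (X ∪ Y)) := by
    intro T hT v hv
    by_cases hvX : v ∈ X
    · exact Finset.mem_union_left _ hvX
    · apply Finset.mem_union_right
      rw [Finset.mem_sdiff, Finset.mem_union]
      refine ⟨Finset.mem_univ _, ?_⟩
      rintro (h | h)
      · exact hvX h
      · exact Finset.disjoint_left.mp (hLfL T hT).2 hv h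
  have hcard : (LY L Y).card ≤ 2 ^ lam := by
    refine le_trans (Finset.card_le_card ?_) hLc
    intro T hT
    exact (hLfL T hT).1
  obtain ⟨W, hWU, hW1, hW2⟩ := sample (G := G) lam X (univ \ (X ∪ Y)) (LY L Y) hn hcard hXU hcut
    hLsub hT
  have hdis : Disjoint (X ∪ W) Y := by
    rw [Finset.disjoint_union_left]
    refine ⟨hXY, ?_⟩
    rw [Finset.disjoint_left]
    intro v hv hvY
    have := hWU hv
    rw [Finset.mem_sdiff, Finset.mem_union] at this
    exact this.2 (Or.inr hvY)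
  refine ⟨X ∪ W, hW1, hdis, ?_⟩
  intro T hTL hTs
  refine hW2 T ?_ hTs
  unfold LY
  rw [Finset.mem_filter]
  exact ⟨hTL, Finset.disjoint_of_subset_left hTs hdis⟩

end Pool.Agent.CDom
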