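import Mathlib
import Pool.Agent.CDom.Defs
import Pool.Agent.CDom.Basic
import Pool.Agent.CDom.Meas
import Pool.Agent.CDom.Num

/-!
# MODULE CDom/Path  (MP_6e88d0_lc)

The branching process.  In a state `(X, Y)` (included, excluded) a function `pick` chooses a vertex
`u` (with a flag `true` for big, `false` for heavy), or nothing.  A step is fast (`f = true`) or slow
(`f = false`): big + fast: include; big + slow: exclude; heavy + fast: exclude; heavy + slow:
include; that is: include iff `f = b`.

Proofs.
* `run_disjoint`: `insert u` of a vertex not in `X ∪ Y` keeps disjointness.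
* `run_stable`: as long as `pick` is not `none`, `|X| + |Y|` grows by one in each step and it is
  at most `|V|` (disjoint sets); once `pick = none` the state does not change any more.  So after
  `|V|` steps `pick = none`.  (Formally: for all `k`, `pick (run k) = none` or
  `k ≤ |X_k| + |Y_k|`; at `k = |V|` the second case would give `X ∪ Y = univ`, but a picked `u` is
  not in `X ∪ Y`.)
* `path_exists`: follow `D`: construct `P` recursively: at time `k` in state `s` with
  `pick = some (b, u)`: `k ∈ P` iff (`u ∈ D` iff `b = true`).  [One can define the sequence of states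
  following `D` by `s (k+1) = include u if u ∈ D, else exclude u`, and put
  `P = {k < N : pick (s k) = some (b, u), (b = true ↔ u ∈ D)}`; then `run P k = s k`.]
  Invariant: `X ⊆ D`, `D` disjoint from `Y`.  Number of fast steps: let `c1` be the number of fast
  big steps (inclusions with `KK G (insert u X) * (2τ) ≤ KK G X * (2τ - 1)`), `c2` the number of fast
  heavy steps (exclusions; `LY L (insert u Y)` = members of `LY L Y` not containing `u`, so
  `|LY L (insert u Y)| * mm ≤ |LY L Y| * (mm - 1)`).  `KK` never increases (`KK_anti`), `|LY|` never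
  increases.  Invariants: `KK G X * (2τ)^c1 ≤ 2^lam * (2τ-1)^c1`, `|LY L Y| * mm^c2 ≤
  2^lam * (mm-1)^c2`.  Before the last fast big step `KK G X ≥ 2τ ≥ 1`, so `(2τ)^(c1-1) ≤
  2^lam (2τ-1)^(c1-1)`, hence `c1 - 1 < 2τ (lam+1)` by `num5` (monotonicity in the exponent:
  `2^lam (a-1)^e < a^e` for all `e ≥ a (lam+1)`), i.e. `c1 ≤ 2τ (lam+1)`; likewise
  `c2 ≤ mm (lam+1)`.  Total `≤ dd lam`.
-/

set_option autoImplicit false

namespace Pool.Agent.CDom

open Finset

variable {V : Type*} [Fintype V] [LinearOrder V] {G : SimpleGraph V}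

/-- specification of the choice function -/
structure PickSpec (G : SimpleGraph V) (lam : ℕ) (L : Finset (Finset V))
    (pick : Finset V → Finset V → Option (Bool × V)) : Prop where
  big : ∀ X Y u, pick X Y = some (true, u) →
    2 * tau lam ≤ KK G X ∧ (LY L Y).Nonempty ∧ Big G lam X Y u
  heavy : ∀ X Y u, pick X Y = some (false, u) →
    2 * tau lam ≤ KK G X ∧ (LY L Y).Nonempty ∧ Heavy L lam X Y u
  none : ∀ X Y, pick X Y = none → KK G X < 2 * tau lam ∨ LY L Y = ∅ ∨
    ((∀ u, ¬ Big G lam X Y u) ∧ ∀ u, ¬ Heavy L lam X Y u)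

/-- one step -/
def stp (pick : Finset V → Finset V → Option (Bool × V)) (f : Bool)
    (s : Finset V × Finset V) : Finset V × Finset V :=
  match pick s.1 s.2 with
  | none => s
  | some (b, u) => if f = b then (insert u s.1, s.2) else (s.1, insert u s.2)

/-- `k` steps, `P` = set of the times of the fast steps -/
def run (pick : Finset V → Finset V → Option (Bool × V)) (P : Finset ℕ)
    (s : Finset V × Finset V) : ℕ → Finset V × Finset V
  | 0 => s
  | k + 1 => stp pick (decide (k ∈ P)) (run pick P s k)

variable {lam : ℕ} {L : Finset (Finset V)} {pick : Finset V → Finset V → Option (Bool × V)}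

theorem pick_not_mem (hp : PickSpec G lam L pick) {X Y : Finset V} {b : Bool} {u : V}
    (h : pick X Y = some (b, u)) : u ∉ X ∧ u ∉ Y := by
  cases b with
  | true => exact ⟨(hp.big X Y u h).2.2.1, (hp.big X Y u h).2.2.2.1⟩
  | false => exact ⟨(hp.heavy X Y u h).2.2.1, (hp.heavy X Y u h).2.2.2.1⟩

omit [Fintype V] in
theorem stp_none {f : Bool} {s : Finset V × Finset V} (h : pick s.1 s.2 = none) :
    stp pick f s = s := by
  unfold stp
  rw [h]

omit [Fintype V] in
theorem stp_some {f b : Bool} {u : V} {s : Finset V × Finset V}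
    (h : pick s.1 s.2 = some (b, u)) :
    stp pick f s = if f = b then (insert u s.1, s.2) else (s.1, insert u s.2) := by
  unfold stp
  rw [h]

theorem run_disjoint (hp : PickSpec G lam L pick) (P : Finset ℕ) (Y0 : Finset V) (k : ℕ) :
    Disjoint (run pick P (∅, Y0) k).1 (run pick P (∅, Y0) k).2 ∧
      Y0 ⊆ (run pick P (∅, Y0) k).2 := by
  induction k with
  | zero => exact ⟨by simp [run], by simp [run]⟩
  | succ k ih =>
    rw [run]
    rcases h : pick (run pick P (∅, Y0) k).1 (run pick P (∅, Y0) k).2 with _ | ⟨b, u⟩
    · rw [stp_none h]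
      exact ih
    · rw [stp_some h]
      obtain ⟨h1, h2⟩ := pick_not_mem hp h
      split_ifs with hf
      · exact ⟨Finset.disjoint_insert_left.2 ⟨h2, ih.1⟩, ih.2⟩
      · exact ⟨Finset.disjoint_insert_right.2 ⟨h1, ih.1⟩,
          ih.2.trans (Finset.subset_insert _ _)⟩

theorem run_stable (hp : PickSpec G lam L pick) (P : Finset ℕ) (Y0 : Finset V) :
    pick (run pick P (∅, Y0) (Fintype.card V)).1 (run pick P (∅, Y0) (Fintype.card V)).2 =
      none := by
  have key : ∀ k : ℕ, pick (run pick P (∅, Y0) k).1 (run pick P (∅, Y0) k).2 = none ∨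
      k ≤ (run pick P (∅, Y0) k).1.card + (run pick P (∅, Y0) k).2.card := by
    intro k
    induction k with
    | zero => exact Or.inr (Nat.zero_le _)
    | succ k ih =>
      rw [run]
      rcases h : pick (run pick P (∅, Y0) k).1 (run pick P (∅, Y0) k).2 with _ | ⟨b, u⟩
      · rw [stp_none h]
        exact Or.inl h
      · rw [h] at ih
        have ih' := ih.resolve_left (by simp)
        obtain ⟨h1, h2⟩ := pick_not_mem hp h
        rw [stp_some h]
        right
        split_ifs with hf
        · simp only
          rw [Finset.card_insert_of_notMem h1]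
          omega
        · simp only
          rw [Finset.card_insert_of_notMem h2]
          omega
  rcases key (Fintype.card V) with h | h
  · exact h
  · rcases h' : pick (run pick P (∅, Y0) (Fintype.card V)).1
      (run pick P (∅, Y0) (Fintype.card V)).2 with _ | ⟨b, u⟩
    · rfl
    · exfalso
      obtain ⟨h1, h2⟩ := pick_not_mem hp h'
      have hd := (run_disjoint hp P Y0 (Fintype.card V)).1
      have hc : (insert u ((run pick P (∅, Y0) (Fintype.card V)).1 ∪
          (run pick P (∅, Y0) (Fintype.card V)).2)).card ≤ Fintype.card V :=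
        Finset.card_le_univ _
      rw [Finset.card_insert_of_notMem (by
        rw [Finset.mem_union]
        tauto), Finset.card_union_of_disjoint hd] at hc
      omega

omit [Fintype V] in
theorem run_congr {P P' : Finset ℕ} {s : Finset V × Finset V} (k : ℕ)
    (h : ∀ i < k, (i ∈ P ↔ i ∈ P')) : run pick P s k = run pick P' s k := by
  induction k with
  | zero => rfl
  | succ k ih =>
    have ih := ih (fun i hi => h i (Nat.lt_succ_of_lt hi))
    rw [run, run, ih]
    have : decide (k ∈ P) = decide (k ∈ P') := by
      rw [decide_eq_decide]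
      exact h k (Nat.lt_succ_self k)
    rw [this]

omit [Fintype V] in
theorem LY_insert (L : Finset (Finset V)) (Y : Finset V) (u : V) :
    (LY L (insert u Y)).card + ((LY L Y).filter fun T => u ∈ T).card = (LY L Y).card := by
  have h : LY L (insert u Y) = (LY L Y).filter fun T => ¬ u ∈ T := by
    ext T
    simp only [LY, Finset.mem_filter, Finset.disjoint_insert_right]
    tauto
  rw [h, add_comm]
  exact Finset.card_filter_add_card_filter_not (s := LY L Y) (fun T => u ∈ T)

theorem one_le_mm (lam : ℕ) : 1 ≤ mm lam := by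
  have : 0 < mm lam := by unfold mm ell; positivity
  omega

theorem path_aux (hp : PickSpec G lam L pick) (hn : Fintype.card V ≤ 2 ^ lam)
    (hLc : L.card ≤ 2 ^ lam) (D Y0 : Finset V) (hD : Disjoint D Y0) (k : ℕ) :
    ∃ (P : Finset ℕ) (c1 c2 : ℕ), P ⊆ Finset.range k ∧ P.card = c1 + c2 ∧
      c1 ≤ 2 * tau lam * (lam + 1) ∧ c2 ≤ mm lam * (lam + 1) ∧
      (run pick P (∅, Y0) k).1 ⊆ D ∧ Disjoint D (run pick P (∅, Y0) k).2 ∧
      KK G (run pick P (∅, Y0) k).1 * (2 * tau lam) ^ c1 ≤ 2 ^ lam * (2 * tau lam - 1) ^ c1 ∧
      (LY L (run pick P (∅, Y0) k).2).card * (mm lam) ^ c2 ≤ 2 ^ lam * (mm lam - 1) ^ c2 := by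
  induction k with
  | zero =>
    refine ⟨∅, 0, 0, by simp, by simp, Nat.zero_le _, Nat.zero_le _, by simp [run],
      by simpa [run] using hD, ?_, ?_⟩
    · simpa [run] using KK_le_card.trans hn
    · simp only [run, pow_zero, mul_one]
      exact (Finset.card_le_card (Finset.filter_subset _ _)).trans hLc
  | succ k ih =>
    obtain ⟨P, c1, c2, hP, hPc, hc1, hc2, hXD, hDY, hK, hLY⟩ := ih
    have hkP : k ∉ P := fun h => absurd (Finset.mem_range.1 (hP h)) (lt_irrefl k)
    have hPs : P ⊆ Finset.range (k + 1) :=
      hP.trans (Finset.range_subset_range.2 (Nat.le_succ k))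
    have hPi : insert k P ⊆ Finset.range (k + 1) :=
      Finset.insert_subset (Finset.mem_range.2 (Nat.lt_succ_self k)) hPs
    have hrun : run pick (insert k P) (∅, Y0) k = run pick P (∅, Y0) k := by
      apply run_congr
      intro i hi
      rw [Finset.mem_insert]
      constructor
      · rintro (rfl | h)
        · exact absurd hi (lt_irrefl _)
        · exact h
      · exact Or.inr
    have hPic : (insert k P).card = P.card + 1 := Finset.card_insert_of_notMem hkP
    generalize hs : run pick P (∅, Y0) k = s at hXD hDY hK hLY hrun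
    rcases h : pick s.1 s.2 with _ | ⟨b, u⟩
    · refine ⟨P, c1, c2, hPs, hPc, hc1, hc2, ?_⟩
      rw [run, hs, stp_none h]
      exact ⟨hXD, hDY, hK, hLY⟩
    · cases b with
      | true =>
        obtain ⟨g1, g2, g3, g4, g5⟩ := hp.big _ _ _ h
        by_cases hu : u ∈ D
        · -- fast
          refine ⟨insert k P, c1 + 1, c2, hPi, by omega, ?_, hc2, ?_⟩
          · by_contra hcon
            have hce : c1 = 2 * tau lam * (lam + 1) := by omega
            have h5 := num5 lam (2 * tau lam) (by unfold tau; omega)
            rw [← hce] at h5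
            have h6 : KK G s.1 * (2 * tau lam) ^ c1 < 1 * (2 * tau lam) ^ c1 := by
              rw [one_mul]
              exact lt_of_le_of_lt hK h5
            have h7 := lt_of_mul_lt_mul_right h6 (Nat.zero_le _)
            have h8 : 0 < tau lam := by unfold tau; omega
            omega
          · rw [run, hrun, stp_some h, if_pos (by simp)]
            refine ⟨Finset.insert_subset hu hXD, hDY, ?_, hLY⟩
            calc KK G (insert u s.1) * (2 * tau lam) ^ (c1 + 1)
                = (KK G (insert u s.1) * (2 * tau lam)) * (2 * tau lam) ^ c1 := by ring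
              _ ≤ (KK G s.1 * (2 * tau lam - 1)) * (2 * tau lam) ^ c1 :=
                  Nat.mul_le_mul_right _ g5
              _ = (KK G s.1 * (2 * tau lam) ^ c1) * (2 * tau lam - 1) := by ring
              _ ≤ (2 ^ lam * (2 * tau lam - 1) ^ c1) * (2 * tau lam - 1) :=
                  Nat.mul_le_mul_right _ hK
              _ = 2 ^ lam * (2 * tau lam - 1) ^ (c1 + 1) := by ring
        · -- slow
          refine ⟨P, c1, c2, hPs, hPc, hc1, hc2, ?_⟩
          rw [run, hs, stp_some h, if_neg (by simp [hkP])]
          refine ⟨hXD, Finset.disjoint_insert_right.2 ⟨hu, hDY⟩, hK, ?_⟩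
          refine le_trans (Nat.mul_le_mul_right _ ?_) hLY
          have := LY_insert L s.2 u
          simp only
          omega
      | false =>
        obtain ⟨g1, g2, g3, g4, g5⟩ := hp.heavy _ _ _ h
        by_cases hu : u ∈ D
        · -- slow
          refine ⟨P, c1, c2, hPs, hPc, hc1, hc2, ?_⟩
          rw [run, hs, stp_some h, if_pos (by simp [hkP])]
          refine ⟨Finset.insert_subset hu hXD, hDY, ?_, hLY⟩
          exact le_trans (Nat.mul_le_mul_right _ (KK_anti (Finset.subset_insert _ _))) hK
        · -- fast
          refine ⟨insert k P, c1, c2 + 1, hPi, by omega, hc1, ?_, ?_⟩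
          · by_contra hcon
            have hce : c2 = mm lam * (lam + 1) := by omega
            have h5 := num5 lam (mm lam) (one_le_mm lam)
            rw [← hce] at h5
            have h6 : (LY L s.2).card * (mm lam) ^ c2 < 1 * (mm lam) ^ c2 := by
              rw [one_mul]
              exact lt_of_le_of_lt hLY h5
            have h7 := lt_of_mul_lt_mul_right h6 (Nat.zero_le _)
            have h8 := Finset.card_pos.2 g2
            omega
          · rw [run, hrun, stp_some h, if_neg (by simp)]
            refine ⟨hXD, Finset.disjoint_insert_right.2 ⟨hu, hDY⟩, hK, ?_⟩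
            have h9 := LY_insert L s.2 u
            have hm1 : 1 ≤ mm lam := one_le_mm lam
            have h10 : (LY L (insert u s.2)).card * mm lam ≤
                (LY L s.2).card * (mm lam - 1) := by
              obtain ⟨m', hm'⟩ : ∃ m', mm lam = m' + 1 := ⟨mm lam - 1, by omega⟩
              rw [hm'] at g5 ⊢
              rw [Nat.add_sub_cancel]
              nlinarith [g5, h9]
            calc (LY L (insert u s.2)).card * mm lam ^ (c2 + 1)
                = ((LY L (insert u s.2)).card * mm lam) * mm lam ^ c2 := by ring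
              _ ≤ ((LY L s.2).card * (mm lam - 1)) * mm lam ^ c2 :=
                  Nat.mul_le_mul_right _ h10
              _ = ((LY L s.2).card * mm lam ^ c2) * (mm lam - 1) := by ring
              _ ≤ (2 ^ lam * (mm lam - 1) ^ c2) * (mm lam - 1) :=
                  Nat.mul_le_mul_right _ hLY
              _ = 2 ^ lam * (mm lam - 1) ^ (c2 + 1) := by ring

theorem path_exists (hp : PickSpec G lam L pick) (hn : Fintype.card V ≤ 2 ^ lam)
    (hLc : L.card ≤ 2 ^ lam) (D Y0 : Finset V) (hD : Disjoint D Y0) :
    ∃ P : Finset ℕ, P ⊆ Finset.range (Fintype.card V) ∧ P.card ≤ dd lam ∧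
      (run pick P (∅, Y0) (Fintype.card V)).1 ⊆ D ∧
      Disjoint D (run pick P (∅, Y0) (Fintype.card V)).2 := by
  obtain ⟨P, c1, c2, hP, hPc, hc1, hc2, hXD, hDY, -, -⟩ :=
    path_aux hp hn hLc D Y0 hD (Fintype.card V)
  refine ⟨P, hP, ?_, hXD, hDY⟩
  rw [hPc, dd, add_mul]
  omega

end Pool.Agent.CDom
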