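import Mathlib
import Pool.Agent.CDom.Defs
import Pool.Agent.CDom.Basic
import Pool.Agent.CDom.Meas
import Pool.Agent.CDom.Small
import Pool.Agent.CDom.Leaf
import Pool.Agent.CDom.Path

/-!
# MODULE CDom/Dec  (MP_6e88d0_lc)

Correctness of the decision procedure: a connected dominating set avoiding `Y0` and containing no
member of `L` exists iff some path with at most `dd lam` fast steps ends in a good leaf.

Proof.  `→`: take `P` from `path_exists`, `s` the final state: `s.1 ⊆ D`, `D` disjoint from `s.2`.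
`univ \ s.2 ⊇ D` is a CDS; no `T ∈ L` is contained in `s.1`.  If `KK G s.1 < 2 tau`: `completion`
gives `Z ⊆ D`, `|Z| ≤ 2 KK G s.1 ≤ 4 tau ≤ dd lam` (`mm lam = 36 (3 lam + 3)^2 ≥ 2 tau lam`), and
`s.1 ∪ Z ⊆ D` contains no `T ∈ L`.
`←`: `s` the final state, disjoint (`run_disjoint`), `Y0 ⊆ s.2`.  If `LY L s.2 = ∅` take
`D = univ \ s.2`.  If there is `Z`, take `D = s.1 ∪ Z`.  If `2 tau ≤ KK G s.1` and `LY L s.2 ≠ ∅`:
by `run_stable` `pick = none`, so by `PickSpec.none` there is no big and no heavy vertex: `leaf_new`.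
-/

set_option autoImplicit false

namespace Pool.Agent.CDom

open Finset

variable {V : Type*} [Fintype V] [LinearOrder V] {G : SimpleGraph V}

/-- a good leaf -/
def LeafOK (G : SimpleGraph V) (lam : ℕ) (L : Finset (Finset V)) (s : Finset V × Finset V) :
    Prop :=
  CDS G (univ \ s.2) ∧ (∀ T ∈ L, ¬ T ⊆ s.1) ∧
    (LY L s.2 = ∅ ∨ 2 * tau lam ≤ KK G s.1 ∨
      ∃ Z : Finset V, Z.card ≤ dd lam ∧ Disjoint Z s.2 ∧ CDS G (s.1 ∪ Z) ∧
        ∀ T ∈ L, ¬ T ⊆ s.1 ∪ Z)

theorem four_tau_le_dd (lam : ℕ) : 4 * tau lam ≤ dd lam := by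
  have h1 : 2 * tau lam ≤ mm lam := by
    unfold tau mm ell
    nlinarith [Nat.zero_le lam]
  have h2 : (2 * tau lam + mm lam) * 1 ≤ (2 * tau lam + mm lam) * (lam + 1) :=
    Nat.mul_le_mul_left _ (by omega)
  have h3 : dd lam = (2 * tau lam + mm lam) * (lam + 1) := rfl
  omega

theorem dec_iff {lam : ℕ} {L : Finset (Finset V)}
    {pick : Finset V → Finset V → Option (Bool × V)} (hp : PickSpec G lam L pick)
    (hn : Fintype.card V ≤ 2 ^ lam) (hLc : L.card ≤ 2 ^ lam) (hL : ∀ T ∈ L, CDS G T)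
    (Y0 : Finset V) :
    (∃ D, CDS G D ∧ Disjoint D Y0 ∧ ∀ T ∈ L, ¬ T ⊆ D) ↔
      ∃ P : Finset ℕ, P ⊆ Finset.range (Fintype.card V) ∧ P.card ≤ dd lam ∧
        LeafOK G lam L (run pick P (∅, Y0) (Fintype.card V)) := by
  constructor
  · rintro ⟨D, hD, hDY, hDL⟩
    obtain ⟨P, hP, hPc, h1, h2⟩ := path_exists hp hn hLc D Y0 hDY
    refine ⟨P, hP, hPc, ?_, ?_, ?_⟩
    · refine CDS.mono hD fun v hv => ?_
      rw [mem_sdiff]
      exact ⟨mem_univ v, disjoint_left.1 h2 hv⟩
    · exact fun T hT hTs => hDL T hT (hTs.trans h1)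
    · right
      by_cases hK : 2 * tau lam ≤ KK G (run pick P (∅, Y0) (Fintype.card V)).1
      · exact Or.inl hK
      · right
        obtain ⟨Z, hZD, hZc, hZ⟩ := completion _ D h1 hD
        refine ⟨Z, ?_, ?_, hZ, ?_⟩
        · have := four_tau_le_dd lam
          omega
        · exact disjoint_of_subset_left hZD h2
        · exact fun T hT hTs => hDL T hT (hTs.trans (union_subset h1 hZD))
  · rintro ⟨P, hP, hPc, h1, h2, h3⟩
    obtain ⟨hd, hY⟩ := run_disjoint hp P Y0 (Fintype.card V)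
    have hst := run_stable hp P Y0
    generalize hs : run pick P (∅, Y0) (Fintype.card V) = s at h1 h2 h3 hd hY hst
    by_cases hLY : LY L s.2 = ∅
    · refine ⟨univ \ s.2, h1, ?_, ?_⟩
      · exact disjoint_of_subset_right hY sdiff_disjoint
      · intro T hT hTs
        have h4 : T ∈ LY L s.2 := by
          unfold LY
          rw [mem_filter]
          exact ⟨hT, disjoint_of_subset_left hTs sdiff_disjoint⟩
        rw [hLY] at h4
        exact absurd h4 (notMem_empty T)
    · by_cases hK : 2 * tau lam ≤ KK G s.1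
      · rcases hp.none _ _ hst with h4 | h4 | ⟨h4, h5⟩
        · omega
        · exact absurd h4 hLY
        · obtain ⟨D, hD, hDs, hDL⟩ := leaf_new lam L s.1 s.2 hn hLc hL hd h2 hK
            (nonempty_iff_ne_empty.2 hLY) h4 h5
          exact ⟨D, hD, disjoint_of_subset_right hY hDs, hDL⟩
      · rcases h3 with h3 | h3 | ⟨Z, -, hZ1, hZ2, hZ3⟩
        · exact absurd h3 hLY
        · exact absurd h3 hK
        · exact ⟨s.1 ∪ Z, hZ2, disjoint_of_subset_right hY (disjoint_union_left.2 ⟨hd, hZ1⟩), hZ3⟩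

end Pool.Agent.CDom
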