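import Mathlib
import Pool.Agent.CDom.Defs
import Pool.Agent.CDom.Basic
import Pool.Agent.CDom.Meas
import Pool.Agent.CDom.Path
import Pool.Agent.CDom.Prog
import Pool.Agent.CDom.Spec1

/-!
# MODULE CDom/Spec2  (MP_6e88d0_lc)

The programs `lY`, `big`, `heavy`, `picks`, `prun` against the definitions for finite sets.
The known solutions are `l.map can` for a list `l` of finite sets without repetitions.

Proofs.
* `lY_spec`: `lY (l.map can) Y = (l.filter (Disjoint · (S n Y))).map can` (`List.filter_map`):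
  `(can T).all (fun t => !mem t Y) ↔ Disjoint T (S n Y)`.
* `lY_length`: `List.toFinset_card_of_nodup` for the filtered list.
* `lY_mem_length`: same with the additional filter `u ∈ T` (`mem u (can T) ↔ u ∈ T`).
* `big_spec`, `heavy_spec`: from the above and `kk_spec`, `S_cons`.
* `picks_congr`: `picks` depends on the two lists (with elements `< n`) only through the sets `S n X`,
  `S n Y` (all tests do).
* `pickSpec`: unfold `pickF`, `picks`: the list is empty iff the condition `2 tau ≤ KK ∧ LY ≠ ∅`
  fails or there is no big and no heavy vertex; the head of `A.map (true, ·) ++ B.map (false, ·)` is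
  `(true, u)` with `u ∈ A` or `(false, u)` with `u ∈ B`; all vertices in `List.range n` are `< n`.
* `prun_spec`: induction over the fold `List.range n` (`List.range_succ`, `foldl_append`): the state
  of the program after `k` steps has elements `< n` and its sets are the state of `run`; one step:
  `picks_congr` and the definition of `pickF`.
-/

set_option autoImplicit false

namespace Pool.Agent.CDom.Prog

open Finset

variable {n : ℕ} {G : SimpleGraph (Fin n)} {E : List (ℕ × ℕ)}

theorem all_not_mem (T : Finset (Fin n)) (Y : List ℕ) :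
    ((can T).all fun t => !mem t Y) = true ↔ Disjoint T (S n Y) := by
  rw [List.all_eq_true, Finset.disjoint_left]
  constructor
  · intro h v hv hY
    have h1 := h v (mem_can.2 ⟨v.2, hv⟩)
    rw [Bool.not_eq_true', Bool.eq_false_iff, ne_eq, mem_iff] at h1
    exact h1 (mem_S.1 hY)
  · intro h t ht
    obtain ⟨ht', h1⟩ := mem_can.1 ht
    rw [Bool.not_eq_true', Bool.eq_false_iff, ne_eq, mem_iff]
    exact fun h2 => h h1 (mem_S.2 h2)

theorem all_mem (T : Finset (Fin n)) (X : List ℕ) :
    ((can T).all fun t => mem t X) = true ↔ T ⊆ S n X := by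
  rw [List.all_eq_true]
  constructor
  · intro h v hv
    exact mem_S.2 (mem_iff.1 (h v (mem_can.2 ⟨v.2, hv⟩)))
  · intro h t ht
    obtain ⟨ht', h1⟩ := mem_can.1 ht
    exact mem_iff.2 (mem_S.1 (h h1))

open Classical in
theorem lY_spec (l : List (Finset (Fin n))) (Y : List ℕ) :
    lY (l.map can) Y = (l.filter fun T => decide (Disjoint T (S n Y))).map can := by
  unfold lY
  rw [List.filter_map]
  congr 1
  refine List.filter_congr fun T _ => ?_
  rw [Function.comp_apply, Bool.eq_iff_iff, all_not_mem, decide_eq_true_eq]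

theorem mem_LY {L : Finset (Finset (Fin n))} {Y T : Finset (Fin n)} :
    T ∈ LY L Y ↔ T ∈ L ∧ Disjoint T Y := by
  classical
  unfold LY
  rw [Finset.mem_filter]

theorem lY_isEmpty (l : List (Finset (Fin n))) (Y : List ℕ) :
    (lY (l.map can) Y).isEmpty = true ↔ LY l.toFinset (S n Y) = ∅ := by
  classical
  rw [lY_spec, List.isEmpty_iff, List.map_eq_nil_iff, List.filter_eq_nil_iff,
    Finset.eq_empty_iff_forall_notMem]
  constructor
  · intro h T hT
    obtain ⟨h1, h2⟩ := mem_LY.1 hT
    exact h T (List.mem_toFinset.1 h1) (decide_eq_true h2)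
  · intro h T hT h2
    exact h T (mem_LY.2 ⟨List.mem_toFinset.2 hT, of_decide_eq_true h2⟩)

theorem lY_length (l : List (Finset (Fin n))) (hl : l.Nodup) (Y : List ℕ) :
    (lY (l.map can) Y).length = (LY l.toFinset (S n Y)).card := by
  classical
  rw [lY_spec, List.length_map, ← List.toFinset_card_of_nodup (hl.filter _)]
  congr 1
  ext T
  rw [List.mem_toFinset, List.mem_filter, mem_LY, List.mem_toFinset, decide_eq_true_eq]

open Classical in
theorem lY_mem_length (l : List (Finset (Fin n))) (hl : l.Nodup) (Y : List ℕ) (u : Fin n) :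
    ((lY (l.map can) Y).filter fun T => mem u T).length =
      ((LY l.toFinset (S n Y)).filter fun T => u ∈ T).card := by
  rw [lY_spec, List.filter_map, List.length_map,
    ← List.toFinset_card_of_nodup ((hl.filter _).filter _)]
  congr 1
  ext T
  rw [List.mem_toFinset, List.mem_filter, List.mem_filter, Finset.mem_filter, mem_LY,
    List.mem_toFinset, decide_eq_true_eq, Function.comp_apply, mem_iff, mem_can]
  refine and_congr Iff.rfl ?_
  exact ⟨fun ⟨_, h⟩ => h, fun h => ⟨u.2, h⟩⟩

theorem noSub_spec (l : List (Finset (Fin n))) (X : List ℕ) :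
    noSub (l.map can) X = true ↔ ∀ T ∈ l.toFinset, ¬ T ⊆ S n X := by
  unfold noSub
  rw [List.all_eq_true]
  constructor
  · intro h T hT hs
    have h1 := h (can T) (List.mem_map.2 ⟨T, List.mem_toFinset.1 hT, rfl⟩)
    rw [Bool.not_eq_true', Bool.eq_false_iff, ne_eq, all_mem] at h1
    exact h1 hs
  · intro h T hT
    obtain ⟨T', hT', rfl⟩ := List.mem_map.1 hT
    rw [Bool.not_eq_true', Bool.eq_false_iff, ne_eq, all_mem]
    exact h T' (List.mem_toFinset.2 hT')

theorem not_mem_iff {v : ℕ} {X : List ℕ} : (!mem v X) = true ↔ v ∉ X := by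
  rw [Bool.not_eq_true', Bool.eq_false_iff, ne_eq, mem_iff]

theorem big_spec (hE : IsRep G E) (lam : ℕ) (X Y : List ℕ) (hX : ∀ x ∈ X, x < n) (u : Fin n) :
    big (n, E) (tau lam) X Y u = true ↔ Big G lam (S n X) (S n Y) u := by
  have hX' : ∀ x ∈ ((u : ℕ) :: X), x < n := by
    intro x hx
    rcases List.mem_cons.1 hx with h | h
    · rw [h]
      exact u.2
    · exact hX x h
  unfold big Big
  rw [Bool.and_eq_true, Bool.and_eq_true, not_mem_iff, not_mem_iff, decide_eq_true_eq,
    kk_spec hE X hX, kk_spec hE _ hX', S_cons, mem_S, mem_S, and_assoc]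

theorem heavy_spec (l : List (Finset (Fin n))) (hl : l.Nodup) (lam : ℕ) (X Y : List ℕ)
    (u : Fin n) :
    heavy (l.map can) (mm lam) X Y u = true ↔ Heavy l.toFinset lam (S n X) (S n Y) u := by
  classical
  unfold heavy Heavy
  rw [Bool.and_eq_true, Bool.and_eq_true, not_mem_iff, not_mem_iff, decide_eq_true_eq,
    lY_length l hl, lY_mem_length l hl, mem_S, mem_S, and_assoc]

/-- the program of the choice depends only on the sets -/
theorem picks_congr (hE : IsRep G E) (l : List (Finset (Fin n))) (hl : l.Nodup) (lam : ℕ)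
    (C : List (List ℕ)) (s s' : List ℕ × List ℕ) (h1 : ∀ x ∈ s.1, x < n)
    (h1' : ∀ x ∈ s'.1, x < n) (e1 : S n s.1 = S n s'.1) (e2 : S n s.2 = S n s'.2) :
    picks ((n, E), l.map can, (tau lam, mm lam), C) s =
      picks ((n, E), l.map can, (tau lam, mm lam), C) s' := by
  have ek : kk (n, E) s.1 = kk (n, E) s'.1 := by rw [kk_spec hE _ h1, kk_spec hE _ h1', e1]
  have el : lY (l.map can) s.2 = lY (l.map can) s'.2 := by
    classical
    rw [lY_spec, lY_spec, e2]
  have eb : (List.range n).filter (big (n, E) (tau lam) s.1 s.2) =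
      (List.range n).filter (big (n, E) (tau lam) s'.1 s'.2) := by
    refine List.filter_congr fun v hv => ?_
    have hv' : v < n := List.mem_range.1 hv
    have h2 := big_spec hE lam s.1 s.2 h1 ⟨v, hv'⟩
    have h3 := big_spec hE lam s'.1 s'.2 h1' ⟨v, hv'⟩
    rw [Bool.eq_iff_iff]
    rw [e1, e2] at h2
    exact h2.trans h3.symm
  have eh : (List.range n).filter (heavy (l.map can) (mm lam) s.1 s.2) =
      (List.range n).filter (heavy (l.map can) (mm lam) s'.1 s'.2) := by
    refine List.filter_congr fun v hv => ?_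
    have hv' : v < n := List.mem_range.1 hv
    have h2 := heavy_spec l hl lam s.1 s.2 ⟨v, hv'⟩
    have h3 := heavy_spec l hl lam s'.1 s'.2 ⟨v, hv'⟩
    rw [Bool.eq_iff_iff]
    rw [e1, e2] at h2
    exact h2.trans h3.symm
  unfold picks
  simp only
  rw [ek, el, eb, eh]

theorem mem_picks (hE : IsRep G E) (l : List (Finset (Fin n))) (hl : l.Nodup) (lam : ℕ)
    (C : List (List ℕ)) (X Y : Finset (Fin n)) (p : Bool × ℕ) :
    p ∈ picks ((n, E), l.map can, (tau lam, mm lam), C) (can X, can Y) ↔
      2 * tau lam ≤ KK G X ∧ (LY l.toFinset Y).Nonempty ∧ ∃ u : Fin n, p.2 = u ∧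
        ((p.1 = true ∧ Big G lam X Y u) ∨ (p.1 = false ∧ Heavy l.toFinset lam X Y u)) := by
  have hX : ∀ x ∈ can X, x < n := fun x hx => mem_can_lt hx
  have hk : kk (n, E) (can X) = KK G X := by rw [kk_spec hE _ hX, S_can]
  have hl' : (!(lY (l.map can) (can Y)).isEmpty) = true ↔ (LY l.toFinset Y).Nonempty := by
    rw [Bool.not_eq_true', Bool.eq_false_iff, ne_eq, lY_isEmpty, S_can,
      Finset.nonempty_iff_ne_empty]
  have hb : ∀ u : Fin n, big (n, E) (tau lam) (can X) (can Y) u = true ↔ Big G lam X Y u := by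
    intro u
    rw [big_spec hE lam _ _ hX, S_can, S_can]
  have hh : ∀ u : Fin n, heavy (l.map can) (mm lam) (can X) (can Y) u = true ↔
      Heavy l.toFinset lam X Y u := by
    intro u
    rw [heavy_spec l hl, S_can, S_can]
  unfold picks
  simp only
  rw [hk]
  by_cases hc : (decide (2 * tau lam ≤ KK G X) && !(lY (l.map can) (can Y)).isEmpty) = true
  · rw [hc, cond_true, List.mem_append, List.mem_map, List.mem_map]
    rw [Bool.and_eq_true, decide_eq_true_eq, hl'] at hc
    constructor
    · rintro (⟨u, hu, rfl⟩ | ⟨u, hu, rfl⟩)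
      · rw [List.mem_filter, List.mem_range] at hu
        exact ⟨hc.1, hc.2, ⟨u, hu.1⟩, rfl, Or.inl ⟨rfl, (hb ⟨u, hu.1⟩).1 hu.2⟩⟩
      · rw [List.mem_filter, List.mem_range] at hu
        exact ⟨hc.1, hc.2, ⟨u, hu.1⟩, rfl, Or.inr ⟨rfl, (hh ⟨u, hu.1⟩).1 hu.2⟩⟩
    · rintro ⟨_, _, u, hu, ⟨h1, h2⟩ | ⟨h1, h2⟩⟩
      · refine Or.inl ⟨u, ?_, Prod.ext h1.symm hu.symm⟩
        rw [List.mem_filter, List.mem_range]
        exact ⟨u.2, (hb u).2 h2⟩
      · refine Or.inr ⟨u, ?_, Prod.ext h1.symm hu.symm⟩
        rw [List.mem_filter, List.mem_range]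
        exact ⟨u.2, (hh u).2 h2⟩
  · have hc' : (decide (2 * tau lam ≤ KK G X) && !(lY (l.map can) (can Y)).isEmpty) = false :=
      Bool.eq_false_iff.2 hc
    rw [hc', cond_false]
    rw [Bool.and_eq_true, decide_eq_true_eq, hl'] at hc
    constructor
    · intro h
      exact absurd h List.not_mem_nil
    · rintro ⟨h1, h2, _⟩
      exact absurd ⟨h1, h2⟩ hc

theorem pickF_nil {I : Inp} {X Y : Finset (Fin n)} (h : picks I (can X, can Y) = []) :
    pickF n I X Y = none := by
  unfold pickF
  rw [h]
  rfl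

theorem pickF_cons {I : Inp} {X Y : Finset (Fin n)} {b : Bool} {u : ℕ} {t : List (Bool × ℕ)}
    (h : picks I (can X, can Y) = (b, u) :: t) (hu : u < n) :
    pickF n I X Y = some (b, ⟨u, hu⟩) := by
  unfold pickF
  rw [h]
  simp only [List.head?_cons]
  rw [dif_pos hu]

theorem pickSpec (hE : IsRep G E) (l : List (Finset (Fin n))) (hl : l.Nodup) (lam : ℕ)
    (C : List (List ℕ)) :
    PickSpec G lam l.toFinset (pickF n ((n, E), l.map can, (tau lam, mm lam), C)) := by
  have key : ∀ X Y b u, pickF n ((n, E), l.map can, (tau lam, mm lam), C) X Y = some (b, u) →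
      (b, (u : ℕ)) ∈ picks ((n, E), l.map can, (tau lam, mm lam), C) (can X, can Y) := by
    intro X Y b u h
    rcases hp : picks ((n, E), l.map can, (tau lam, mm lam), C) (can X, can Y) with _ | ⟨⟨b', u'⟩, t⟩
    · rw [pickF_nil hp] at h
      exact absurd h (by simp)
    · have hm : (b', u') ∈ picks ((n, E), l.map can, (tau lam, mm lam), C) (can X, can Y) := by
        rw [hp]
        exact List.mem_cons_self
      obtain ⟨_, _, w, hw, _⟩ := (mem_picks hE l hl lam C X Y _).1 hm
      have hu' : u' < n := by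
        have h1 : u' = w := hw
        rw [h1]
        exact w.2
      rw [pickF_cons hp hu', Option.some.injEq, Prod.mk.injEq] at h
      obtain ⟨rfl, rfl⟩ := h
      exact List.mem_cons_self
  constructor
  · intro X Y u h
    obtain ⟨h1, h2, w, hw, h3⟩ := (mem_picks hE l hl lam C X Y _).1 (key X Y _ u h)
    have hwu : u = w := Fin.ext hw
    rcases h3 with ⟨_, h3⟩ | ⟨h3, _⟩
    · exact ⟨h1, h2, hwu ▸ h3⟩
    · exact absurd h3 (by simp)
  · intro X Y u h
    obtain ⟨h1, h2, w, hw, h3⟩ := (mem_picks hE l hl lam C X Y _).1 (key X Y _ u h)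
    have hwu : u = w := Fin.ext hw
    rcases h3 with ⟨h3, _⟩ | ⟨_, h3⟩
    · exact absurd h3 (by simp)
    · exact ⟨h1, h2, hwu ▸ h3⟩
  · intro X Y h
    rcases hp : picks ((n, E), l.map can, (tau lam, mm lam), C) (can X, can Y) with _ | ⟨⟨b', u'⟩, t⟩
    · by_contra hcon
      push Not at hcon
      obtain ⟨h1, h2', h3⟩ := hcon
      by_cases h4 : ∀ u, ¬ Big G lam X Y u
      · obtain ⟨u, hu⟩ := h3 h4
        have h5 := (mem_picks hE l hl lam C X Y (false, (u : ℕ))).2
          ⟨h1, h2', u, rfl, Or.inr ⟨rfl, hu⟩⟩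
        rw [hp] at h5
        exact absurd h5 List.not_mem_nil
      · push Not at h4
        obtain ⟨u, hu⟩ := h4
        have h5 := (mem_picks hE l hl lam C X Y (true, (u : ℕ))).2
          ⟨h1, h2', u, rfl, Or.inl ⟨rfl, hu⟩⟩
        rw [hp] at h5
        exact absurd h5 List.not_mem_nil
    · have hm : (b', u') ∈ picks ((n, E), l.map can, (tau lam, mm lam), C) (can X, can Y) := by
        rw [hp]
        exact List.mem_cons_self
      obtain ⟨_, _, w, hw, _⟩ := (mem_picks hE l hl lam C X Y _).1 hm
      have hu' : u' < n := by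
        have h1 : u' = w := hw
        rw [h1]
        exact w.2
      rw [pickF_cons hp hu'] at h
      exact absurd h (by simp)

theorem pstp_spec (hE : IsRep G E) (l : List (Finset (Fin n))) (hl : l.Nodup) (lam : ℕ)
    (C : List (List ℕ)) (f : Bool) (s : List ℕ × List ℕ) (h1 : ∀ x ∈ s.1, x < n)
    (h2 : ∀ x ∈ s.2, x < n) :
    (∀ x ∈ (pstp ((n, E), l.map can, (tau lam, mm lam), C) f s).1, x < n) ∧
    (∀ x ∈ (pstp ((n, E), l.map can, (tau lam, mm lam), C) f s).2, x < n) ∧
    (S n (pstp ((n, E), l.map can, (tau lam, mm lam), C) f s).1,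
      S n (pstp ((n, E), l.map can, (tau lam, mm lam), C) f s).2) =
      stp (pickF n ((n, E), l.map can, (tau lam, mm lam), C)) f (S n s.1, S n s.2) := by
  have hpc : picks ((n, E), l.map can, (tau lam, mm lam), C) s =
      picks ((n, E), l.map can, (tau lam, mm lam), C) (can (S n s.1), can (S n s.2)) :=
    picks_congr hE l hl lam C _ _ h1 (fun x hx => mem_can_lt hx) (S_can _).symm (S_can _).symm
  rcases hp : picks ((n, E), l.map can, (tau lam, mm lam), C) s with _ | ⟨⟨b, u⟩, t⟩
  · have h3 : pstp ((n, E), l.map can, (tau lam, mm lam), C) f s = s := by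
      unfold pstp
      rw [hp]
      rfl
    rw [h3]
    refine ⟨h1, h2, ?_⟩
    unfold stp
    rw [pickF_nil (hpc ▸ hp)]
  · have hm : (b, u) ∈ picks ((n, E), l.map can, (tau lam, mm lam), C)
        (can (S n s.1), can (S n s.2)) := by
      rw [← hpc, hp]
      exact List.mem_cons_self
    obtain ⟨_, _, w, hw, _⟩ := (mem_picks hE l hl lam C _ _ _).1 hm
    have hu : u < n := by
      have h1 : u = w := hw
      rw [h1]
      exact w.2
    have h3 : pstp ((n, E), l.map can, (tau lam, mm lam), C) f s =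
        bif f == b then (u :: s.1, s.2) else (s.1, u :: s.2) := by
      unfold pstp
      rw [hp]
      rfl
    rw [h3]
    unfold stp
    rw [pickF_cons (hpc ▸ hp) hu]
    simp only
    have hcons : ∀ z : List ℕ, S n (u :: z) = insert ⟨u, hu⟩ (S n z) := fun z =>
      S_cons ⟨u, hu⟩ z
    by_cases hfb : f = b
    · rw [if_pos hfb, hfb, beq_self_eq_true, cond_true]
      refine ⟨?_, h2, ?_⟩
      · intro x hx
        rcases List.mem_cons.1 hx with h | h
        · rw [h]
          exact hu
        · exact h1 x h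
      · rw [hcons]
    · have hfb' : (f == b) = false := beq_eq_false_iff_ne.2 hfb
      rw [if_neg hfb, hfb', cond_false]
      refine ⟨h1, ?_, ?_⟩
      · intro x hx
        rcases List.mem_cons.1 hx with h | h
        · rw [h]
          exact hu
        · exact h2 x h
      · rw [hcons]

theorem prun_spec (hE : IsRep G E) (l : List (Finset (Fin n))) (hl : l.Nodup) (lam : ℕ)
    (C : List (List ℕ)) (Y0 P : List ℕ) (hY : ∀ y ∈ Y0, y < n) :
    (∀ x ∈ (prun ((n, E), l.map can, (tau lam, mm lam), C) Y0 P).1, x < n) ∧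
    (∀ x ∈ (prun ((n, E), l.map can, (tau lam, mm lam), C) Y0 P).2, x < n) ∧
    (S n (prun ((n, E), l.map can, (tau lam, mm lam), C) Y0 P).1,
      S n (prun ((n, E), l.map can, (tau lam, mm lam), C) Y0 P).2) =
      run (pickF n ((n, E), l.map can, (tau lam, mm lam), C)) P.toFinset (∅, S n Y0) n := by
  have key : ∀ k : ℕ,
      (∀ x ∈ ((List.range k).foldl (fun s k =>
        pstp ((n, E), l.map can, (tau lam, mm lam), C) (mem k P) s) ([], Y0)).1, x < n) ∧
      (∀ x ∈ ((List.range k).foldl (fun s k =>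
        pstp ((n, E), l.map can, (tau lam, mm lam), C) (mem k P) s) ([], Y0)).2, x < n) ∧
      (S n ((List.range k).foldl (fun s k =>
        pstp ((n, E), l.map can, (tau lam, mm lam), C) (mem k P) s) ([], Y0)).1,
       S n ((List.range k).foldl (fun s k =>
        pstp ((n, E), l.map can, (tau lam, mm lam), C) (mem k P) s) ([], Y0)).2) =
      run (pickF n ((n, E), l.map can, (tau lam, mm lam), C)) P.toFinset (∅, S n Y0) k := by
    intro k
    induction k with
    | zero =>
      rw [List.range_zero, List.foldl_nil]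
      refine ⟨fun x hx => absurd hx List.not_mem_nil, hY, ?_⟩
      simp only [run, S_nil]
    | succ k ih =>
      rw [List.range_succ, List.foldl_append, List.foldl_cons, List.foldl_nil]
      obtain ⟨h1, h2, h3⟩ := ih
      obtain ⟨h4, h5, h6⟩ := pstp_spec hE l hl lam C (mem k P) _ h1 h2
      refine ⟨h4, h5, ?_⟩
      rw [h6, h3]
      simp only [run]
      congr 1
      rw [Bool.eq_iff_iff, mem_iff, decide_eq_true_eq, List.mem_toFinset]
  exact key n

end Pool.Agent.CDom.Prog
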