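import Mathlib
import Pool.Agent.CDom.Defs
import Pool.Agent.CDom.Basic
import Pool.Agent.CDom.Meas
import Pool.Agent.CDom.Path
import Pool.Agent.CDom.Dec
import Pool.Agent.CDom.Prog
import Pool.Agent.CDom.Spec1
import Pool.Agent.CDom.Spec2

/-!
# MODULE CDom/Spec3  (MP_6e88d0_lc)

Candidate lists, leaves, the decision procedure and the search.

Proofs.
* `mem_cands`: induction on `d`; the list for `d` has `(n+1)^d` elements, so for `(n+1)^d ≤ pad`
  no truncation happens up to length `d` (`List.take_of_length_le`).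
* `exists_cand`: a finite set `P` of numbers `< n` with `|P| ≤ d` : the list of its elements followed
  by `d - |P|` copies of `n`.
* `leaf_spec`: `Z.filter (fun v => decide (v < n) && !mem v s.2)` represents the set
  `S n Z \ S n s.2`.  `→` of the last alternative: this set has at most `d` elements (`Z` has length
  `d`), is disjoint from `S n s.2`.  `←`: `exists_cand` for `Z.image Fin.val`.
* `dec_spec`: `dec_iff` with `pickSpec`, `prun_spec`, `leaf_spec`; candidates `P ∈ cands` have
  `P.toFinset ∩ range n` of size `≤ d`, and `run` uses only times `< n`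
  (`run pick P s k` depends only on `P ∩ range k`); conversely `exists_cand`.
* `next_spec`: if `dec I [] = false`: every `MinCDS` `T` contains a member of `l` (otherwise `D = T`
  in `dec_spec`), which is a CDS contained in `T`, so equal to `T` (`MinCDS.eq_of_subset`).
  If `dec I [] = true`: let `Y_k` be the value of the fold in `excl` after `k` steps; elements `< n`,
  in `Y_(k+1)` iff in `Y_k` or (`= k` and `dec I (k :: Y_k)`); `dec I Y_k = true` for all `k`.
  Let `Y = Y_n`, `T = univ \ S n Y`.  There is a CDS `D` disjoint from `Y`, containing no member of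
  `l`.  Claim: every CDS `D' ⊆ T` (containing no member of `l`; automatically for `D' ⊆ D`) equals
  `T`: if `w ∈ T \ D'` then at step `k = w` the set `D'` is disjoint from `w :: Y_k` so
  `dec I (w :: Y_k) = true` and `w ∈ Y`: contradiction.  So `D = T`; and any CDS `D' ⊆ T = D`
  contains no member of `l`, so `D' = T`.  Hence `MinCDS G T`, and `T ∉ l` since `T ⊆ T`.
-/

set_option autoImplicit false

namespace Pool.Agent.CDom.Prog

open Finset

variable {n : ℕ} {G : SimpleGraph (Fin n)} {E : List (ℕ × ℕ)}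

theorem cands_aux (n pad : ℕ) (d : ℕ) (h : (n + 1) ^ d ≤ pad) :
    (cands n d pad).length = (n + 1) ^ d ∧
      ∀ P : List ℕ, P ∈ cands n d pad ↔ P.length = d ∧ ∀ a ∈ P, a ≤ n := by
  induction d with
  | zero =>
    refine ⟨rfl, fun P => ?_⟩
    show P ∈ [[]] ↔ _
    rw [List.mem_singleton]
    constructor
    · rintro rfl
      exact ⟨rfl, fun a ha => absurd ha List.not_mem_nil⟩
    · rintro ⟨h1, _⟩
      exact List.length_eq_zero_iff.1 h1
  | succ d ih =>
    have h1 : (n + 1) ^ d ≤ pad := by
      refine le_trans ?_ h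
      exact Nat.pow_le_pow_right (by omega) (by omega)
    obtain ⟨ih1, ih2⟩ := ih h1
    have e : cands n (d + 1) pad = ((cands n d pad).flatMap fun P =>
        (List.range (n + 1)).map fun a => a :: P).take pad := by
      unfold cands
      rw [Function.iterate_succ_apply']
    have hlen : ((cands n d pad).flatMap fun P =>
        (List.range (n + 1)).map fun a => a :: P).length = (n + 1) ^ (d + 1) := by
      rw [List.length_flatMap]
      have e2 : (List.map (fun P : List ℕ => ((List.range (n + 1)).map fun a => a :: P).length)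
          (cands n d pad)) = List.replicate (cands n d pad).length (n + 1) := by
        rw [List.eq_replicate_iff]
        refine ⟨List.length_map _, fun b hb => ?_⟩
        rw [List.mem_map] at hb
        obtain ⟨P, _, rfl⟩ := hb
        rw [List.length_map, List.length_range]
      rw [e2, List.sum_replicate, ih1, smul_eq_mul, pow_succ]
    have e3 : cands n (d + 1) pad = (cands n d pad).flatMap fun P =>
        (List.range (n + 1)).map fun a => a :: P := by
      rw [e]
      exact List.take_of_length_le (by rw [hlen]; exact h)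
    refine ⟨by rw [e3, hlen], fun P => ?_⟩
    rw [e3, List.mem_flatMap]
    constructor
    · rintro ⟨Q, hQ, hP⟩
      rw [List.mem_map] at hP
      obtain ⟨a, ha, rfl⟩ := hP
      rw [List.mem_range] at ha
      obtain ⟨h2, h3⟩ := (ih2 Q).1 hQ
      refine ⟨by rw [List.length_cons, h2], fun b hb => ?_⟩
      rw [List.mem_cons] at hb
      rcases hb with rfl | hb
      · omega
      · exact h3 b hb
    · rintro ⟨h2, h3⟩
      rcases P with _ | ⟨a, Q⟩
      · simp at h2
      · rw [List.length_cons] at h2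
        refine ⟨Q, (ih2 Q).2 ⟨by omega, fun b hb => h3 b (List.mem_cons_of_mem _ hb)⟩, ?_⟩
        rw [List.mem_map]
        refine ⟨a, ?_, rfl⟩
        rw [List.mem_range]
        have := h3 a List.mem_cons_self
        omega

theorem mem_cands (n d pad : ℕ) (h : (n + 1) ^ d ≤ pad) (P : List ℕ) :
    P ∈ cands n d pad ↔ P.length = d ∧ ∀ a ∈ P, a ≤ n :=
  (cands_aux n pad d h).2 P

theorem exists_cand (n d pad : ℕ) (h : (n + 1) ^ d ≤ pad) (P : Finset ℕ) (hP : ∀ a ∈ P, a < n)
    (hd : P.card ≤ d) : ∃ Q ∈ cands n d pad, ∀ a, a < n → (a ∈ Q ↔ a ∈ P) := by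
  refine ⟨P.toList ++ List.replicate (d - P.card) n, ?_, ?_⟩
  · rw [mem_cands n d pad h]
    refine ⟨?_, ?_⟩
    · rw [List.length_append, Finset.length_toList, List.length_replicate]
      omega
    · intro a ha
      rw [List.mem_append, Finset.mem_toList, List.mem_replicate] at ha
      rcases ha with ha | ⟨_, rfl⟩
      · exact (hP a ha).le
      · exact le_rfl
  · intro a ha
    rw [List.mem_append, Finset.mem_toList, List.mem_replicate]
    constructor
    · rintro (h1 | ⟨_, rfl⟩)
      · exact h1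
      · exact absurd ha (lt_irrefl _)
    · exact Or.inl

theorem run_congr {V : Type*} [Fintype V] [LinearOrder V]
    (pick : Finset V → Finset V → Option (Bool × V)) (P Q : Finset ℕ)
    (s : Finset V × Finset V) (k : ℕ) (h : ∀ a, a < k → (a ∈ P ↔ a ∈ Q)) :
    run pick P s k = run pick Q s k :=
  _root_.Pool.Agent.CDom.run_congr k h

theorem card_S_le (X : List ℕ) : (S n X).card ≤ X.length := by
  calc (S n X).card = ((S n X).map Fin.valEmbedding).card := (Finset.card_map _).symm
    _ ≤ X.toFinset.card := by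
        refine Finset.card_le_card fun x hx => ?_
        rw [Finset.mem_map] at hx
        obtain ⟨v, hv, rfl⟩ := hx
        rw [List.mem_toFinset]
        exact mem_S.1 hv
    _ ≤ X.length := List.toFinset_card_le X

/-- the part of a candidate list which is used -/
def cut (n : ℕ) (Z Y : List ℕ) : List ℕ := Z.filter fun v => decide (v < n) && !mem v Y

theorem mem_cut {Z Y : List ℕ} {v : ℕ} : v ∈ cut n Z Y ↔ v ∈ Z ∧ v < n ∧ v ∉ Y := by
  unfold cut
  rw [List.mem_filter, Bool.and_eq_true, decide_eq_true_eq, Bool.not_eq_true', Bool.eq_false_iff,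
    ne_eq, mem_iff]

theorem leaf_spec (hE : IsRep G E) (l : List (Finset (Fin n))) (hl : l.Nodup) (lam pad : ℕ)
    (hpad : (n + 1) ^ dd lam ≤ pad) (s : List ℕ × List ℕ) (h1 : ∀ x ∈ s.1, x < n)
    (h2 : ∀ x ∈ s.2, x < n) :
    leaf ((n, E), l.map can, (tau lam, mm lam), cands n (dd lam) pad) s = true ↔
      LeafOK G lam l.toFinset (S n s.1, S n s.2) := by
  have hc : cds (n, E) (compl n s.2) = true ↔ CDS G (univ \ S n s.2) := by
    rw [compl_eq, cds_spec hE _ (fun x hx => mem_can_lt hx), S_can]
  have hk : kk (n, E) s.1 = KK G (S n s.1) := kk_spec hE s.1 h1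
  have hZ : ∀ Z : List ℕ, (cds (n, E) (s.1 ++ cut n Z s.2) &&
      noSub (l.map can) (s.1 ++ cut n Z s.2)) = true ↔
      CDS G (S n s.1 ∪ S n (cut n Z s.2)) ∧
        ∀ T ∈ l.toFinset, ¬ T ⊆ S n s.1 ∪ S n (cut n Z s.2) := by
    intro Z
    rw [Bool.and_eq_true, noSub_spec, cds_spec hE, S_append]
    intro x hx
    rw [List.mem_append] at hx
    rcases hx with hx | hx
    · exact h1 x hx
    · exact (mem_cut.1 hx).2.1
  have hany : (cands n (dd lam) pad).any (fun Z => cds (n, E) (s.1 ++ cut n Z s.2) &&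
      noSub (l.map can) (s.1 ++ cut n Z s.2)) = true ↔
      ∃ Z : Finset (Fin n), Z.card ≤ dd lam ∧ Disjoint Z (S n s.2) ∧ CDS G (S n s.1 ∪ Z) ∧
        ∀ T ∈ l.toFinset, ¬ T ⊆ S n s.1 ∪ Z := by
    rw [List.any_eq_true]
    constructor
    · rintro ⟨Z, hZc, h3⟩
      obtain ⟨h4, h5⟩ := (hZ Z).1 h3
      refine ⟨S n (cut n Z s.2), ?_, ?_, h4, h5⟩
      · refine (card_S_le _).trans ?_
        rw [← ((mem_cands n (dd lam) pad hpad Z).1 hZc).1]
        exact List.length_filter_le _ _
      · rw [Finset.disjoint_left]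
        intro v hv hv'
        exact (mem_cut.1 (mem_S.1 hv)).2.2 (mem_S.1 hv')
    · rintro ⟨Z, hZc, hZd, h4, h5⟩
      obtain ⟨Q, hQ, hQ'⟩ := exists_cand n (dd lam) pad hpad (Z.map Fin.valEmbedding)
        (fun a ha => by
          rw [Finset.mem_map] at ha
          obtain ⟨v, _, rfl⟩ := ha
          exact v.2) (by rw [Finset.card_map]; exact hZc)
      have e : S n (cut n Q s.2) = Z := by
        ext v
        rw [mem_S, mem_cut, hQ' v v.2, Finset.mem_map]
        constructor
        · rintro ⟨⟨w, hw, hw'⟩, _, _⟩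
          have : w = v := Fin.ext hw'
          rwa [this] at hw
        · intro hv
          refine ⟨⟨v, hv, rfl⟩, v.2, fun h6 => ?_⟩
          exact (Finset.disjoint_left.1 hZd hv) (mem_S.2 h6)
      refine ⟨Q, hQ, (hZ Q).2 ?_⟩
      rw [e]
      exact ⟨h4, h5⟩
  unfold leaf LeafOK
  show (cds (n, E) (compl n s.2) && (noSub (l.map can) s.1 && ((lY (l.map can) s.2).isEmpty ||
    (decide (2 * tau lam ≤ kk (n, E) s.1) || (cands n (dd lam) pad).any fun Z =>
      cds (n, E) (s.1 ++ cut n Z s.2) && noSub (l.map can) (s.1 ++ cut n Z s.2))))) = true ↔ _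
  rw [Bool.and_eq_true, Bool.and_eq_true, Bool.or_eq_true, Bool.or_eq_true, hc, noSub_spec,
    lY_isEmpty, decide_eq_true_eq, hk, hany]

theorem dec_spec (hE : IsRep G E) (l : List (Finset (Fin n))) (hl : l.Nodup)
    (hcds : ∀ T ∈ l, CDS G T) (lam pad : ℕ) (hn : n ≤ 2 ^ lam) (hln : l.length ≤ 2 ^ lam)
    (hpad : (n + 1) ^ dd lam ≤ pad) (Y0 : List ℕ) (hY : ∀ y ∈ Y0, y < n) :
    dec ((n, E), l.map can, (tau lam, mm lam), cands n (dd lam) pad) Y0 = true ↔
      ∃ D, CDS G D ∧ Disjoint D (S n Y0) ∧ ∀ T ∈ l, ¬ T ⊆ D := by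
  have hp := pickSpec hE l hl lam (cands n (dd lam) pad)
  have hiff := dec_iff hp (by rw [Fintype.card_fin]; exact hn)
    (by rw [List.toFinset_card_of_nodup hl]; exact hln)
    (fun T hT => hcds T (List.mem_toFinset.1 hT)) (S n Y0)
  rw [Fintype.card_fin] at hiff
  have hT : (∃ D, CDS G D ∧ Disjoint D (S n Y0) ∧ ∀ T ∈ l, ¬ T ⊆ D) ↔
      ∃ D, CDS G D ∧ Disjoint D (S n Y0) ∧ ∀ T ∈ l.toFinset, ¬ T ⊆ D := by
    simp only [List.mem_toFinset]
  rw [hT, hiff]
  have hleaf : ∀ P : List ℕ,
      leaf ((n, E), l.map can, (tau lam, mm lam), cands n (dd lam) pad)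
        (prun ((n, E), l.map can, (tau lam, mm lam), cands n (dd lam) pad) Y0 P) = true ↔
      LeafOK G lam l.toFinset (run (pickF n ((n, E), l.map can, (tau lam, mm lam),
        cands n (dd lam) pad)) P.toFinset (∅, S n Y0) n) := by
    intro P
    obtain ⟨h1, h2, h3⟩ := prun_spec hE l hl lam (cands n (dd lam) pad) Y0 P hY
    rw [leaf_spec hE l hl lam pad hpad _ h1 h2, h3]
  unfold dec
  show (cands n (dd lam) pad).any (fun P =>
    leaf ((n, E), l.map can, (tau lam, mm lam), cands n (dd lam) pad)
      (prun ((n, E), l.map can, (tau lam, mm lam), cands n (dd lam) pad) Y0 P)) = true ↔ _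
  rw [List.any_eq_true]
  constructor
  · rintro ⟨P, hP, h3⟩
    rw [hleaf] at h3
    refine ⟨P.toFinset.filter (· < n), ?_, ?_, ?_⟩
    · intro a ha
      rw [Finset.mem_filter] at ha
      exact Finset.mem_range.2 ha.2
    · refine (Finset.card_filter_le _ _).trans ((List.toFinset_card_le P).trans ?_)
      rw [((mem_cands n (dd lam) pad hpad P).1 hP).1]
    · rw [run_congr _ _ P.toFinset _ n (fun a ha => ?_)]
      · exact h3
      · rw [Finset.mem_filter]
        exact ⟨fun h => h.1, fun h => ⟨h, ha⟩⟩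
  · rintro ⟨P, hP, hPc, h3⟩
    obtain ⟨Q, hQ, hQ'⟩ := exists_cand n (dd lam) pad hpad P
      (fun a ha => Finset.mem_range.1 (hP ha)) hPc
    refine ⟨Q, hQ, (hleaf Q).2 ?_⟩
    rw [run_congr _ _ P _ n (fun a ha => ?_)]
    · exact h3
    · rw [List.mem_toFinset]
      exact hQ' a ha

/-- the excluded set after `k` steps -/
def Yk (I : Inp) (k : ℕ) : List ℕ :=
  (List.range k).foldl (fun Y u => bif dec I (u :: Y) then u :: Y else Y) []

theorem Yk_succ (I : Inp) (k : ℕ) :
    Yk I (k + 1) = bif dec I (k :: Yk I k) then k :: Yk I k else Yk I k := by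
  unfold Yk
  rw [List.range_succ, List.foldl_append]
  rfl

theorem Yk_lt (I : Inp) (k : ℕ) : ∀ y ∈ Yk I k, y < k := by
  induction k with
  | zero => exact fun y hy => absurd hy List.not_mem_nil
  | succ k ih =>
    intro y hy
    rw [Yk_succ] at hy
    cases h : dec I (k :: Yk I k) with
    | true =>
      rw [h, cond_true, List.mem_cons] at hy
      rcases hy with rfl | hy
      · omega
      · have := ih y hy
        omega
    | false =>
      rw [h, cond_false] at hy
      have := ih y hy
      omega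

theorem Yk_sub_succ (I : Inp) (k : ℕ) : ∀ y ∈ Yk I k, y ∈ Yk I (k + 1) := by
  intro y hy
  rw [Yk_succ]
  cases h : dec I (k :: Yk I k) with
  | true =>
    rw [cond_true]
    exact List.mem_cons_of_mem _ hy
  | false =>
    rw [cond_false]
    exact hy

theorem Yk_mono (I : Inp) {j k : ℕ} (h : j ≤ k) : ∀ y ∈ Yk I j, y ∈ Yk I k := by
  induction k, h using Nat.le_induction with
  | base => exact fun y hy => hy
  | succ k _ ih => exact fun y hy => Yk_sub_succ I k y (ih y hy)

theorem Yk_dec (I : Inp) (h : dec I [] = true) (k : ℕ) : dec I (Yk I k) = true := by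
  induction k with
  | zero => exact h
  | succ k ih =>
    rw [Yk_succ]
    cases h : dec I (k :: Yk I k) with
    | true =>
      rw [cond_true]
      exact h
    | false =>
      rw [cond_false]
      exact ih

theorem Yk_mem (I : Inp) {k w : ℕ} (hw : w < k) (h : dec I (w :: Yk I w) = true) :
    w ∈ Yk I k := by
  refine Yk_mono I (Nat.succ_le_of_lt hw) w ?_
  rw [Yk_succ, h, cond_true]
  exact List.mem_cons_self

theorem next_spec (hE : IsRep G E) (l : List (Finset (Fin n))) (hl : l.Nodup)
    (hmin : ∀ T ∈ l, MinCDS G T) (lam pad : ℕ) (hn : n ≤ 2 ^ lam) (hln : l.length ≤ 2 ^ lam)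
    (hpad : (n + 1) ^ dd lam ≤ pad) :
    (next ((n, E), l.map can, (tau lam, mm lam), cands n (dd lam) pad) = [] ∧
        ∀ T, MinCDS G T → T ∈ l) ∨
      ∃ T, next ((n, E), l.map can, (tau lam, mm lam), cands n (dd lam) pad) = [can T] ∧
        MinCDS G T ∧ T ∉ l := by
  obtain ⟨I, hI⟩ : ∃ I : Inp, I = ((n, E), l.map can, (tau lam, mm lam), cands n (dd lam) pad) :=
    ⟨_, rfl⟩
  have hdec : ∀ Y0 : List ℕ, (∀ y ∈ Y0, y < n) → (dec I Y0 = true ↔
      ∃ D, CDS G D ∧ Disjoint D (S n Y0) ∧ ∀ T ∈ l, ¬ T ⊆ D) := by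
    intro Y0 hY0
    rw [hI]
    exact dec_spec hE l hl (fun T hT => (hmin T hT).1) lam pad hn hln hpad Y0 hY0
  have hI1 : I.1.1 = n := by rw [hI]
  have hexcl : excl I = Yk I n := by
    unfold excl Yk
    rw [hI1]
  rw [← hI]
  cases h0 : dec I [] with
  | false =>
    left
    refine ⟨by unfold next; rw [h0]; rfl, fun T hT => ?_⟩
    by_contra hTl
    have h1 : dec I [] = true := by
      rw [hdec [] (fun y hy => absurd hy List.not_mem_nil)]
      refine ⟨T, hT.1, by rw [S_nil]; exact Finset.disjoint_empty_right _, fun T' hT' hsub => ?_⟩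
      exact hTl ((hT.eq_of_subset (hmin T' hT').1 hsub) ▸ hT')
    rw [h0] at h1
    exact Bool.false_ne_true h1
  | true =>
    right
    have hYn : ∀ y ∈ Yk I n, y < n := Yk_lt I n
    have huniq : ∀ D, CDS G D → Disjoint D (S n (Yk I n)) → (∀ T ∈ l, ¬ T ⊆ D) →
        D = univ \ S n (Yk I n) := by
      intro D hD hdis hsub
      refine Finset.Subset.antisymm (fun v hv => ?_) (fun w hw => ?_)
      · rw [Finset.mem_sdiff]
        exact ⟨Finset.mem_univ _, Finset.disjoint_left.1 hdis hv⟩
      · by_contra hwD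
        rw [Finset.mem_sdiff] at hw
        refine hw.2 (mem_S.2 (Yk_mem I w.2 ?_))
        rw [hdec]
        · refine ⟨D, hD, ?_, hsub⟩
          rw [S_cons, Finset.disjoint_insert_right]
          refine ⟨hwD, ?_⟩
          refine Finset.disjoint_of_subset_right (fun v hv => ?_) hdis
          exact mem_S.2 (Yk_mono I w.2.le _ (mem_S.1 hv))
        · intro y hy
          rw [List.mem_cons] at hy
          rcases hy with rfl | hy
          · exact w.2
          · exact (Yk_lt I w y hy).trans w.2
    obtain ⟨D, hD, hdis, hsub⟩ := (hdec _ hYn).1 (Yk_dec I h0 n)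
    have hDT := huniq D hD hdis hsub
    refine ⟨D, ?_, ⟨hD, fun D' hD' hcds => ?_⟩, fun hDl => hsub D hDl (Finset.Subset.refl _)⟩
    · unfold next
      rw [h0, cond_true, hI1, hexcl, compl_eq, ← hDT]
    · have h3 := huniq D' hcds (Finset.disjoint_of_subset_left hD'.1 hdis)
        (fun T hT hTD => hsub T hT (hTD.trans hD'.1))
      rw [← hDT] at h3
      exact hD'.ne h3

end Pool.Agent.CDom.Prog
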