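import Mathlib
import Pool.Agent.Lib.PolyTime.Lib
import Pool.Agent.Lib.PolyTime.Bin
import Pool.Agent.CDom.Defs
import Pool.Agent.CDom.Prog
import Pool.Agent.CDom.Spec3
import Pool.Agent.CDom.PT1
import Pool.Agent.CDom.PT2
import Pool.Agent.CDom.QTime

/-!
# MODULE CDom/Params  (MP_6e88d0_lc)

The parameters are computed in quasi-polynomial time.

Proofs.
* `lamOf`: `(ofUnary x).length = Nat.size x` and `x < 2 ^ Nat.size x` (`Nat.lt_size_self`).
* `powNat_eq`: induction.
* `powNat_qtime`: `QTime.iterate` with `f a x = x * (a.1.1 + 1)`, count `dd (lamOf ..)`; all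
  intermediate values are `≤ (n+1)^(dd lam)`, size `2 x + 1`; with `l = Nat.log 2 (sz q) + 1`:
  `n + 1 ≤ 2 ^ (l + 1)`, `lam ≤ l + 1` (`Nat.size x ≤ Nat.log 2 x + 1`, `x ≤ sz q`), `dd lam` is a
  polynomial of degree 3 in `lam`, so `(n+1)^(dd lam) ≤ 2^((l+1) dd (l+1)) ≤ qp k (sz q)`.
* `inpOf_qtime`: `QTime.comp` of the `PolyTime` function `(q, pad) ↦ (q.1, q.2, (tau, mm),
  cands n dd pad)` with `QTime.pair`.
* `nextQ_qtime`: `pt_next`, `QTime.comp`.
* `nextQ_spec`: `next_spec` with `lam = lamOf`, `pad = (n+1)^(dd lam)`.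
-/

set_option autoImplicit false

namespace Pool.Agent.CDom.Prog

open Pool.Agent.Lib.PT

/-- number of binary digits of (number of vertices + number of known solutions) -/
def lamOf (q : Gr × List (List ℕ)) : ℕ := (ofUnary (q.1.1 + q.2.length)).length

/-- powers by iterated multiplication -/
def powNat (b e : ℕ) : ℕ := (fun x => x * b)^[e] 1

/-- the full input -/
def inpOf (q : Gr × List (List ℕ)) : Inp :=
  (q.1, q.2, (tau (lamOf q), mm (lamOf q)),
    cands q.1.1 (dd (lamOf q)) (powNat (q.1.1 + 1) (dd (lamOf q))))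

/-- a new minimal connected dominating set, or nothing -/
def nextQ (q : Gr × List (List ℕ)) : List (List ℕ) := next (inpOf q)

theorem lamOf_eq (q : Gr × List (List ℕ)) : lamOf q = Nat.size (q.1.1 + q.2.length) := by
  rw [lamOf, ofUnary, Nat.size_eq_bits_len]

theorem lamOf_spec (q : Gr × List (List ℕ)) :
    q.1.1 ≤ 2 ^ lamOf q ∧ q.2.length ≤ 2 ^ lamOf q := by
  have h := Nat.lt_size_self (q.1.1 + q.2.length)
  rw [lamOf_eq]
  omega

theorem powNat_eq (b e : ℕ) : powNat b e = b ^ e := by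
  unfold powNat
  induction e with
  | zero => rfl
  | succ e ih => rw [Function.iterate_succ_apply', ih, pow_succ]

theorem pt_lamOf : PolyTime lamOf := by
  unfold lamOf
  exact (PolyTime.ofUnary (PolyTime.add PolyTime.id.fst.fst PolyTime.id.snd.length)).length

theorem pt_tau : PolyTime (fun q : Gr × List (List ℕ) => tau (lamOf q)) := by
  unfold tau
  exact PolyTime.add pt_lamOf (PolyTime.const 3)

theorem pt_mm : PolyTime (fun q : Gr × List (List ℕ) => mm (lamOf q)) := by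
  have h : PolyTime (fun q : Gr × List (List ℕ) => 3 * lamOf q + 3) :=
    PolyTime.add (PolyTime.mul (PolyTime.const 3) pt_lamOf) (PolyTime.const 3)
  refine (PolyTime.mul (PolyTime.const 36) (PolyTime.mul h h)).congr fun q => ?_
  rw [mm, ell, sq]

theorem pt_dd : PolyTime (fun q : Gr × List (List ℕ) => dd (lamOf q)) := by
  unfold dd
  exact PolyTime.mul (PolyTime.add (PolyTime.mul (PolyTime.const 2) pt_tau) pt_mm)
    (PolyTime.add pt_lamOf (PolyTime.const 1))

theorem dd_mono {a b : ℕ} (h : a ≤ b) : dd a ≤ dd b := by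
  unfold dd tau mm ell
  gcongr

theorem dd_bound (l k : ℕ) (hl : 1 ≤ l) (hk : 2610 ≤ k) : l * dd l + 2 ≤ k * l ^ k := by
  have h1 : l * dd l + 2 ≤ 2610 * l ^ 4 := by
    unfold dd tau mm ell
    have h2 : 2 * (l + 3) ≤ 8 * l ^ 2 := by nlinarith
    have h3 : 3 * l + 3 ≤ 6 * l := by omega
    have h4 : 36 * (3 * l + 3) ^ 2 ≤ 1296 * l ^ 2 := by
      calc 36 * (3 * l + 3) ^ 2 ≤ 36 * (6 * l) ^ 2 :=
            Nat.mul_le_mul_left _ (Nat.pow_le_pow_left h3 2)
        _ = 1296 * l ^ 2 := by ring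
    have h5 : l + 1 ≤ 2 * l := by omega
    have h6 : (2 * (l + 3) + 36 * (3 * l + 3) ^ 2) * (l + 1) ≤ (1304 * l ^ 2) * (2 * l) :=
      Nat.mul_le_mul (by omega) h5
    have h7 : 1 ≤ l ^ 4 := Nat.one_le_pow _ _ hl
    calc l * ((2 * (l + 3) + 36 * (3 * l + 3) ^ 2) * (l + 1)) + 2
        ≤ l * ((1304 * l ^ 2) * (2 * l)) + 2 * l ^ 4 :=
          add_le_add (Nat.mul_le_mul_left _ h6) (by omega)
      _ = 2610 * l ^ 4 := by ring
  exact h1.trans (Nat.mul_le_mul hk (Nat.pow_le_pow_right hl (by omega)))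

theorem powNat_qtime : QTime (fun q : Gr × List (List ℕ) => sz q)
    (fun q => powNat (q.1.1 + 1) (dd (lamOf q))) := by
  have hM : QB (fun q : Gr × List (List ℕ) => sz q) (fun q : Gr × List (List ℕ) => sz q) :=
    QB.self
  unfold powNat
  refine QTime.iterate (f := fun (q : Gr × List (List ℕ)) (x : ℕ) => x * (q.1.1 + 1)) hM
    (qtime_of_polyTime hM pt_dd) (qtime_of_polyTime hM (PolyTime.const 1))
    (qtime_of_polyTime QB.self (PolyTime.mul PolyTime.id.snd
      (PolyTime.add PolyTime.id.fst.fst.fst (PolyTime.const 1)))) ⟨2610, fun q i hi => ?_⟩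
  have h0 : (fun x => x * (q.1.1 + 1))^[i] 1 = (q.1.1 + 1) ^ i := powNat_eq (q.1.1 + 1) i
  rw [h0, sz_nat]
  set l := Nat.log 2 (sz q) + 1 with hl
  have hlt : sz q < 2 ^ l := Nat.lt_pow_succ_log_self (by norm_num) _
  have hsz : q.1.1 + q.2.length + 1 ≤ sz q := by
    obtain ⟨⟨n, E⟩, L⟩ := q
    rw [sz_pair, sz_pair, sz_nat]
    have := length_lt_sz L
    show n + L.length + 1 ≤ _
    omega
  have h1 : q.1.1 + 1 ≤ 2 ^ l := by omega
  have h2 : lamOf q ≤ l := by
    rw [lamOf_eq, Nat.size_le]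
    omega
  have h3 : (q.1.1 + 1) ^ i ≤ 2 ^ (l * dd l) := by
    calc (q.1.1 + 1) ^ i ≤ (2 ^ l) ^ i := Nat.pow_le_pow_left h1 i
      _ = 2 ^ (l * i) := by rw [← pow_mul]
      _ ≤ 2 ^ (l * dd l) := Nat.pow_le_pow_right (by norm_num)
          (Nat.mul_le_mul_left _ (hi.trans (dd_mono h2)))
  have h4 : 2 * 2 ^ (l * dd l) + 1 ≤ 2 ^ (l * dd l + 2) := by
    rw [pow_add]
    have : 1 ≤ 2 ^ (l * dd l) := Nat.one_le_two_pow
    omega
  unfold qp
  rw [← hl]
  calc 2 * (q.1.1 + 1) ^ i + 1 ≤ 2 * 2 ^ (l * dd l) + 1 := by omega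
    _ ≤ 2 ^ (l * dd l + 2) := h4
    _ ≤ _ := Nat.pow_le_pow_right (by norm_num) (dd_bound l 2610 (by omega) le_rfl)

/-- the input as a polynomial-time function of the instance and the padding -/
theorem pt_inp : PolyTime (fun p : (Gr × List (List ℕ)) × ℕ =>
    ((p.1.1, p.1.2, (tau (lamOf p.1), mm (lamOf p.1)),
      cands p.1.1.1 (dd (lamOf p.1)) p.2) : Inp)) := by
  have h1 : PolyTime (fun p : (Gr × List (List ℕ)) × ℕ => tau (lamOf p.1)) :=
    pt_tau.comp PolyTime.id.fst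
  have h2 : PolyTime (fun p : (Gr × List (List ℕ)) × ℕ => mm (lamOf p.1)) :=
    pt_mm.comp PolyTime.id.fst
  have h3 : PolyTime (fun p : (Gr × List (List ℕ)) × ℕ => dd (lamOf p.1)) :=
    pt_dd.comp PolyTime.id.fst
  have h4 : PolyTime (fun p : (Gr × List (List ℕ)) × ℕ =>
      cands p.1.1.1 (dd (lamOf p.1)) p.2) :=
    pt_cands PolyTime.id.fst.fst.fst h3 PolyTime.id.snd
  exact PolyTime.pair PolyTime.id.fst.fst (PolyTime.pair PolyTime.id.fst.snd
    (PolyTime.pair (PolyTime.pair h1 h2) h4))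

theorem pair_qtime : QTime (fun q : Gr × List (List ℕ) => sz q)
    (fun q : Gr × List (List ℕ) => (q, powNat (q.1.1 + 1) (dd (lamOf q)))) :=
  QTime.pair QB.self (qtime_of_polyTime QB.self PolyTime.id) powNat_qtime

theorem inpOf_qtime : QTime (fun q : Gr × List (List ℕ) => sz q) inpOf := by
  refine QTime.congr (QTime.comp (g := fun p : (Gr × List (List ℕ)) × ℕ =>
      ((p.1.1, p.1.2, (tau (lamOf p.1), mm (lamOf p.1)),
        cands p.1.1.1 (dd (lamOf p.1)) p.2) : Inp))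
    (f := fun q : Gr × List (List ℕ) => (q, powNat (q.1.1 + 1) (dd (lamOf q)))) QB.self
    (qtime_of_polyTime QB.self pt_inp) pair_qtime) ?_
  intro q
  simp only [inpOf]

theorem nextQ_qtime : QTime (fun q : Gr × List (List ℕ) => sz q) nextQ :=
  QTime.comp (g := fun I : Inp => next I) (f := inpOf) QB.self
    (qtime_of_polyTime QB.self pt_next) inpOf_qtime

theorem nextQ_spec {n : ℕ} {G : SimpleGraph (Fin n)} {E : List (ℕ × ℕ)} (hE : IsRep G E)
    (l : List (Finset (Fin n))) (hl : l.Nodup) (hmin : ∀ T ∈ l, MinCDS G T) :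
    (nextQ ((n, E), l.map can) = [] ∧ ∀ T, MinCDS G T → T ∈ l) ∨
      ∃ T, nextQ ((n, E), l.map can) = [can T] ∧ MinCDS G T ∧ T ∉ l := by
  have h := lamOf_spec ((n, E), l.map can)
  have h2 : (l.map can).length = l.length := List.length_map _
  exact next_spec hE l hl hmin (lamOf ((n, E), l.map can))
    (powNat (n + 1) (dd (lamOf ((n, E), l.map can)))) h.1 (h2 ▸ h.2) (by rw [powNat_eq])

/-- shape of the result for arbitrary input -/
theorem nextQ_shape (q : Gr × List (List ℕ)) :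
    nextQ q = [] ∨ ∃ Y, nextQ q = [compl q.1.1 Y] := by
  unfold nextQ next
  cases h : dec (inpOf q) []
  · exact Or.inl rfl
  · exact Or.inr ⟨excl (inpOf q), rfl⟩

end Pool.Agent.CDom.Prog
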