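import Mathlib
import Pool.Agent.CDom.Defs
import Pool.Agent.CDom.Prog
import Pool.Agent.CDom.Spec1
import Pool.Agent.CDom.Params

/-!
# MODULE CDom/Enum  (MP_6e88d0_lc)

Enumeration of all minimal connected dominating sets: `n + 1` stages, each stage at most doubles
(plus one) the number of known solutions.

Proof of `allL_spec`.  Say that a list `L` is good if `L = l.map can`, `l.Nodup`, all members of `l`
are `MinCDS`; complete if moreover `l` contains every `MinCDS`.  By `nextQ_spec` a good list stays
good under `stepL`; a complete one is a fixed point of `stepL` (then `nextQ = []`: the other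
alternative gives a new one); for a good list which is not complete the length grows by one
(`nextQ = []` is impossible).  So `stage` maps a good list `L` to a complete list or to a good list of
length `2 * L.length + 1`.  Hence after `k` stages the list is complete or has length `≥ 2^k - 1`; for
`k = n + 1` the second is impossible, as `l.Nodup` in `Finset (Fin n)` gives length `≤ 2^n`
(`2^n < 2^(n+1) - 1` for `n ≥ 1`; for `n = 0` there is no `MinCDS` at all, since a CDS is nonempty).
-/

set_option autoImplicit false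

namespace Pool.Agent.CDom.Prog

/-- one more solution if there is one -/
def stepL (g : Gr) (L : List (List ℕ)) : List (List ℕ) := nextQ (g, L) ++ L

/-- one stage -/
def stage (g : Gr) (L : List (List ℕ)) : List (List ℕ) := (stepL g)^[L.length + 1] L

/-- all minimal connected dominating sets -/
def allL (g : Gr) : List (List ℕ) := (stage g)^[g.1 + 1] []

section EnumAux

variable {n : ℕ} {G : SimpleGraph (Fin n)} {E : List (ℕ × ℕ)}

/-- list without repetitions of minimal connected dominating sets -/
def GoodL (G : SimpleGraph (Fin n)) (l : List (Finset (Fin n))) : Prop :=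
  l.Nodup ∧ ∀ T ∈ l, MinCDS G T

/-- list of all minimal connected dominating sets -/
def ComplL (G : SimpleGraph (Fin n)) (l : List (Finset (Fin n))) : Prop :=
  l.Nodup ∧ ∀ T, T ∈ l ↔ MinCDS G T

theorem ComplL.good {l : List (Finset (Fin n))} (h : ComplL G l) : GoodL G l :=
  ⟨h.1, fun T hT => (h.2 T).1 hT⟩

theorem stepL_spec (hE : IsRep G E) (l : List (Finset (Fin n))) (hl : GoodL G l) :
    (ComplL G l ∧ stepL (n, E) (l.map can) = l.map can) ∨
      ∃ l' : List (Finset (Fin n)), stepL (n, E) (l.map can) = l'.map can ∧ GoodL G l' ∧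
        l'.length = l.length + 1 ∧ ¬ ComplL G l := by
  unfold stepL
  rcases nextQ_spec hE l hl.1 hl.2 with ⟨h1, h2⟩ | ⟨T, h1, h2, h3⟩
  · left
    refine ⟨⟨hl.1, fun T => ⟨hl.2 T, h2 T⟩⟩, ?_⟩
    rw [h1, List.nil_append]
  · right
    refine ⟨T :: l, ?_, ⟨List.nodup_cons.2 ⟨h3, hl.1⟩, ?_⟩, rfl, ?_⟩
    · rw [h1]; rfl
    · intro T' hT'
      rcases List.mem_cons.1 hT' with h | h
      · exact h ▸ h2
      · exact hl.2 T' h
    · intro h
      exact h3 ((h.2 T).2 h2)

theorem stepL_compl (hE : IsRep G E) (l : List (Finset (Fin n))) (hl : ComplL G l) :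
    stepL (n, E) (l.map can) = l.map can := by
  rcases stepL_spec hE l hl.good with h | ⟨_, _, _, _, h⟩
  · exact h.2
  · exact absurd hl h

theorem iter_compl (hE : IsRep G E) (l : List (Finset (Fin n))) (hl : ComplL G l) (k : ℕ) :
    (stepL (n, E))^[k] (l.map can) = l.map can := by
  induction k with
  | zero => rfl
  | succ k ih => rw [Function.iterate_succ_apply', ih, stepL_compl hE l hl]

theorem iter_good (hE : IsRep G E) (l : List (Finset (Fin n))) (hl : GoodL G l) (k : ℕ) :
    ∃ l' : List (Finset (Fin n)), (stepL (n, E))^[k] (l.map can) = l'.map can ∧ GoodL G l' ∧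
      (ComplL G l' ∨ l'.length = l.length + k) := by
  induction k with
  | zero => exact ⟨l, rfl, hl, Or.inr rfl⟩
  | succ k ih =>
    obtain ⟨l', h1, h2, h3⟩ := ih
    rcases stepL_spec hE l' h2 with ⟨h4, h5⟩ | ⟨l'', h4, h5, h6, h7⟩
    · refine ⟨l', ?_, h2, Or.inl h4⟩
      rw [Function.iterate_succ_apply', h1, h5]
    · refine ⟨l'', ?_, h5, Or.inr ?_⟩
      · rw [Function.iterate_succ_apply', h1, h4]
      · rcases h3 with h3 | h3
        · exact absurd h3 h7
        · omega

theorem stage_good (hE : IsRep G E) (k : ℕ) :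
    ∃ l' : List (Finset (Fin n)), (stage (n, E))^[k] [] = l'.map can ∧ GoodL G l' ∧
      (ComplL G l' ∨ 2 ^ k ≤ l'.length + 1) := by
  induction k with
  | zero => exact ⟨[], rfl, ⟨List.nodup_nil, fun T hT => absurd hT List.not_mem_nil⟩,
      Or.inr (by simp)⟩
  | succ k ih =>
    obtain ⟨l', h1, h2, h3⟩ := ih
    rw [Function.iterate_succ_apply', h1]
    unfold stage
    rw [List.length_map]
    rcases h3 with h3 | h3
    · exact ⟨l', iter_compl hE l' h3 _, h2, Or.inl h3⟩
    · obtain ⟨l'', h4, h5, h6⟩ := iter_good hE l' h2 (l'.length + 1)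
      refine ⟨l'', h4, h5, h6.imp_right fun h => ?_⟩
      rw [pow_succ]
      omega

end EnumAux

theorem allL_spec {n : ℕ} {G : SimpleGraph (Fin n)} {E : List (ℕ × ℕ)} (hE : IsRep G E) :
    ∃ l : List (Finset (Fin n)), allL (n, E) = l.map can ∧ l.Nodup ∧
      ∀ T, T ∈ l ↔ MinCDS G T := by
  obtain ⟨l, h1, h2, h3⟩ := stage_good hE (n + 1)
  rcases h3 with h3 | h3
  · exact ⟨l, h1, h3.1, h3.2⟩
  · exfalso
    have hlen : l.length ≤ 2 ^ n := by
      have := h2.1.length_le_card
      simpa using this
    rcases Nat.eq_zero_or_pos n with hn | hn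
    · subst hn
      have h4 : 0 < l.length := by
        simp at h3
        omega
      obtain ⟨T, hT⟩ := List.exists_mem_of_length_pos h4
      obtain ⟨x, _⟩ := (h2.2 T hT).1.1
      exact x.elim0
    · have h5 : 2 ≤ 2 ^ n := by
        calc 2 = 2 ^ 1 := rfl
          _ ≤ 2 ^ n := Nat.pow_le_pow_right (by norm_num) hn
      rw [pow_succ] at h3
      omega

end Pool.Agent.CDom.Prog
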