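import Mathlib
import Pool.Agent.Lib.PolyTime.Lib
import Pool.Agent.CDom.Prog
import Pool.Agent.CDom.PT1
import Pool.Agent.CDom.QTime
import Pool.Agent.CDom.Params
import Pool.Agent.CDom.Enum

/-!
# MODULE CDom/EnumTime  (MP_6e88d0_lc)

The enumeration runs in quasi-polynomial time in (size of the input + number of solutions).

Proofs.
* `stepL_qtime`: `QTime.comp` of `PolyTime` append with `QTime.pair` (`nextQ_qtime` and the
  projection).
* sizes: by `nextQ_shape` every new element is `compl g.1 Y`, a sublist of `List.range g.1`, of size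
  `≤ sz (List.range g.1)` which is polynomial in `sz g` (`PolyTime.range.size_bdd`).
* `stage_qtime`: `QTime.iterate` on `α = Gr × List (List ℕ)` with `M = sz`: count `L.length + 1`,
  start `L`, step `fun q x => stepL q.1 x`; sizes `≤ sz L + i * (sz (List.range g.1) + 1)`.
* `allL_qtime`: `QTime.iterate` on `α = Gr`, `M g = sz g + (allL g).length`: count `g.1 + 1`,
  start `[]`, step `stage`.  Every intermediate list is a suffix of `allL g` (all steps only put
  elements in front), so it has at most `(allL g).length` members, each of size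
  `≤ sz (List.range g.1)`.
-/

set_option autoImplicit false

namespace Pool.Agent.CDom.Prog

open Pool.Agent.Lib.PT

theorem sz_sublist {α : Type*} [Enc α] {l₁ l₂ : List α} (h : l₁.Sublist l₂) :
    sz l₁ ≤ sz l₂ := by
  induction h with
  | slnil => exact le_rfl
  | cons a _ ih => rw [sz_list_cons]; omega
  | cons_cons a _ ih => rw [sz_list_cons, sz_list_cons]; omega

theorem sz_compl_le (n : ℕ) (Y : List ℕ) : sz (compl n Y) ≤ sz (List.range n) :=
  sz_sublist (List.filter_sublist)

theorem sz_stepL_le (g : Gr) (x : List (List ℕ)) :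
    sz (stepL g x) ≤ sz x + (sz (List.range g.1) + 1) := by
  unfold stepL
  rcases nextQ_shape (g, x) with h | ⟨Y, h⟩
  · rw [h, List.nil_append]; omega
  · rw [h, List.singleton_append, sz_list_cons]
    have := sz_compl_le g.1 Y
    show sz (compl g.1 Y) + sz x + 1 ≤ _
    omega

theorem suffix_stepL (g : Gr) (x : List (List ℕ)) : x <:+ stepL g x := List.suffix_append _ _

theorem suffix_iterate {β : Type*} (f : List β → List β) (hf : ∀ x, x <:+ f x) (i : ℕ)
    (x : List β) : x <:+ f^[i] x := by
  induction i with
  | zero => exact List.suffix_rfl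
  | succ i ih => rw [Function.iterate_succ_apply']; exact ih.trans (hf _)

theorem suffix_stage (g : Gr) (x : List (List ℕ)) : x <:+ stage g x :=
  suffix_iterate _ (suffix_stepL g) _ _

theorem mem_stepL_sz {g : Gr} {x : List (List ℕ)} (hx : ∀ a ∈ x, sz a ≤ sz (List.range g.1)) :
    ∀ a ∈ stepL g x, sz a ≤ sz (List.range g.1) := by
  intro a ha
  unfold stepL at ha
  rcases nextQ_shape (g, x) with h | ⟨Y, h⟩
  · rw [h, List.nil_append] at ha; exact hx a ha
  · rw [h, List.singleton_append, List.mem_cons] at ha
    rcases ha with rfl | ha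
    · exact sz_compl_le _ _
    · exact hx a ha

theorem iterate_inv {β : Type*} {P : β → Prop} {f : β → β} (hf : ∀ x, P x → P (f x)) (i : ℕ)
    {x : β} (hx : P x) : P (f^[i] x) := by
  induction i with
  | zero => exact hx
  | succ i ih => rw [Function.iterate_succ_apply']; exact hf _ ih

theorem mem_stage_sz {g : Gr} {x : List (List ℕ)} (hx : ∀ a ∈ x, sz a ≤ sz (List.range g.1)) :
    ∀ a ∈ stage g x, sz a ≤ sz (List.range g.1) :=
  iterate_inv (P := fun y : List (List ℕ) => ∀ a ∈ y, sz a ≤ sz (List.range g.1))
    (fun _ h => mem_stepL_sz h) _ hx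

theorem QB_of_PB {α : Type*} [Enc α] {M g : α → ℕ} (hM : ∀ a, sz a ≤ M a) (hg : PB g) :
    QB M g := by
  obtain ⟨p, hp⟩ := hg
  exact (QB.poly p (QB.self (M := M))).mono fun a => (hp a).trans (poly_mono p (hM a))

theorem stepL_qtime : QTime (fun q : Gr × List (List ℕ) => sz q) (fun q => stepL q.1 q.2) := by
  have hM : QB (fun q : Gr × List (List ℕ) => sz q) (fun q => sz q) := QB.self
  have happ : PolyTime (fun b : List (List ℕ) × List (List ℕ) => b.1 ++ b.2) :=
    (PolyTime.id.fst).append (PolyTime.id.snd)
  have hsnd : PolyTime (fun q : Gr × List (List ℕ) => q.2) := PolyTime.id.snd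
  have h1 : QTime (fun q : Gr × List (List ℕ) => sz q) (fun q => (nextQ q, q.2)) :=
    QTime.pair hM nextQ_qtime (qtime_of_polyTime hM hsnd)
  exact QTime.comp hM (qtime_of_polyTime (M := fun b => sz b) QB.self happ) h1

theorem stage_qtime : QTime (fun q : Gr × List (List ℕ) => sz q) (fun q => stage q.1 q.2) := by
  have hM : QB (fun q : Gr × List (List ℕ) => sz q) (fun q => sz q) := QB.self
  have hsnd : PolyTime (fun q : Gr × List (List ℕ) => q.2) := PolyTime.id.snd
  have hn : QTime (fun q : Gr × List (List ℕ) => sz q) (fun q => q.2.length + 1) :=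
    qtime_of_polyTime hM hsnd.length.succ
  have hb : QTime (fun q : Gr × List (List ℕ) => sz q) (fun q => q.2) :=
    qtime_of_polyTime hM hsnd
  have hf : QTime (fun p : (Gr × List (List ℕ)) × List (List ℕ) => sz p)
      (fun p => stepL p.1.1 p.2) := by
    have hM' : QB (fun p : (Gr × List (List ℕ)) × List (List ℕ) => sz p) (fun p => sz p) :=
      QB.self
    have hid : PolyTime (fun p : (Gr × List (List ℕ)) × List (List ℕ) => p) := PolyTime.id
    have hp1 : PolyTime (fun p : (Gr × List (List ℕ)) × List (List ℕ) => p.1) := hid.fst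
    have hp11 : PolyTime (fun p : (Gr × List (List ℕ)) × List (List ℕ) => p.1.1) := hp1.fst
    have hp2 : PolyTime (fun p : (Gr × List (List ℕ)) × List (List ℕ) => p.2) := hid.snd
    have hp : PolyTime (fun p : (Gr × List (List ℕ)) × List (List ℕ) => (p.1.1, p.2)) :=
      hp11.pair hp2
    exact QTime.comp (g := fun q : Gr × List (List ℕ) => stepL q.1 q.2)
      (f := fun p : (Gr × List (List ℕ)) × List (List ℕ) => (p.1.1, p.2)) hM' stepL_qtime
      (qtime_of_polyTime hM' hp)
  have hs : ∃ k, ∀ (a : Gr × List (List ℕ)) (i : ℕ), i ≤ a.2.length + 1 →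
      sz ((stepL a.1)^[i] a.2) ≤ qp k (sz a) := by
    have hid : PolyTime (fun q : Gr × List (List ℕ) => q) := PolyTime.id
    have h1' : PolyTime (fun q : Gr × List (List ℕ) => q.1) := hid.fst
    have h11' : PolyTime (fun q : Gr × List (List ℕ) => q.1.1) := h1'.fst
    have hr : PolyTime (fun q : Gr × List (List ℕ) => List.range q.1.1) := h11'.range
    have hB : PB (fun q : Gr × List (List ℕ) =>
        sz q + (sz q + 1) * (sz (List.range q.1.1) + 1)) :=
      PB.sz.add ((PB.sz.add (PB.const 1)).mul (hr.size_bdd.add (PB.const 1)))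
    obtain ⟨k, hk⟩ := QB_of_PB (M := fun q : Gr × List (List ℕ) => sz q) (fun _ => le_rfl) hB
    refine ⟨k, fun a i hi => le_trans ?_ (hk a)⟩
    have hit : ∀ j : ℕ, sz ((stepL a.1)^[j] a.2) ≤
        sz a.2 + j * (sz (List.range a.1.1) + 1) := by
      intro j
      induction j with
      | zero => simp
      | succ j ih =>
        rw [Function.iterate_succ_apply']
        have := sz_stepL_le a.1 ((stepL a.1)^[j] a.2)
        rw [Nat.succ_mul]
        omega
    have h1 := hit i
    have h2 : sz a.2 ≤ sz a := by
      have : sz a = sz a.1 + sz a.2 + 1 := sz_pair a.1 a.2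
      rw [this]; omega
    have h3 : i ≤ sz a + 1 := by
      have := length_lt_sz a.2
      omega
    have h4 : i * (sz (List.range a.1.1) + 1) ≤ (sz a + 1) * (sz (List.range a.1.1) + 1) :=
      Nat.mul_le_mul_right _ h3
    show sz ((stepL a.1)^[i] a.2) ≤ sz a + (sz a + 1) * (sz (List.range a.1.1) + 1)
    omega
  exact QTime.iterate (f := fun (q : Gr × List (List ℕ)) x => stepL q.1 x) hM hn hb hf hs

theorem allL_qtime : QTime (fun g : Gr => sz g + (allL g).length) allL := by
  have hM : QB (fun g : Gr => sz g + (allL g).length) (fun g => sz g) :=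
    QB.self.mono fun g => Nat.le_add_right _ _
  have hn : QTime (fun g : Gr => sz g + (allL g).length) (fun g => g.1 + 1) :=
    qtime_of_polyTime hM (PolyTime.id.fst).succ
  have hb : QTime (fun g : Gr => sz g + (allL g).length) (fun _ => ([] : List (List ℕ))) :=
    qtime_of_polyTime hM (PolyTime.const _)
  have hs : ∃ k, ∀ (g : Gr) (i : ℕ), i ≤ g.1 + 1 →
      sz ((stage g)^[i] []) ≤ qp k (sz g + (allL g).length) := by
    have hr : PolyTime (fun g : Gr => List.range g.1) := (PolyTime.id.fst).range
    have hB : QB (fun g : Gr => sz g + (allL g).length)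
        (fun g => (allL g).length * (sz (List.range g.1) + 1) + 1) := by
      have h1 : QB (fun g : Gr => sz g + (allL g).length) (fun g => (allL g).length) :=
        QB.self.mono fun g => Nat.le_add_left _ _
      have h2 : QB (fun g : Gr => sz g + (allL g).length)
          (fun g => sz (List.range g.1) + 1) :=
        QB_of_PB (fun g => Nat.le_add_right _ _) (hr.size_bdd.add (PB.const 1))
      exact (h1.mul h2).add (QB.const 1)
    obtain ⟨k, hk⟩ := hB
    refine ⟨k, fun g i hi => le_trans ?_ (hk g)⟩
    refine sz_le_of_length ?_ ?_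
    · have hsuf : (stage g)^[i] [] <:+ allL g := by
        unfold allL
        obtain ⟨j, hj⟩ := Nat.exists_eq_add_of_le hi
        rw [hj, Nat.add_comm i j, Function.iterate_add_apply]
        exact suffix_iterate _ (suffix_stage g) _ _
      exact hsuf.length_le
    · exact iterate_inv (P := fun y : List (List ℕ) => ∀ a ∈ y, sz a ≤ sz (List.range g.1))
        (fun _ h => mem_stage_sz h) i (by simp)
  exact QTime.iterate (f := fun (g : Gr) x => stage g x) hM hn hb stage_qtime hs

end Pool.Agent.CDom.Prog
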