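import Mathlib
import Pool.Agent.Lib.PolyTime.Lib
import Pool.Agent.Lib.PolyTime.ToTM2
import Pool.Agent.CDom.StmtDefs

/-!
# MODULE CDom/TM  (MP_6e88d0_lc)

A program of the library is simulated by a Turing machine of Mathlib with linear overhead.

Proof: repeat the end of `Pool/Agent/Lib/PolyTime/ToTM2.lean` (theorem `polyTime_toTM2`): the machine
is `ToTM2.tm (ToTM2.full c)`, both alphabet equivalences are `Equiv.refl Bool`;
`ToTM2.R_full c w w' h` gives `∃ t ≤ .., Run (full c) (st w [] ..) (st [] w' ..) t`, then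
`outputs_of_run`.
-/

set_option autoImplicit false

namespace Pool.Agent.CDom

open Pool.Agent.Lib.PT

theorem code_machine (c : Code) :
    ∃ (M : Turing.FinTM2) (i : M.Γ M.k₀ ≃ Bool) (o : M.Γ M.k₁ ≃ Bool), ∀ w w' : List Bool,
      c.eval (enc w) = enc w' →
        Outputs M i o w w' (7 * w.length + 40 * c.cost (enc w) + 9 * w'.length + 13) := by
  refine ⟨ToTM2.tm (ToTM2.full c), Equiv.refl Bool, Equiv.refl Bool, fun w w' h => ?_⟩
  have hr := ToTM2.R_full c w w' h
  obtain ⟨t, ht, hrun⟩ := hr
  have h0 := ToTM2.outputs_of_run (ToTM2.full c) w w' _ hrun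
  refine ⟨?_⟩
  have hid : ∀ l : List Bool, List.map (Equiv.refl Bool).symm l = l := fun l => List.map_id l
  have key : ∀ l l' : List Bool, l = w → l' = w' →
      Turing.TM2OutputsInTime (ToTM2.tm (ToTM2.full c)) l (some l')
        (7 * w.length + 40 * c.cost (enc w) + 9 * w'.length + 13) := by
    intro l l' hl hl'
    subst hl hl'
    exact ⟨⟨h0.steps, h0.evals_in_steps⟩, h0.steps_le_m.trans (by omega)⟩
  exact key _ _ (hid w) (hid w')

end Pool.Agent.CDom
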