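import Mathlib
import Pool.Agent.Lib.PolyTime.Lib
import Pool.Agent.CDom.StmtDefs
import Pool.Agent.CDom.Basic
import Pool.Agent.CDom.Params
import Pool.Agent.CDom.EnumTime
import Pool.Agent.CDom.Parse
import Pool.Agent.CDom.TM

/-!
# Assembly (MP_6e88d0_lc)
-/

set_option autoImplicit false

namespace Pool.Agent.CDom

open Pool.Agent.Lib.PT Prog

attribute [local irreducible] Prog.nextQ Prog.allL Prog.printL Prog.decM Prog.toGr Prog.toL

theorem isMinCDS_iff {n : ℕ} (G : SimpleGraph (Fin n)) (D : Finset (Fin n)) :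
    IsMinCDS G D ↔ MinCDS G D := by
  unfold IsMinCDS MinCDS IsCDS
  constructor
  · rintro ⟨h1, h2⟩
    exact ⟨cds_iff.2 h1, fun D' hD' h => h2 D' hD' (cds_iff.1 h)⟩
  · rintro ⟨h1, h2⟩
    exact ⟨cds_iff.1 h1, fun D' hD' h => h2 D' hD' (cds_iff.2 h)⟩

/-- the graph and the known solutions from the input word -/
def readQ (w : List Bool) : Gr × List (List ℕ) := (toGr (decM w), toL (decM w))

/-- program 1: one new solution -/
def mainNext (w : List Bool) : List Bool := printL (readQ w).1.1 (nextQ (readQ w))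

/-- program 2: all solutions -/
def mainAll (w : List Bool) : List Bool := printL (readQ w).1.1 (allL (readQ w).1)

theorem QB_sz {α : Type*} [Enc α] : QB (fun a : α => sz a) (fun a => sz a) := QB.self

theorem readQ_pt : PolyTime readQ :=
  (PolyTime.comp pt_toGr pt_decM).pair (PolyTime.comp pt_toL pt_decM)

theorem mainNext_qtime : QTime (fun w : List Bool => sz w) mainNext := by
  have h1 : QTime (fun w : List Bool => sz w) readQ := qtime_of_polyTime QB_sz readQ_pt
  have h2 : QTime (fun w : List Bool => sz w) (fun w => nextQ (readQ w)) :=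
    QTime.comp QB_sz nextQ_qtime h1
  have h3 : QTime (fun w : List Bool => sz w) (fun w => (readQ w).1.1) :=
    qtime_of_polyTime QB_sz readQ_pt.fst.fst
  have h4 := QTime.pair QB_sz h3 h2
  have h5 := QTime.comp (g := fun q : ℕ × List (List ℕ) => printL q.1 q.2) QB_sz
    (qtime_of_polyTime QB_sz pt_printL) h4
  exact h5

theorem mainAll_qtime :
    QTime (fun w : List Bool => sz w + (allL (readQ w).1).length) mainAll := by
  have hM : QB (fun w : List Bool => sz w + (allL (readQ w).1).length) (fun w => sz w) :=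
    QB.self.mono fun w => Nat.le_add_right _ _
  have h1 : QTime (fun w : List Bool => sz w + (allL (readQ w).1).length)
      (fun w => (readQ w).1) := qtime_of_polyTime hM readQ_pt.fst
  have h2 : QTime (fun w : List Bool => sz w + (allL (readQ w).1).length)
      (fun w => allL (readQ w).1) := by
    refine QTime.comp' hM allL_qtime h1 ?_
    refine QB.add ?_ (QB.self.mono fun w => Nat.le_add_left _ _)
    exact QTime.size hM h1
  have h3 : QTime (fun w : List Bool => sz w + (allL (readQ w).1).length)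
      (fun w => (readQ w).1.1) := qtime_of_polyTime hM readQ_pt.fst.fst
  have h4 := QTime.pair hM h3 h2
  have h5 := QTime.comp (g := fun q : ℕ × List (List ℕ) => printL q.1 q.2) hM
    (qtime_of_polyTime QB_sz pt_printL) h4
  exact h5

/-- from programs to machines -/
theorem machine_of_qtime {f : List Bool → List Bool} {M : List Bool → ℕ}
    (hM : ∀ w, sz w ≤ M w) (hf : QTime M f) :
    ∃ (T : Turing.FinTM2) (i : T.Γ T.k₀ ≃ Bool) (o : T.Γ T.k₁ ≃ Bool) (k : ℕ),
      ∀ w, Outputs T i o w (f w) (qp k (M w)) := by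
  have hsz : QB M (fun w => sz w) := QB.self.mono hM
  have hfs := QTime.size hsz hf
  obtain ⟨c, hc, hcost⟩ := hf
  obtain ⟨T, i, o, hT⟩ := code_machine c
  have h : QB M (fun w => 7 * sz w + 40 * c.cost (enc w) + 9 * sz (f w) + 13) :=
    ((((QB.const 7).mul hsz).add ((QB.const 40).mul hcost)).add ((QB.const 9).mul hfs)).add
      (QB.const 13)
  obtain ⟨k, hk⟩ := h
  refine ⟨T, i, o, k, fun w => ?_⟩
  have h1 := hT w (f w) (hc w)
  obtain ⟨h2⟩ := h1
  refine ⟨⟨⟨h2.steps, h2.evals_in_steps⟩, h2.steps_le_m.trans ?_⟩⟩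
  refine le_trans ?_ (hk w)
  have h3 := length_lt_sz w
  have h4 := length_lt_sz (f w)
  beta_reduce
  omega

theorem Outputs.mono {T : Turing.FinTM2} {i : T.Γ T.k₀ ≃ Bool} {o : T.Γ T.k₁ ≃ Bool}
    {w w' : List Bool} {t t' : ℕ} (h : Outputs T i o w w' t) (ht : t ≤ t') :
    Outputs T i o w w' t' := by
  obtain ⟨h⟩ := h
  exact ⟨⟨⟨h.steps, h.evals_in_steps⟩, h.steps_le_m.trans ht⟩⟩

/-- `qp` of a polynomial bound -/
theorem qp_bound (k : ℕ) : ∃ k', ∀ s : ℕ, qp k (100 * (s + 1) ^ 2 + s) ≤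
    2 ^ (k' * (Nat.log 2 s + 1) ^ k') := by
  have h : QB (fun s : ℕ => s) (fun s => qp k (100 * (s + 1) ^ 2 + s)) := by
    refine QB.qp k ?_
    have h1 : QB (fun s : ℕ => s) (fun s => s + 1) := QB.self.add (QB.const 1)
    exact ((QB.const 100).mul ((h1.mul h1).mono fun s => by ring_nf; exact le_rfl)).add QB.self
  obtain ⟨k', hk'⟩ := h
  exact ⟨k', hk'⟩

theorem readQ_spec {n : ℕ} (G : SimpleGraph (Fin n)) (l : List (Finset (Fin n)))
    (h0 : n = 0 → l = []) :
    ∃ E, IsRep G E ∧ readQ (encM (matG G ++ l.map matS)) = ((n, E), l.map can) := by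
  unfold readQ
  rw [decM_encM]
  obtain ⟨h1, h2⟩ := toGr_spec G l h0
  refine ⟨_, h2, ?_⟩
  rw [toL_spec G l h0]
  exact Prod.ext (Prod.ext h1 rfl) rfl

theorem no_cds_zero {n : ℕ} {G : SimpleGraph (Fin n)} {T : Finset (Fin n)} (h : MinCDS G T) :
    n ≠ 0 := by
  rintro rfl
  obtain ⟨x, _⟩ := h.1.1
  exact x.elim0

/-- the incremental version -/
theorem incremental : ∃ (T : Turing.FinTM2) (i : T.Γ T.k₀ ≃ Bool) (o : T.Γ T.k₁ ≃ Bool) (k : ℕ),
    ∀ (n : ℕ) (G : SimpleGraph (Fin n)) (l : List (Finset (Fin n))), l.Nodup →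
      (∀ D ∈ l, IsMinCDS G D) →
      ((∀ D, IsMinCDS G D → D ∈ l) ∧
        Outputs T i o (encM (matG G ++ l.map matS)) (encM [])
          (2 ^ (k * (Nat.log 2 (n + l.length) + 1) ^ k))) ∨
      ∃ D, IsMinCDS G D ∧ D ∉ l ∧
        Outputs T i o (encM (matG G ++ l.map matS)) (encM [matS D])
          (2 ^ (k * (Nat.log 2 (n + l.length) + 1) ^ k)) := by
  obtain ⟨T, i, o, k, hT⟩ := machine_of_qtime (fun w => le_rfl) mainNext_qtime
  obtain ⟨k', hk'⟩ := qp_bound k
  refine ⟨T, i, o, k', fun n G l hl hmin => ?_⟩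
  have h0 : n = 0 → l = [] := by
    intro h
    by_contra hne
    obtain ⟨D, hD⟩ := List.exists_mem_of_ne_nil l hne
    exact no_cds_zero ((isMinCDS_iff G D).1 (hmin D hD)) h
  obtain ⟨E, hE, hr⟩ := readQ_spec G l h0
  have hTw := hT (encM (matG G ++ l.map matS))
  have ht : qp k (sz (encM (matG G ++ l.map matS))) ≤
      2 ^ (k' * (Nat.log 2 (n + l.length) + 1) ^ k') := by
    refine le_trans (qp_mono_right k ?_) (hk' (n + l.length))
    exact (sz_enc_le G l).trans (Nat.le_add_right _ _)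
  have hTw' := hTw.mono ht
  unfold mainNext at hTw'
  rw [hr] at hTw'
  rcases nextQ_spec hE l hl (fun D hD => (isMinCDS_iff G D).1 (hmin D hD)) with h | ⟨D, h1, h2, h3⟩
  · left
    refine ⟨fun D hD => h.2 D ((isMinCDS_iff G D).1 hD), ?_⟩
    rw [h.1] at hTw'
    have := printL_spec (n := n) []
    simp only [List.map_nil] at this
    rw [this] at hTw'
    exact hTw'
  · right
    refine ⟨D, (isMinCDS_iff G D).2 h2, h3, ?_⟩
    rw [h1] at hTw'
    have := printL_spec (n := n) [D]
    simp only [List.map_cons, List.map_nil] at this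
    rw [this] at hTw'
    exact hTw'

/-- the complete enumeration -/
theorem enumeration : ∃ (T : Turing.FinTM2) (i : T.Γ T.k₀ ≃ Bool) (o : T.Γ T.k₁ ≃ Bool) (k : ℕ),
    ∀ (n : ℕ) (G : SimpleGraph (Fin n)), ∃ l : List (Finset (Fin n)), l.Nodup ∧
      (∀ D, D ∈ l ↔ IsMinCDS G D) ∧
      Outputs T i o (encM (matG G)) (encM (l.map matS))
        (2 ^ (k * (Nat.log 2 (n + l.length) + 1) ^ k)) := by
  obtain ⟨T, i, o, k, hT⟩ := machine_of_qtime (fun w => Nat.le_add_right _ _) mainAll_qtime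
  obtain ⟨k', hk'⟩ := qp_bound k
  refine ⟨T, i, o, k', fun n G => ?_⟩
  obtain ⟨E, hE, hr⟩ := readQ_spec G [] (fun _ => rfl)
  rw [List.map_nil, List.append_nil] at hr
  obtain ⟨l, h1, h2, h3⟩ := allL_spec hE
  refine ⟨l, h2, fun D => (h3 D).trans (isMinCDS_iff G D).symm, ?_⟩
  have hTw := hT (encM (matG G))
  have hl : (allL (readQ (encM (matG G))).1).length = l.length := by
    rw [hr, h1, List.length_map]
  have ht : qp k (sz (encM (matG G)) + (allL (readQ (encM (matG G))).1).length) ≤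
      2 ^ (k' * (Nat.log 2 (n + l.length) + 1) ^ k') := by
    refine le_trans (qp_mono_right k ?_) (hk' (n + l.length))
    rw [hl]
    have h4 := sz_enc_le G []
    rw [List.map_nil, List.append_nil, List.length_nil] at h4
    have h5 : 100 * (n + 0 + 1) ^ 2 ≤ 100 * (n + l.length + 1) ^ 2 :=
      Nat.mul_le_mul_left _ (Nat.pow_le_pow_left (by omega) 2)
    omega
  have hTw' := hTw.mono ht
  unfold mainAll at hTw'
  rw [hr, h1, printL_spec] at hTw'
  exact hTw'

end Pool.Agent.CDom
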